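import Pool.Agent.Helper9.TB.Alg

/-!
# The matrix of the half twist at `exp (π i / M)`, `M` real
-/

namespace Pool.Agent.Helper9.TB

open Finset

/-- `exp (π i x)` -/
noncomputable def ex (x : ℝ) : ℂ := Complex.exp (Real.pi * Complex.I * x)

/-- `2 sin (π x)` -/
noncomputable def sb (x : ℝ) : ℝ := 2 * Real.sin (Real.pi * x)

lemma ex_add (x y : ℝ) : ex (x + y) = ex x * ex y := by
  unfold ex; rw [← Complex.exp_add]; congr 1; push_cast; ring

lemma ex_eq (x : ℝ) : ex x = (Real.cos (Real.pi * x) : ℂ) + (Real.sin (Real.pi * x) : ℂ) *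
    Complex.I := by
  unfold ex
  rw [show (Real.pi : ℂ) * Complex.I * x = ((Real.pi * x : ℝ) : ℂ) * Complex.I by push_cast; ring,
    Complex.exp_mul_I, Complex.ofReal_cos, Complex.ofReal_sin]

lemma norm_ex (x : ℝ) : ‖ex x‖ = 1 := by
  unfold ex
  rw [show (Real.pi : ℂ) * Complex.I * x = ((Real.pi * x : ℝ) : ℂ) * Complex.I by push_cast; ring,
    Complex.norm_exp_ofReal_mul_I]

lemma ex_ne (x : ℝ) : ex x ≠ 0 := Complex.exp_ne_zero _

lemma ex_natCast (n : ℕ) : ex n = (-1) ^ n := by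
  unfold ex
  rw [show (Real.pi : ℂ) * Complex.I * (n : ℝ) = (n : ℂ) * (Real.pi * Complex.I) by push_cast; ring,
    Complex.exp_nat_mul, Complex.exp_pi_mul_I]

lemma ex_continuous : Continuous ex := by unfold ex; fun_prop

lemma sb_add (x y : ℝ) : (sb (x + y) : ℂ) = sb y * ex x + sb x * ex (-y) := by
  rw [ex_eq, ex_eq]
  unfold sb
  rw [mul_add, Real.sin_add, mul_neg, Real.sin_neg, Real.cos_neg]
  push_cast
  linear_combination (2 * Complex.sin (Real.pi * x) * Complex.sin (Real.pi * y) -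
    2 * Complex.sin (Real.pi * x) * Complex.sin (Real.pi * y)) * Complex.I_sq

/-- the product of the first `n` of the `2 sin (π j / M)` -/
noncomputable def sf (M : ℝ) (n : ℕ) : ℝ := ∏ j ∈ range n, sb ((j + 1 : ℕ) / M)

lemma sf_zero (M : ℝ) : sf M 0 = 1 := by simp [sf]

lemma sf_succ (M : ℝ) (n : ℕ) : sf M (n + 1) = sf M n * sb ((n + 1 : ℕ) / M) := by
  unfold sf; rw [prod_range_succ]

lemma sb_pos {x : ℝ} (h0 : 0 < x) (h1 : x < 1) : 0 < sb x := by
  unfold sb
  have := Real.sin_pos_of_pos_of_lt_pi (x := Real.pi * x) (by positivity)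
    (by nlinarith [Real.pi_pos])
  positivity

lemma sf_pos {M : ℝ} {n : ℕ} (h : (n : ℝ) < M) : 0 < sf M n := by
  unfold sf
  apply prod_pos
  intro j hj
  rw [mem_range] at hj
  have h1 : ((j + 1 : ℕ) : ℝ) ≤ n := by exact_mod_cast hj
  have hM : 0 < M := lt_of_le_of_lt (Nat.cast_nonneg n) h
  apply sb_pos
  · positivity
  · rw [div_lt_one hM]; linarith

/-- the nodes -/
noncomputable def lamR (M : ℝ) (k : ℕ) : ℝ := 2 * Real.cos (Real.pi * ((2 * k + 1) / M))

noncomputable def lam (M : ℝ) (k : ℕ) : ℂ := (lamR M k : ℝ)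

/-- the entries below the diagonal -/
noncomputable def bb (M : ℝ) (k : ℕ) : ℂ := ((-(sb (k / M)) ^ 2 : ℝ) : ℂ)

/-- the eigenvalues -/
noncomputable def mu (M : ℝ) (k : ℕ) : ℂ := (-1) ^ k * ex (k * (k + 1) / M)

/-- the entries of the matrix of the half twist -/
noncomputable def Ae (M : ℝ) (a l : ℕ) : ℂ :=
  if l ≤ a then (-1) ^ a * ex (a * (l + 1) / M) * ((sf M a / (sf M l * sf M (a - l)) : ℝ) : ℂ)
  else 0

/-- the matrix of the half twist -/
noncomputable def AM (N : ℕ) (M : ℝ) : Matrix (Fin N) (Fin N) ℂ := fun a l => Ae M a l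

lemma lamR_sub (M : ℝ) (a l : ℕ) (h : l ≤ a) :
    lamR M a - lamR M l = - (sb ((a + l + 1 : ℕ) / M) * sb ((a - l : ℕ) / M)) := by
  unfold lamR sb
  have h1 := Real.cos_sub_cos (Real.pi * ((2 * a + 1) / M)) (Real.pi * ((2 * l + 1) / M))
  rw [← mul_sub, h1]
  have e1 : (Real.pi * ((2 * (a : ℝ) + 1) / M) + Real.pi * ((2 * (l : ℝ) + 1) / M)) / 2 =
      Real.pi * (((a + l + 1 : ℕ) : ℝ) / M) := by push_cast; ring
  have e2 : (Real.pi * ((2 * (a : ℝ) + 1) / M) - Real.pi * ((2 * (l : ℝ) + 1) / M)) / 2 =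
      Real.pi * (((a - l : ℕ) : ℝ) / M) := by push_cast [Nat.cast_sub h]; ring
  rw [e1, e2]; ring

lemma Ae_comm {M : ℝ} {a l : ℕ} (hl : l < a) (ha : (a : ℝ) < M) :
    Ae M a l * (lam M a - lam M l) = bb M (l + 1) * Ae M a (l + 1) - bb M a * Ae M (a - 1) l := by
  obtain ⟨d, rfl⟩ : ∃ d, a = l + 1 + d := ⟨a - (l + 1), by omega⟩
  have hM : 0 < M := lt_of_le_of_lt (Nat.cast_nonneg _) ha
  have s1 : sf M l ≠ 0 := (sf_pos (lt_of_le_of_lt (by exact_mod_cast (by omega :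
    l ≤ l + 1 + d)) ha)).ne'
  have s2 : sf M d ≠ 0 := (sf_pos (lt_of_le_of_lt (by exact_mod_cast (by omega :
    d ≤ l + 1 + d)) ha)).ne'
  have s3 : sb ((l + 1 : ℕ) / M) ≠ 0 := by
    apply (sb_pos _ _).ne'
    · positivity
    · rw [div_lt_one hM]
      exact lt_of_le_of_lt (by exact_mod_cast (by omega : l + 1 ≤ l + 1 + d)) ha
  have s4 : sb ((d + 1 : ℕ) / M) ≠ 0 := by
    apply (sb_pos _ _).ne'
    · positivity
    · rw [div_lt_one hM]
      exact lt_of_le_of_lt (by exact_mod_cast (by omega : d + 1 ≤ l + 1 + d)) ha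
  have hlam : lam M (l + 1 + d) - lam M l =
      ((-(sb ((l + 1 + d + l + 1 : ℕ) / M) * sb ((d + 1 : ℕ) / M)) : ℝ) : ℂ) := by
    unfold lam
    rw [← Complex.ofReal_sub, lamR_sub M _ _ (by omega)]
    rw [show l + 1 + d - l = d + 1 by omega]
  have hA1 : Ae M (l + 1 + d) l = (-1) ^ (l + 1 + d) * ex ((l + 1 + d : ℕ) * (l + 1) / M) *
      ((sf M (l + 1 + d) / (sf M l * sf M (d + 1)) : ℝ) : ℂ) := by
    unfold Ae; rw [if_pos (by omega), show l + 1 + d - l = d + 1 by omega]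
  have hA2 : Ae M (l + 1 + d) (l + 1) = (-1) ^ (l + 1 + d) *
      ex ((l + 1 + d : ℕ) * ((l + 1 : ℕ) + 1) / M) *
      ((sf M (l + 1 + d) / (sf M (l + 1) * sf M d) : ℝ) : ℂ) := by
    unfold Ae; rw [if_pos (by omega), show l + 1 + d - (l + 1) = d by omega]
  have hA3 : Ae M (l + 1 + d - 1) l = (-1) ^ (l + d) *
      ex ((l + d : ℕ) * (l + 1) / M) * ((sf M (l + d) / (sf M l * sf M d) : ℝ) : ℂ) := by
    unfold Ae; rw [show l + 1 + d - 1 = l + d by omega, if_pos (by omega),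
      show l + d - l = d by omega]
  have hsf : sf M (l + 1 + d) = sf M (l + d) * sb ((l + 1 + d : ℕ) / M) := by
    rw [show l + 1 + d = (l + d) + 1 by omega, sf_succ]
  have hadd := sb_add (((l + 1 + d : ℕ) : ℝ) / M) (((l + 1 : ℕ) : ℝ) / M)
  have e1 : (((l + 1 + d : ℕ) : ℝ) / M) + (((l + 1 : ℕ) : ℝ) / M) =
      ((l + 1 + d + l + 1 : ℕ) : ℝ) / M := by push_cast; ring
  rw [e1] at hadd
  have e2 : ex (((l + 1 + d : ℕ) : ℝ) * (((l + 1 : ℕ) : ℝ) + 1) / M) =
      ex (((l + 1 + d : ℕ) : ℝ) * (l + 1) / M) * ex (((l + 1 + d : ℕ) : ℝ) / M) := by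
    rw [← ex_add]; congr 1; push_cast; ring
  have e3 : ex (((l + d : ℕ) : ℝ) * (l + 1) / M) =
      ex (((l + 1 + d : ℕ) : ℝ) * (l + 1) / M) * ex (-(((l + 1 : ℕ) : ℝ) / M)) := by
    rw [← ex_add]; congr 1; push_cast; ring
  rw [hlam, hA1, hA2, hA3, e2, e3, hsf, sf_succ, sf_succ]
  unfold bb
  have p1 : ((-1 : ℂ)) ^ (l + 1 + d) = - (-1) ^ (l + d) := by
    rw [show l + 1 + d = (l + d) + 1 by omega, pow_succ]; ring
  rw [p1]
  have c1 : ((sf M l : ℝ) : ℂ) ≠ 0 := Complex.ofReal_ne_zero.mpr s1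
  have c2 : ((sf M d : ℝ) : ℂ) ≠ 0 := Complex.ofReal_ne_zero.mpr s2
  have c3 : ((sb ((l + 1 : ℕ) / M) : ℝ) : ℂ) ≠ 0 := Complex.ofReal_ne_zero.mpr s3
  have c4 : ((sb ((d + 1 : ℕ) / M) : ℝ) : ℂ) ≠ 0 := Complex.ofReal_ne_zero.mpr s4
  simp only [Complex.ofReal_neg, Complex.ofReal_mul, Complex.ofReal_div, Complex.ofReal_pow]
  field_simp
  linear_combination (ex (((l + 1 + d : ℕ) : ℝ) * (l + 1) / M) * (sf M (l + d) : ℂ) *
    (sb (((l + 1 + d : ℕ) : ℝ) / M) : ℂ)) * hadd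

lemma Ae_zero {M : ℝ} {a l : ℕ} (h : a < l) : Ae M a l = 0 := by
  unfold Ae; rw [if_neg (by omega)]

lemma Ae_diag {M : ℝ} {a : ℕ} (ha : (a : ℝ) < M) : Ae M a a = mu M a := by
  unfold Ae mu
  have := (sf_pos ha).ne'
  rw [if_pos le_rfl, Nat.sub_self, sf_zero, mul_one, div_self this]
  simp

lemma AM_LT {N : ℕ} {M : ℝ} (h : (N : ℝ) < M + 1) : LT (AM N M) (mu M) := by
  constructor
  · intro a l hal
    exact Ae_zero hal
  · intro a
    apply Ae_diag
    have : ((a : ℕ) : ℝ) + 1 ≤ N := by exact_mod_cast a.2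
    linarith

lemma AM_comm {N : ℕ} {M : ℝ} (h : (N : ℝ) < M + 1) :
    AM N M * Bm N (lam M) (bb M) = Bm N (lam M) (bb M) * AM N M := by
  ext a l
  rw [mul_Bm, Bm_mul]
  have ha : ((a : ℕ) : ℝ) < M := by
    have : ((a : ℕ) : ℝ) + 1 ≤ N := by exact_mod_cast a.2
    linarith
  rcases lt_or_ge (l : ℕ) a with h1 | h1
  · have h2 := Ae_comm (M := M) h1 ha
    rw [dif_pos (show (l : ℕ) + 1 < N by have := a.2; omega), dif_pos (show 0 < (a : ℕ) by omega)]
    show Ae M a l * lam M l + Ae M a (l + 1) * bb M (l + 1) =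
      lam M a * Ae M a l + bb M a * Ae M (a - 1) l
    linear_combination -h2
  · have e1 : (if h : (l : ℕ) + 1 < N then AM N M a ⟨l + 1, h⟩ * bb M (l + 1) else 0) = 0 := by
      split_ifs with h2
      · have : AM N M a ⟨l + 1, h2⟩ = 0 := Ae_zero (by simp only; omega)
        rw [this, zero_mul]
      · rfl
    have e2 : (if h : 0 < (a : ℕ) then bb M a * AM N M ⟨a - 1, by omega⟩ l else 0) = 0 := by
      split_ifs with h2
      · have : AM N M ⟨a - 1, by omega⟩ l = 0 := Ae_zero (by simp only; omega)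
        rw [this, mul_zero]
      · rfl
    rw [e1, e2, add_zero, add_zero]
    rcases Nat.eq_or_lt_of_le h1 with h3 | h3
    · have : a = l := Fin.ext h3
      rw [this]; ring
    · have : AM N M a l = 0 := Ae_zero h3
      rw [this]; ring

lemma lam_ne {N : ℕ} {M : ℝ} (h : (N : ℝ) < M + 1) (hM : ∀ n : ℕ, M ≠ n) (a l : ℕ) (hl : l < a)
    (ha : a < N) : lam M a ≠ lam M l := by
  have ha' : (a : ℝ) < M := by
    have : (a : ℝ) + 1 ≤ N := by exact_mod_cast ha
    linarith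
  have hM0 : 0 < M := lt_of_le_of_lt (Nat.cast_nonneg _) ha'
  intro h1
  have h2 : lamR M a - lamR M l = 0 := by
    unfold lam at h1
    have := Complex.ofReal_injective h1
    linarith
  rw [lamR_sub M a l hl.le, neg_eq_zero, mul_eq_zero] at h2
  rcases h2 with h2 | h2
  · unfold sb at h2
    have h3 : Real.sin (Real.pi * (((a + l + 1 : ℕ) : ℝ) / M)) = 0 := by linarith
    rw [Real.sin_eq_zero_iff] at h3
    obtain ⟨n, hn⟩ := h3
    have h4 : ((a + l + 1 : ℕ) : ℝ) = n * M := by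
      have : (n : ℝ) * Real.pi = Real.pi * (((a + l + 1 : ℕ) : ℝ) / M) := hn
      have h5 : (n : ℝ) = ((a + l + 1 : ℕ) : ℝ) / M := by
        have := mul_right_cancel₀ Real.pi_ne_zero (this.trans (mul_comm _ _))
        exact this
      rw [h5]; field_simp
    have h6 : ((a + l + 1 : ℕ) : ℝ) < 2 * M := by
      push_cast
      have : (l : ℝ) + 1 ≤ a := by exact_mod_cast hl
      linarith
    have h7 : (0 : ℝ) < ((a + l + 1 : ℕ) : ℝ) := by positivity
    have h8 : n = 1 := by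
      have h9 : (0 : ℝ) < n := by
        by_contra hcon
        push Not at hcon
        nlinarith only [ha', hcon, h7, h4]
      have h10 : (n : ℝ) < 2 := by
        by_contra hcon
        push Not at hcon
        nlinarith only [ha', hcon, h6, h4]
      have h11 : (0 : ℤ) < n := by exact_mod_cast h9
      have h12 : n < (2 : ℤ) := by exact_mod_cast h10
      omega
    rw [h8] at h4
    apply hM (a + l + 1)
    rw [h4]; push_cast; ring
  · have : 0 < sb (((a - l : ℕ) : ℝ) / M) := by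
      apply sb_pos
      · have : (0 : ℝ) < ((a - l : ℕ) : ℝ) := by exact_mod_cast (by omega : 0 < a - l)
        positivity
      · rw [div_lt_one hM0]
        exact lt_of_le_of_lt (by exact_mod_cast Nat.sub_le _ _) ha'
    linarith

/-- powers of the matrix of the half twist, `M` not an integer -/
theorem AM_pow_entry {N : ℕ} {M : ℝ} (h : (N : ℝ) < M + 1) (hM : ∀ n : ℕ, M ≠ n) (r n l : ℕ)
    (hln : l + n < N) : (AM N M ^ r) ⟨l + n, hln⟩ ⟨l, by omega⟩ =
      (∏ k ∈ Ico (l + 1) (l + n + 1), bb M k) * dd (fun k => mu M k ^ r) (lam M) l n := by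
  apply entry_eq_dd (lam M) (bb M) (lam_ne h hM) ((AM_LT h).pow r)
  have h1 : Commute (AM N M) (Bm N (lam M) (bb M)) := AM_comm h
  exact h1.pow_left r

end Pool.Agent.Helper9.TB
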