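import Pool.Agent.MBase

/-!
# Real functions for the saddle point analysis of `A ^ r`

Only definitions.
-/

namespace Pool.Agent.Helper9.TB

open Real

/-- `ee h u = log |2 cos π (u - i h)|`. -/
noncomputable def ee (h u : ℝ) : ℝ :=
  Real.log (2 * (Real.cosh (2 * π * h) + Real.cos (2 * π * u))) / 2

/-- `ll t = ∫_0^t log (2 sin π x) dx` (so `π * ll t = - Λ (π t)`, `Λ` = Lobachevsky). -/
noncomputable def ll (t : ℝ) : ℝ := ∫ x in (0 : ℝ)..t, Real.log (2 * Real.sin (π * x))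

/-- Integral of `ee h` over the window `[ξ - τ, ξ + τ]`. -/
noncomputable def win (h ξ τ : ℝ) : ℝ := ∫ u in (ξ - τ)..(ξ + τ), ee h u

/-- The exponent on the line `Im y = -h`. -/
noncomputable def KK (ρ c h ξ τ : ℝ) : ℝ := 2 * π * ρ * (ξ - c) * h - 2 * ll τ + win h ξ τ

/-- `2 cos 2πτ` at the critical `τ`. -/
noncomputable def kap (h ξ : ℝ) : ℝ :=
  (2 - Real.cos (2 * π * ξ) ^ 2 - Real.cosh (2 * π * h) ^ 2) /
    (1 + Real.cos (2 * π * ξ) * Real.cosh (2 * π * h))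

/-- The critical `τ` for given `h`, `ξ`. -/
noncomputable def x0 (h ξ : ℝ) : ℝ := Real.arccos (kap h ξ / 2) / (2 * π)

/-- `cosh (ee h (ξ - x0) - ee h (ξ + x0))`. -/
noncomputable def WW (h ξ : ℝ) : ℝ :=
  (2 + Real.cos (2 * π * ξ) * Real.cosh (2 * π * h) - Real.cos (2 * π * ξ) ^ 2) /
    (Real.cosh (2 * π * h) + Real.cos (2 * π * ξ))

/-- The saddle conditions. -/
structure Saddle (ρ c h ξ : ℝ) : Prop where
  hpos : 0 < h
  xpos : 0 < ξ
  xlt : ξ < c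
  small : Real.cosh (2 * π * ρ * h) * Real.cosh (2 * π * h) < 2
  s1 : Real.cosh (2 * π * ρ * h) = WW h ξ
  s2 : 2 * π * ρ * (c - ξ) =
    ∫ u in (ξ - x0 h ξ)..(ξ + x0 h ξ),
      π * Real.sinh (2 * π * h) / (Real.cosh (2 * π * h) + Real.cos (2 * π * u))

/-- `2 log (2 sin π x) - log |2 cos π (ξ + x - i h)| - log |2 cos π (ξ - x - i h)|` -/
noncomputable def ff (h ξ x : ℝ) : ℝ :=
  2 * Real.log (2 * Real.sin (π * x)) - ee h (ξ + x) - ee h (ξ - x)

/-- the exponent for the entry `(l + n, l)`, with `β = l / N`, `α = (l + n + 1) / N` -/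
noncomputable def Kf (r : ℕ) (h ξ β α : ℝ) : ℝ :=
  2 * π * r * ξ * h + ∫ x in β..α, ff h ξ x

end Pool.Agent.Helper9.TB
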