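import Pool.Agent.MBase

/-!
# The angle structure volume functional for the two-bridge link `C(r, r)`

Only definitions.  The canonical ideal triangulation of the complement of the two-bridge
link `C(r, r)` (word `R^(r-1) L^(r-1)`) has the layers `i = 2, …, 2 r - 2`, with two
ideal tetrahedra in each layer.  Pleating angles `w 1 = π, w 2, …, w (2 r - 1) = π`;
the dihedral angles of the two tetrahedra of the layer `i` are `gx, gy, gz`.
The layer `i = r` is the hinge.
-/

namespace Pool.Agent.Helper9.TB

open Real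

/-- The Lobachevsky function. -/
noncomputable def Lob (t : ℝ) : ℝ := -∫ x in (0 : ℝ)..t, Real.log |2 * Real.sin x|

/-- First dihedral angle of the layer `i`. -/
noncomputable def gx (r : ℕ) (w : ℕ → ℝ) (i : ℕ) : ℝ :=
  if i = r then (w i + w (i - 1) - w (i + 1)) / 2 else (w (i - 1) + w (i + 1)) / 2

/-- Second dihedral angle of the layer `i`. -/
noncomputable def gy (r : ℕ) (w : ℕ → ℝ) (i : ℕ) : ℝ := w i - gx r w i

/-- Third dihedral angle of the layer `i`. -/
noncomputable def gz (w : ℕ → ℝ) (i : ℕ) : ℝ := π - w i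

/-- Nonnegative angle assignments. -/
structure Adm (r : ℕ) (w : ℕ → ℝ) : Prop where
  first : w 1 = π
  last : w (2 * r - 1) = π
  nonneg : ∀ i, 2 ≤ i → i ≤ 2 * r - 2 → 0 ≤ gx r w i ∧ 0 ≤ gy r w i ∧ 0 ≤ gz w i

/-- The volume functional: the sum of the volumes of the ideal tetrahedra with the
given dihedral angles. -/
noncomputable def gvol (r : ℕ) (w : ℕ → ℝ) : ℝ :=
  ∑ i ∈ Finset.Icc 2 (2 * r - 2), 2 * (Lob (gx r w i) + Lob (gy r w i) + Lob (gz w i))

end Pool.Agent.Helper9.TB
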