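import Pool.Agent.Helper9.TB.Cot

/-!
# Contour integrals over a rectangle
-/

namespace Pool.Agent.Helper9.TB

open Complex MeasureTheory intervalIntegral Set

/-- integral over a horizontal segment -/
noncomputable def hor (f : ℂ → ℂ) (a b η : ℝ) : ℂ := ∫ x in a..b, f (x + η * I)

/-- integral over a vertical segment -/
noncomputable def ver (f : ℂ → ℂ) (x a b : ℝ) : ℂ := ∫ y in a..b, f (x + y * I)

/-- integral over the lower path from `-1/2` to `1/2` -/
noncomputable def PI (f : ℂ → ℂ) (h : ℝ) : ℂ :=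
  -(I * ver f (-1 / 2) (-h) 0) + hor f (-1 / 2) (1 / 2) (-h) + I * ver f (1 / 2) (-h) 0

/-- integral over the boundary of the rectangle -/
noncomputable def LI (f : ℂ → ℂ) (h : ℝ) : ℂ :=
  hor f (-1 / 2) (1 / 2) (-h) - hor f (-1 / 2) (1 / 2) h + I * ver f (1 / 2) (-h) h -
    I * ver f (-1 / 2) (-h) h

/-- boundary of the rectangle -/
def RB (h : ℝ) : Set ℂ := {y | (|y.re| ≤ 1 / 2 ∧ |y.im| = h) ∨ (|y.re| = 1 / 2 ∧ |y.im| ≤ h)}

/-- the lower path -/
def PS (h : ℝ) : Set ℂ :=
  {y | (|y.re| ≤ 1 / 2 ∧ y.im = -h) ∨ (|y.re| = 1 / 2 ∧ -h ≤ y.im ∧ y.im ≤ 0)}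

lemma re_pt (x y : ℝ) : ((x : ℂ) + y * I).re = x := by simp

lemma im_pt (x y : ℝ) : ((x : ℂ) + y * I).im = y := by simp

lemma hor_cont {f : ℂ → ℂ} {S : Set ℂ} (hf : ContinuousOn f S) {a b η : ℝ}
    (hS : ∀ x ∈ uIcc a b, ((x : ℂ) + η * I) ∈ S) :
    ContinuousOn (fun x : ℝ => f (x + η * I)) (uIcc a b) := by
  apply hf.comp (by fun_prop)
  intro x hx
  exact hS x hx

lemma ver_cont {f : ℂ → ℂ} {S : Set ℂ} (hf : ContinuousOn f S) {a b x : ℝ}
    (hS : ∀ y ∈ uIcc a b, ((x : ℂ) + y * I) ∈ S) :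
    ContinuousOn (fun y : ℝ => f (x + y * I)) (uIcc a b) := by
  apply hf.comp (by fun_prop)
  intro y hy
  exact hS y hy

lemma mem_PS_hor {h : ℝ} : ∀ x ∈ uIcc (-1 / 2 : ℝ) (1 / 2), ((x : ℂ) + (-h : ℝ) * I) ∈ PS h := by
  intro x hx
  rw [uIcc_of_le (by norm_num)] at hx
  left
  rw [re_pt, im_pt, abs_le]
  exact ⟨⟨by linarith only [hx.1, hx], hx.2⟩, rfl⟩

lemma mem_PS_ver {h : ℝ} (hh : 0 ≤ h) {x : ℝ} (hx : |x| = 1 / 2) :
    ∀ y ∈ uIcc (-h) (0 : ℝ), ((x : ℂ) + y * I) ∈ PS h := by
  intro y hy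
  rw [uIcc_of_le (by linarith only [hh])] at hy
  right
  rw [re_pt, im_pt]
  exact ⟨hx, hy.1, hy.2⟩

lemma mem_RB_hor {h : ℝ} {η : ℝ} (hη : |η| = h) :
    ∀ x ∈ uIcc (-1 / 2 : ℝ) (1 / 2), ((x : ℂ) + η * I) ∈ RB h := by
  intro x hx
  rw [uIcc_of_le (by norm_num)] at hx
  left
  rw [re_pt, im_pt, abs_le]
  exact ⟨⟨by linarith only [hx.1, hx], hx.2⟩, hη⟩

lemma mem_RB_ver {h : ℝ} {a b : ℝ} (ha : |a| ≤ h) (hb : |b| ≤ h) {x : ℝ} (hx : |x| = 1 / 2) :
    ∀ y ∈ uIcc a b, ((x : ℂ) + y * I) ∈ RB h := by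
  intro y hy
  right
  rw [re_pt, im_pt]
  refine ⟨hx, ?_⟩
  rw [mem_uIcc] at hy
  rw [abs_le] at *
  rcases hy with hy | hy <;> constructor <;> linarith only [hy.1, hy.2, hy, ha, hb]

lemma ab1 : |(-1 / 2 : ℝ)| = 1 / 2 := by rw [abs_of_neg] <;> norm_num
lemma ab2 : |(1 / 2 : ℝ)| = 1 / 2 := abs_of_pos (by norm_num)

lemma PI_add {f g : ℂ → ℂ} {h : ℝ} (hh : 0 ≤ h) (hf : ContinuousOn f (PS h))
    (hg : ContinuousOn g (PS h)) : PI (fun y => f y + g y) h = PI f h + PI g h := by
  unfold PI hor ver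
  rw [integral_add (hor_cont hf mem_PS_hor).intervalIntegrable
    (hor_cont hg mem_PS_hor).intervalIntegrable,
    integral_add (ver_cont hf (mem_PS_ver hh ab1)).intervalIntegrable
    (ver_cont hg (mem_PS_ver hh ab1)).intervalIntegrable,
    integral_add (ver_cont hf (mem_PS_ver hh ab2)).intervalIntegrable
    (ver_cont hg (mem_PS_ver hh ab2)).intervalIntegrable]
  ring

lemma PI_mul {f : ℂ → ℂ} {h : ℝ} (c : ℂ) : PI (fun y => c * f y) h = c * PI f h := by
  unfold PI hor ver
  simp only [intervalIntegral.integral_const_mul]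
  ring

lemma PI_congr {f g : ℂ → ℂ} {h : ℝ} (hh : 0 ≤ h) (hfg : ∀ y ∈ PS h, f y = g y) :
    PI f h = PI g h := by
  unfold PI hor ver
  rw [integral_congr (fun x hx => hfg _ (mem_PS_hor x hx)),
    integral_congr (fun x hx => hfg _ (mem_PS_ver hh ab1 x hx)),
    integral_congr (fun x hx => hfg _ (mem_PS_ver hh ab2 x hx))]

lemma LI_add {f g : ℂ → ℂ} {h : ℝ} (hh : 0 ≤ h) (hf : ContinuousOn f (RB h))
    (hg : ContinuousOn g (RB h)) : LI (fun y => f y + g y) h = LI f h + LI g h := by
  have h1 : |(-h)| ≤ h := by rw [abs_neg, abs_of_nonneg hh]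
  have h2 : |h| ≤ h := by rw [abs_of_nonneg hh]
  have h3 : |(-h)| = h := by rw [abs_neg, abs_of_nonneg hh]
  have h4 : |h| = h := abs_of_nonneg hh
  unfold LI hor ver
  rw [integral_add (hor_cont hf (mem_RB_hor h3)).intervalIntegrable
    (hor_cont hg (mem_RB_hor h3)).intervalIntegrable,
    integral_add (hor_cont hf (mem_RB_hor h4)).intervalIntegrable
    (hor_cont hg (mem_RB_hor h4)).intervalIntegrable,
    integral_add (ver_cont hf (mem_RB_ver h1 h2 ab1)).intervalIntegrable
    (ver_cont hg (mem_RB_ver h1 h2 ab1)).intervalIntegrable,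
    integral_add (ver_cont hf (mem_RB_ver h1 h2 ab2)).intervalIntegrable
    (ver_cont hg (mem_RB_ver h1 h2 ab2)).intervalIntegrable]
  ring

lemma LI_mul {f : ℂ → ℂ} {h : ℝ} (c : ℂ) : LI (fun y => c * f y) h = c * LI f h := by
  unfold LI hor ver
  simp only [intervalIntegral.integral_const_mul]
  ring

lemma LI_congr {f g : ℂ → ℂ} {h : ℝ} (hh : 0 ≤ h) (hfg : ∀ y ∈ RB h, f y = g y) :
    LI f h = LI g h := by
  have h1 : |(-h)| ≤ h := by rw [abs_neg, abs_of_nonneg hh]
  have h2 : |h| ≤ h := by rw [abs_of_nonneg hh]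
  have h3 : |(-h)| = h := by rw [abs_neg, abs_of_nonneg hh]
  have h4 : |h| = h := abs_of_nonneg hh
  unfold LI hor ver
  rw [integral_congr (fun x hx => hfg _ (mem_RB_hor h3 x hx)),
    integral_congr (fun x hx => hfg _ (mem_RB_hor h4 x hx)),
    integral_congr (fun x hx => hfg _ (mem_RB_ver h1 h2 ab1 x hx)),
    integral_congr (fun x hx => hfg _ (mem_RB_ver h1 h2 ab2 x hx))]

/-- the closed rectangle -/
def RC (h : ℝ) : Set ℂ := {y | |y.re| ≤ 1 / 2 ∧ |y.im| ≤ h}

lemma LI_zero {f : ℂ → ℂ} {h : ℝ} (hh : 0 ≤ h) (hf : DifferentiableOn ℂ f (RC h)) :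
    LI f h = 0 := by
  have h1 := integral_boundary_rect_eq_zero_of_differentiableOn f
    (((-1 / 2 : ℝ) : ℂ) + ((-h : ℝ) : ℂ) * I) (((1 / 2 : ℝ) : ℂ) + (h : ℂ) * I) (by
      apply hf.mono
      rw [re_pt, re_pt, im_pt, im_pt, uIcc_of_le (by norm_num), uIcc_of_le (by linarith)]
      intro y hy
      rw [mem_reProdIm] at hy
      constructor
      · rw [abs_le]; exact ⟨by linarith only [hy.1.1, hy], hy.1.2⟩
      · rw [abs_le]; exact ⟨hy.2.1, hy.2.2⟩)
  rw [re_pt, re_pt, im_pt, im_pt] at h1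
  unfold LI hor ver
  simpa only [smul_eq_mul] using h1

lemma LI_pc {h : ℝ} (hh : 0 < h) (y0 : ℝ) :
    LI (fun y => pc (y - y0)) h = 2 * Real.pi * I := by
  have e1 : hor (fun y => pc (y - y0)) (-1 / 2) (1 / 2) (-h) = Real.pi * I := by
    unfold hor
    have h1 := pc_int hh (-1 / 2 - y0)
    have h2 := intervalIntegral.integral_comp_sub_right (a := -1 / 2) (b := 1 / 2)
      (fun x : ℝ => pc (x - h * I)) y0
    rw [show (-1 / 2 - y0 + 1 : ℝ) = 1 / 2 - y0 by ring] at h1
    rw [h1] at h2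
    rw [← h2]
    apply intervalIntegral.integral_congr
    intro x _
    simp only
    congr 1; push_cast; ring
  have e2 : hor (fun y => pc (y - y0)) (-1 / 2) (1 / 2) h = -(Real.pi * I) := by
    unfold hor
    have h1 := pc_int' hh (-1 / 2 - y0)
    have h2 := intervalIntegral.integral_comp_sub_right (a := -1 / 2) (b := 1 / 2)
      (fun x : ℝ => pc (x + h * I)) y0
    rw [show (-1 / 2 - y0 + 1 : ℝ) = 1 / 2 - y0 by ring] at h1
    rw [h1] at h2
    rw [← h2]
    apply intervalIntegral.integral_congr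
    intro x _
    simp only
    congr 1; push_cast; ring
  have e3 : ver (fun y => pc (y - y0)) (1 / 2) (-h) h =
      ver (fun y => pc (y - y0)) (-1 / 2) (-h) h := by
    unfold ver
    apply intervalIntegral.integral_congr
    intro y _
    simp only
    rw [← pc_add_one (((-1 / 2 : ℝ) : ℂ) + y * I - y0)]
    congr 1; push_cast; ring
  unfold LI
  rw [e1, e2, e3]; ring

/-- the entire function `sin (π z) / z` -/
noncomputable def sl (z : ℂ) : ℂ := dslope (fun z => Complex.sin (Real.pi * z)) 0 z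

lemma sl_mul (z : ℂ) : z * sl z = Complex.sin (Real.pi * z) := by
  unfold sl
  have := sub_smul_dslope (fun z => Complex.sin (Real.pi * z)) 0 z
  simp only [sub_zero, smul_eq_mul, mul_zero, Complex.sin_zero] at this
  exact this

lemma sl_diff : Differentiable ℂ sl := by
  have h : Differentiable ℂ (fun z : ℂ => Complex.sin (Real.pi * z)) := by fun_prop
  have := (Complex.differentiableOn_dslope (s := Set.univ) (c := 0)
    (f := fun z : ℂ => Complex.sin (Real.pi * z)) Filter.univ_mem).mpr h.differentiableOn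
  exact differentiableOn_univ.mp this

lemma sl_ne {z : ℂ} (h : z.im ≠ 0 ∨ |z.re| < 1) : sl z ≠ 0 := by
  by_cases hz : z = 0
  · subst hz
    unfold sl
    rw [dslope_same]
    have : HasDerivAt (fun z : ℂ => Complex.sin (Real.pi * z)) (Real.pi : ℂ) 0 := by
      have h1 := ((hasDerivAt_id (0 : ℂ)).const_mul (Real.pi : ℂ)).csin
      simpa using h1
    rw [this.deriv]
    exact_mod_cast Real.pi_ne_zero
  · intro h0
    have h1 := sl_mul z
    rw [h0, mul_zero] at h1
    refine sin_pi_ne ?_ h1.symm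
    rcases h with h | h
    · exact Or.inl h
    · by_cases hi : z.im = 0
      · right
        intro n hn
        rw [hn] at h
        have h2 : |n| < 1 := by exact_mod_cast h
        have h3 : n = 0 := by rwa [Int.abs_lt_one_iff] at h2
        apply hz
        apply Complex.ext
        · rw [hn, h3]; simp
        · exact hi
      · exact Or.inl hi

lemma LI_F {F : ℂ → ℂ} (hF : Differentiable ℂ F) {h : ℝ} (hh : 0 < h) {y0 : ℝ}
    (hy : |y0| < 1 / 2) : LI (fun y => F y * pc (y - y0)) h = 2 * Real.pi * I * F y0 := by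
  set G : ℂ → ℂ := fun y => dslope F y0 y * (Real.pi * Complex.cos (Real.pi * (y - y0)) /
    sl (y - y0)) with hG
  have hds : Differentiable ℂ (dslope F y0) := by
    have := (Complex.differentiableOn_dslope (s := Set.univ) (c := (y0 : ℂ))
      (f := F) Filter.univ_mem).mpr hF.differentiableOn
    exact differentiableOn_univ.mp this
  have hre : ∀ y ∈ RC h, |(y - y0 : ℂ).re| < 1 := by
    intro y hy'
    rw [Complex.sub_re, Complex.ofReal_re]
    have := abs_sub y.re y0
    have h1 := hy'.1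
    have h2 := abs_sub_abs_le_abs_sub y.re y0
    calc |y.re - y0| ≤ |y.re| + |y0| := abs_sub _ _
      _ < 1 := by linarith only [h1, hy]
  have hGd : DifferentiableOn ℂ G (RC h) := by
    intro y hy'
    have hne : sl (y - y0) ≠ 0 := sl_ne (Or.inr (hre y hy'))
    apply DifferentiableAt.differentiableWithinAt
    apply DifferentiableAt.mul (hds y)
    apply DifferentiableAt.div
    · fun_prop
    · exact (sl_diff _).comp y (by fun_prop)
    · exact hne
  have hsub : RB h ⊆ RC h := by
    intro y hy'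
    rcases hy' with h1 | h1
    · exact ⟨h1.1, h1.2.le⟩
    · exact ⟨h1.1.le, h1.2⟩
  have hne0 : ∀ y ∈ RB h, y - y0 ≠ 0 := by
    intro y hy' h0
    have h1 : y = y0 := by linear_combination h0
    rw [h1] at hy'
    rcases hy' with h2 | h2
    · have := h2.2
      simp at this
      linarith only [this, hh]
    · have := h2.1
      simp only [Complex.ofReal_re] at this
      linarith only [this, hy]
  have hpcont : ContinuousOn (fun y : ℂ => pc (y - y0)) (RB h) := by
    intro y hy'
    have hne : Complex.sin (Real.pi * (y - y0)) ≠ 0 := by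
      rw [← sl_mul]
      exact mul_ne_zero (hne0 y hy') (sl_ne (Or.inr (hre y (hsub hy'))))
    apply ContinuousAt.continuousWithinAt
    unfold pc
    fun_prop (disch := assumption)
  have h1 : LI (fun y => F y * pc (y - y0)) h =
      LI (fun y => G y + F y0 * pc (y - y0)) h := by
    apply LI_congr hh.le
    intro y hy'
    have h2 := hne0 y hy'
    have h3 : sl (y - y0) ≠ 0 := sl_ne (Or.inr (hre y (hsub hy')))
    have h4 := sub_smul_dslope F y0 y
    rw [smul_eq_mul] at h4
    simp only [hG]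
    unfold pc
    rw [← sl_mul]
    have h5 : F y = (y - y0) * dslope F y0 y + F y0 := by rw [h4]; ring
    rw [h5]
    field_simp
  have hc2 : ContinuousOn (fun y : ℂ => F y0 * pc (y - y0)) (RB h) :=
    continuousOn_const.mul hpcont
  rw [h1, LI_add hh.le (hGd.continuousOn.mono hsub) hc2, LI_zero hh.le hGd, LI_mul, LI_pc hh]
  ring

/-- the lower path integral of an even function times the logarithmic derivative -/
lemma PI_base {F : ℂ → ℂ} (hF : Differentiable ℂ F) (hev : ∀ y, F (-y) = F y) {h : ℝ}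
    (hh : 0 < h) {y0 : ℝ} (hy : |y0| < 1 / 2) :
    PI (fun y => F y * (pc (y - y0) + pc (y + y0))) h = 2 * Real.pi * I * F y0 := by
  rw [← LI_F hF hh hy]
  set f1 : ℂ → ℂ := fun y => F y * pc (y - y0) with hf1
  have hcont : ∀ t : ℝ, |t| < 1 / 2 → ContinuousOn (fun y : ℂ => F y * pc (y - t)) (RB h) := by
    intro t ht y hy'
    have hne : Complex.sin (Real.pi * (y - t)) ≠ 0 := by
      apply sin_pi_ne
      rcases hy' with h1 | h1
      · left
        rw [Complex.sub_im, Complex.ofReal_im, sub_zero]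
        intro h0
        rw [h0, abs_zero] at h1
        linarith only [h1.2, h1, hh]
      · right
        intro n hn
        rw [Complex.sub_re, Complex.ofReal_re] at hn
        have h2 : |(n : ℝ)| < 1 := by
          rw [← hn]
          calc |y.re - t| ≤ |y.re| + |t| := abs_sub _ _
            _ < 1 := by linarith only [h1.1.le, h1, ht]
        have h3 : |n| < 1 := by exact_mod_cast h2
        have h4 : n = 0 := by rwa [Int.abs_lt_one_iff] at h3
        rw [h4] at hn
        have : y.re = t := by push_cast at hn; linarith only [hn]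
        rw [this] at h1
        linarith only [h1.1, h1, ht]
    apply ContinuousAt.continuousWithinAt
    unfold pc
    have := hF.continuous
    fun_prop (disch := assumption)
  have hPR : PS h ⊆ RB h := by
    intro y hy'
    rcases hy' with h1 | h1
    · left
      refine ⟨h1.1, ?_⟩
      rw [h1.2, abs_neg, abs_of_pos hh]
    · right
      refine ⟨h1.1, ?_⟩
      rw [abs_le]
      exact ⟨h1.2.1, by linarith [h1.2.2]⟩
  have c1 : ContinuousOn f1 (RB h) := hcont y0 hy
  have c2 : ContinuousOn (fun y : ℂ => F y * pc (y + y0)) (RB h) := by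
    have := hcont (-y0) (by rwa [abs_neg])
    simpa using this
  have hadd : PI (fun y => F y * (pc (y - y0) + pc (y + y0))) h =
      PI f1 h + PI (fun y => F y * pc (y + y0)) h := by
    rw [← PI_add hh.le (c1.mono hPR) (c2.mono hPR)]
    congr 1
    funext y
    simp only [hf1]; ring
  have hf2 : ∀ y : ℂ, F y * pc (y + y0) = - f1 (-y) := by
    intro y
    simp only [hf1]
    rw [hev, show -y - (y0 : ℂ) = -(y + y0) by ring, pc_neg]; ring
  have v1 : ver (fun y => F y * pc (y + y0)) (1 / 2) (-h) 0 = - ver f1 (-1 / 2) 0 h := by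
    unfold ver
    have h1 := intervalIntegral.integral_comp_neg (a := -h) (b := 0)
      (fun y : ℝ => f1 (((-1 / 2 : ℝ) : ℂ) + y * I))
    rw [neg_neg, neg_zero] at h1
    rw [← h1, ← intervalIntegral.integral_neg]
    apply intervalIntegral.integral_congr
    intro y _
    simp only
    rw [hf2]
    congr 2; push_cast; ring
  have v2 : ver (fun y => F y * pc (y + y0)) (-1 / 2) (-h) 0 = - ver f1 (1 / 2) 0 h := by
    unfold ver
    have h1 := intervalIntegral.integral_comp_neg (a := -h) (b := 0)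
      (fun y : ℝ => f1 (((1 / 2 : ℝ) : ℂ) + y * I))
    rw [neg_neg, neg_zero] at h1
    rw [← h1, ← intervalIntegral.integral_neg]
    apply intervalIntegral.integral_congr
    intro y _
    simp only
    rw [hf2]
    congr 2; push_cast; ring
  have v3 : hor (fun y => F y * pc (y + y0)) (-1 / 2) (1 / 2) (-h) =
      - hor f1 (-1 / 2) (1 / 2) h := by
    unfold hor
    have h1 := intervalIntegral.integral_comp_neg (a := -1 / 2) (b := 1 / 2)
      (fun x : ℝ => f1 (x + h * I))
    rw [show (-(1 / 2) : ℝ) = -1 / 2 by ring, show (-(-1 / 2) : ℝ) = 1 / 2 by ring] at h1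
    rw [← h1, ← intervalIntegral.integral_neg]
    apply intervalIntegral.integral_congr
    intro x _
    simp only
    rw [hf2]
    congr 2; push_cast; ring
  have hh1 : |(-h)| ≤ h := by rw [abs_neg, abs_of_pos hh]
  have hh2 : |h| ≤ h := by rw [abs_of_pos hh]
  have hh3 : |(0 : ℝ)| ≤ h := by rw [abs_zero]; exact hh.le
  have a1 : ver f1 (1 / 2) (-h) 0 + ver f1 (1 / 2) 0 h = ver f1 (1 / 2) (-h) h :=
    intervalIntegral.integral_add_adjacent_intervals
      (ver_cont c1 (mem_RB_ver hh1 hh3 ab2)).intervalIntegrable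
      (ver_cont c1 (mem_RB_ver hh3 hh2 ab2)).intervalIntegrable
  have a2 : ver f1 (-1 / 2) (-h) 0 + ver f1 (-1 / 2) 0 h = ver f1 (-1 / 2) (-h) h :=
    intervalIntegral.integral_add_adjacent_intervals
      (ver_cont c1 (mem_RB_ver hh1 hh3 ab1)).intervalIntegrable
      (ver_cont c1 (mem_RB_ver hh3 hh2 ab1)).intervalIntegrable
  rw [hadd]
  unfold PI LI
  rw [v1, v2, v3, ← a1, ← a2]
  ring

end Pool.Agent.Helper9.TB
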