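import Pool.Agent.Helper9.TB.Rep

/-!
# The limit to the root of unity of order `2 N`
-/

namespace Pool.Agent.Helper9.TB

open Complex MeasureTheory intervalIntegral Set Finset Filter Topology

lemma GG_contAt {N : ℕ} {h : ℝ} (hh : 0 < h) {r l n : ℕ} (hln : l + n < N) (q : ℝ × ℂ)
    (hM : (N : ℝ) - 1 / 2 < q.1) (hy : q.2 ∈ PS h) :
    ContinuousAt (fun q : ℝ × ℂ => GG r q.1 l n q.2) q := by
  have hM0 : q.1 ≠ 0 := by
    have : (1 : ℝ) ≤ N := by exact_mod_cast (by omega : 1 ≤ N)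
    have : 0 < q.1 := by linarith only [this, hM]
    exact this.ne'
  unfold GG KR
  apply ContinuousAt.mul
  · fun_prop
  · apply ContinuousAt.div
    · unfold dLy; fun_prop
    · apply tendsto_finsetProd
      intro k _
      apply ContinuousAt.tendsto
      unfold Ly lam lamR
      fun_prop (disch := assumption)
    · rw [prod_ne_zero_iff]
      intro k hk
      rw [Finset.mem_Ico] at hk
      exact Ly_ne hM (by omega) hh hy

lemma seg_contAt {N : ℕ} {h : ℝ} (hh : 0 < h) {r l n : ℕ} (hln : l + n < N) (p : ℝ → ℂ)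
    (hp : Continuous p) (a b : ℝ) (hab : ∀ t ∈ uIcc a b, p t ∈ PS h) :
    ContinuousAt (fun M : ℝ => ∫ t in a..b, GG r M l n (p t)) N := by
  have hjoint : ∀ q : ℝ × ℝ, (N : ℝ) - 1 / 2 < q.1 → q.2 ∈ uIcc a b →
      ContinuousAt (fun q : ℝ × ℝ => GG r q.1 l n (p q.2)) q := by
    intro q hq1 hq2
    have h1 := GG_contAt (r := r) hh hln (q.1, p q.2) hq1 (hab _ hq2)
    exact ContinuousAt.comp (f := fun q : ℝ × ℝ => (q.1, p q.2)) h1 (by fun_prop)
  have hcomp : IsCompact (Icc ((N : ℝ) - 1 / 4) (N + 1 / 4) ×ˢ uIcc a b) :=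
    isCompact_Icc.prod isCompact_uIcc
  have hco : ContinuousOn (fun q : ℝ × ℝ => GG r q.1 l n (p q.2))
      (Icc ((N : ℝ) - 1 / 4) (N + 1 / 4) ×ˢ uIcc a b) := by
    intro q hq
    exact (hjoint q (by linarith [hq.1.1]) hq.2).continuousWithinAt
  obtain ⟨C, hC⟩ := hcomp.exists_bound_of_continuousOn hco
  have hnear : ∀ᶠ M : ℝ in 𝓝 (N : ℝ), M ∈ Icc ((N : ℝ) - 1 / 4) (N + 1 / 4) :=
    Icc_mem_nhds (by linarith) (by linarith)
  apply continuousAt_of_dominated_interval (bound := fun _ => C)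
  · filter_upwards [hnear] with M hM
    apply ContinuousOn.aestronglyMeasurable _ measurableSet_uIoc
    intro t ht
    have h1 := hjoint (M, t) (by simp only; linarith [hM.1]) (uIoc_subset_uIcc ht)
    exact (ContinuousAt.comp (f := fun t : ℝ => ((M, t) : ℝ × ℝ)) h1
      (by fun_prop)).continuousWithinAt
  · filter_upwards [hnear] with M hM
    apply Filter.Eventually.of_forall
    intro t ht
    exact hC (M, t) ⟨hM, uIoc_subset_uIcc ht⟩
  · exact intervalIntegrable_const
  · apply Filter.Eventually.of_forall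
    intro t ht
    have h1 := hjoint ((N : ℝ), t) (by simp only; linarith) (uIoc_subset_uIcc ht)
    exact ContinuousAt.comp (f := fun M : ℝ => ((M, t) : ℝ × ℝ)) h1 (by fun_prop)

lemma PI_contAt {N : ℕ} {h : ℝ} (hh : 0 < h) {r l n : ℕ} (hln : l + n < N) :
    ContinuousAt (fun M : ℝ => PI (GG r M l n) h) N := by
  unfold PI hor ver
  have h1 := seg_contAt (r := r) hh hln (fun y : ℝ => ((-1 / 2 : ℝ) : ℂ) + y * I) (by fun_prop)
    (-h) 0 (mem_PS_ver hh.le ab1)
  have h2 := seg_contAt (r := r) hh hln (fun x : ℝ => (x : ℂ) + (-h : ℝ) * I) (by fun_prop)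
    (-1 / 2) (1 / 2) mem_PS_hor
  have h3 := seg_contAt (r := r) hh hln (fun y : ℝ => ((1 / 2 : ℝ) : ℂ) + y * I) (by fun_prop)
    (-h) 0 (mem_PS_ver hh.le ab2)
  exact ((continuousAt_const.mul h1).neg.add h2).add (continuousAt_const.mul h3)

lemma sf_contAt {M : ℝ} (hM : M ≠ 0) (n : ℕ) : ContinuousAt (fun M => sf M n) M := by
  unfold sf sb
  apply tendsto_finsetProd
  intro k _
  apply ContinuousAt.tendsto
  fun_prop (disch := assumption)

lemma AM_contAt {N : ℕ} (hN : 1 ≤ N) : ContinuousAt (fun M : ℝ => AM N M) N := by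
  have hN0 : (N : ℝ) ≠ 0 := by positivity
  refine continuousAt_pi.mpr (fun a => continuousAt_pi.mpr (fun l => ?_))
  unfold AM Ae
  by_cases h : (l : ℕ) ≤ a
  · simp only [if_pos h]
    have ha : ((a : ℕ) : ℝ) < N := by exact_mod_cast a.2
    have hl : ((l : ℕ) : ℝ) < N := by exact_mod_cast l.2
    have hal : (((a : ℕ) - (l : ℕ) : ℕ) : ℝ) < N :=
      lt_of_le_of_lt (by exact_mod_cast Nat.sub_le _ _) ha
    have hne : sf N l * sf N (a - l) ≠ 0 := mul_ne_zero (sf_pos hl).ne' (sf_pos hal).ne'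
    have c1 := sf_contAt hN0 (a : ℕ)
    have c2 := sf_contAt hN0 (l : ℕ)
    have c3 := sf_contAt hN0 ((a : ℕ) - l)
    have c4 : ContinuousAt (fun M : ℝ => sf M a / (sf M l * sf M (a - l))) N :=
      c1.div (c2.mul c3) hne
    apply ContinuousAt.mul
    · apply ContinuousAt.mul continuousAt_const
      apply ex_continuous.continuousAt.comp
      fun_prop (disch := assumption)
    · exact Complex.continuous_ofReal.continuousAt.comp c4
  · simp only [if_neg h]
    exact continuousAt_const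

lemma cM_contAt {M : ℝ} (hM : M ≠ 0) : ContinuousAt cM M := by
  unfold cM
  apply ex_continuous.continuousAt.comp
  fun_prop (disch := first | assumption | simpa using hM)

/-- the powers of the half twist at the root of unity as contour integrals -/
theorem AN_pow_PI {N : ℕ} {h : ℝ} (hh : 0 < h) (r n l : ℕ) (hln : l + n < N) :
    2 * Real.pi * I * (cM N ^ r * (AM N N ^ r) ⟨l + n, hln⟩ ⟨l, by omega⟩) =
      (∏ k ∈ Ico (l + 1) (l + n + 1), bb N k) * PI (GG r N l n) h := by
  have hN : 1 ≤ N := by omega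
  have hN0 : (N : ℝ) ≠ 0 := by positivity
  have c1 : ContinuousAt (fun M : ℝ => 2 * Real.pi * I *
      (cM M ^ r * (AM N M ^ r) ⟨l + n, hln⟩ ⟨l, by omega⟩)) N := by
    apply ContinuousAt.mul continuousAt_const
    apply ((cM_contAt hN0).pow r).mul
    have h1 := (AM_contAt hN).pow r
    exact (continuousAt_pi.mp (continuousAt_pi.mp h1 ⟨l + n, hln⟩) ⟨l, by omega⟩)
  have c2 : ContinuousAt (fun M : ℝ =>
      (∏ k ∈ Ico (l + 1) (l + n + 1), bb M k) * PI (GG r M l n) h) N := by
    apply ContinuousAt.mul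
    · apply tendsto_finsetProd
      intro k _
      apply ContinuousAt.tendsto
      unfold bb sb
      fun_prop (disch := assumption)
    · exact PI_contAt hh hln
  have hne : (𝓝[≠] (N : ℝ)).NeBot := inferInstance
  have t1 := c1.tendsto.mono_left (nhdsWithin_le_nhds (s := {(N : ℝ)}ᶜ))
  have t2 := c2.tendsto.mono_left (nhdsWithin_le_nhds (s := {(N : ℝ)}ᶜ))
  refine tendsto_nhds_unique (t1.congr' ?_) t2
  have hnear : ∀ᶠ M : ℝ in 𝓝[≠] (N : ℝ), M ∈ Ioo ((N : ℝ) - 1 / 2) (N + 1 / 2) :=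
    nhdsWithin_le_nhds (Ioo_mem_nhds (by linarith) (by linarith))
  filter_upwards [hnear, self_mem_nhdsWithin] with M hM hM'
  apply AM_pow_PI hM.1 _ hh
  intro m hm
  apply hM'
  rw [mem_singleton_iff, hm]
  rw [hm] at hM
  have h1 : (N : ℝ) < (m : ℝ) + 1 := by linarith [hM.1]
  have h2 : (m : ℝ) < (N : ℝ) + 1 := by linarith [hM.2]
  have h3 : N < m + 1 := by exact_mod_cast h1
  have h4 : m < N + 1 := by exact_mod_cast h2
  have h5 : m = N := by omega
  rw [h5]

end Pool.Agent.Helper9.TB
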