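import Pool.Agent.Helper9.TB.TTwoD

/-!
# The limit for the closed braids `(σ₁ ^ r σ₂ ^ (-r)) ^ p` with their axis, assembly
-/

namespace Pool.Agent.Helper9.Kashaev

open Finset Filter Topology MeasureTheory

lemma logpoly_lim (A B E : ℝ) :
    Tendsto (fun N : ℕ => (A + B * Real.log N + N * E) / N) atTop (𝓝 E) := by
  have hlog := tendsto_log_div
  have hinv : Tendsto (fun N : ℕ => (1 : ℝ) / N) atTop (𝓝 0) := tendsto_one_div_atTop_nhds_zero_nat
  have h := ((hinv.const_mul A).add (hlog.const_mul B)).add_const E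
  rw [mul_zero, mul_zero, add_zero, zero_add] at h
  apply h.congr'
  filter_upwards [eventually_ge_atTop 1] with N hN
  have hNR : (0 : ℝ) < N := by exact_mod_cast hN
  field_simp

lemma exp_logpoly {C E : ℝ} (hC : 0 < C) (k : ℕ) {N : ℕ} (hN : 2 ≤ N) :
    C * (N : ℝ) ^ k * Real.exp (N * E) = Real.exp (Real.log C + k * Real.log N + N * E) := by
  have hNR : (0 : ℝ) < N := by positivity
  have e1 : Real.exp (k * Real.log N) = (N : ℝ) ^ k := by
    rw [Real.exp_nat_mul, Real.exp_log hNR]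
  rw [Real.exp_add, Real.exp_add, Real.exp_log hC, e1]

/-- The limit for the closed braids `(σ₁ ^ r σ₂ ^ (-r)) ^ p` with their axis. -/
theorem twist_limit {r : ℕ} (hr : 4 ≤ r) {h ξ0 : ℝ} (S : TB.Saddle (r / 2) (1 / r) h ξ0)
    {p : ℕ} (hp : 1 ≤ p) :
    Tendsto (fun N : ℕ => 2 * Real.pi *
      Real.log ‖(N : ℂ) * Matrix.trace ((MC N ^ r * MA N ^ r) ^ p)‖ / N) atTop
      (𝓝 (p * (8 * Real.pi * TB.KK (r / 2) (1 / r) h ξ0 (TB.x0 h ξ0)))) := by
  have hr4 : (4 : ℝ) ≤ r := by exact_mod_cast hr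
  have hρ : (1 : ℝ) ≤ r / 2 := by linarith only [hr4]
  have hc4 : (1 / r : ℝ) ≤ 1 / 4 := one_div_le_one_div_of_le (by norm_num) hr4
  have hτ := TB.x0_mem hρ hc4 S
  obtain ⟨C, g, k1, hC, hg, hU⟩ := TB.upper_T2 hr S
  obtain ⟨c, k2, hc, hL⟩ := TB.lower_T2 hr S hτ
  set H := TB.KK (r / 2) (1 / r) h ξ0 (TB.x0 h ξ0) with hH
  have hkey := growth_of_bounds r hp (2 * H) (2 * H - g) (by linarith only [hg])
    (fun N => Real.log C + k1 * Real.log N + N * (2 * H))
    (fun N => Real.log C + k1 * Real.log N + N * (2 * H - g))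
    (fun N => Real.log c + (-k2 : ℝ) * Real.log N + N * (2 * H))
    (logpoly_lim _ _ _) (logpoly_lim _ _ _) (logpoly_lim _ _ _) ?_ ?_ ?_
  · convert hkey using 2
    ring
  · -- all the entries
    filter_upwards [eventually_ge_atTop 2] with N hN x y
    rw [norm_MA_pow hN, ← exp_logpoly hC k1 hN]
    have h0 : 0 ≤ C * (N : ℝ) ^ k1 * Real.exp (N * (2 * H)) := by positivity
    split_ifs
    · rcases lt_or_ge (x.1 : ℕ) y.1 with h2 | h2
      · rw [AM_pow_tri r h2, norm_zero]; exact h0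
      · have h3 : (y.1 : ℕ) + (x.1 - y.1) < N := by have := x.1.2; omega
        have h4 := (hU N y.1 (x.1 - y.1) hN h3).1
        have e1 : (⟨(y.1 : ℕ) + (x.1 - y.1), h3⟩ : Fin N) = x.1 := Fin.ext (by simp only; omega)
        rw [e1] at h4
        exact h4
    · exact h0
  · filter_upwards [eventually_ge_atTop 2] with N hN s hs hs2 a l
    have h0 : 0 ≤ C * (N : ℝ) ^ k1 * Real.exp (N * (2 * H - g)) := by positivity
    have ha := a.2
    have hl := l.2
    constructor
    · rw [norm_MA_pow hN, ← exp_logpoly hC k1 hN]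
      split_ifs
      · show ‖(TB.AM N N ^ r) ⟨a, by omega⟩ ⟨l, by omega⟩‖ ≤ _
        rcases lt_or_ge (a : ℕ) l with h2 | h2
        · have h5 := AM_pow_tri (N := N) r (a := ⟨a, by omega⟩) (l := ⟨l, by omega⟩) h2
          rw [h5, norm_zero]; exact h0
        · have h3 : (l : ℕ) + (a - l) < N := by omega
          have h4 := (hU N l (a - l) hN h3).2 (Or.inl (by omega))
          have e1 : (⟨(l : ℕ) + (a - l), h3⟩ : Fin N) = ⟨a, by omega⟩ :=
            Fin.ext (by simp only; omega)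
          rw [e1] at h4
          exact h4
      · exact h0
    · rw [norm_MA_pow hN, ← exp_logpoly hC k1 hN]
      split_ifs
      · show ‖(TB.AM N N ^ r) ⟨a + s, by omega⟩ ⟨l + s, by omega⟩‖ ≤ _
        rcases lt_or_ge (a : ℕ) l with h2 | h2
        · have h5 := AM_pow_tri (N := N) r (a := ⟨a + s, by omega⟩) (l := ⟨l + s, by omega⟩)
            (by simp only; omega)
          rw [h5, norm_zero]; exact h0
        · have h3 : (l + s : ℕ) + (a - l) < N := by omega
          have h4 := (hU N (l + s) (a - l) hN h3).2 (Or.inr (by omega))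
          have e1 : (⟨(l + s : ℕ) + (a - l), h3⟩ : Fin N) = ⟨a + s, by omega⟩ :=
            Fin.ext (by simp only; omega)
          rw [e1] at h4
          exact h4
      · exact h0
  · filter_upwards [hL, eventually_ge_atTop 2] with N hL hN
    have h1 := hL hN
    have h2 := TB.lT_lt hτ hN
    set l0 := TB.lT (TB.x0 h ξ0) N with hl0
    set m0 := TB.mT (TB.x0 h ξ0) N with hm0
    refine ⟨⟨l0 + m0, h2⟩, ⟨l0, by omega⟩, ?_⟩
    rw [norm_Am_pow hN]
    have hNR : (0 : ℝ) < N := by positivity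
    have e1 : Real.exp (Real.log c + (-k2 : ℝ) * Real.log N + N * (2 * H)) =
        c * Real.exp (N * (2 * H)) / (N : ℝ) ^ k2 := by
      have e2 : Real.exp (k2 * Real.log N) = (N : ℝ) ^ k2 := by
        rw [Real.exp_nat_mul, Real.exp_log hNR]
      rw [Real.exp_add, Real.exp_add, Real.exp_log hc, neg_mul, Real.exp_neg, e2]
      field_simp
    rw [e1, div_le_iff₀ (by positivity)]
    exact h1

/-- The volume conjecture limit for the closed braids `(σ₁ ^ r σ₂ ^ (-r)) ^ p` with their axis. -/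
theorem twist_volume {r : ℕ} (hr : 4 ≤ r) {h ξ0 : ℝ} (S : TB.Saddle (r / 2) (1 / r) h ξ0)
    (p : ℕ) (hp : 1 ≤ p) : ∃ z : ℕ → ℂ,
    (∀ N, 2 ≤ N → IsKashaev N (withAxis (twistBraid 1 r p)) (z N)) ∧
    Tendsto (fun N : ℕ => 2 * Real.pi * Real.log ‖z N‖ / N) atTop
      (𝓝 (p * (8 * Real.pi * TB.KK (r / 2) (1 / r) h ξ0 (TB.x0 h ξ0)))) :=
  ⟨fun N => N * Matrix.trace ((MC N ^ r * MA N ^ r) ^ p), fun _ hN => twist_value hN r p,
    twist_limit hr S hp⟩

end Pool.Agent.Helper9.Kashaev
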