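import Pool.Agent.Helper9.TB.GFDefs

/-!
# The angle structure volume functional for the bundles with word `R ^ r L ^ r`

Only definitions.  The canonical ideal triangulation of the once-punctured torus bundle with
monodromy `± R ^ r L ^ r` has the layers `i` modulo `2 r`, with one ideal tetrahedron in each layer
(two in the 4-punctured sphere bundle).  Pleating angles `w i`; the dihedral angles of the
tetrahedra of the layer `i` are `bx, by', π - w i`.  The layers `i = 0, r` modulo `2 r` are the
hinges.
-/

namespace Pool.Agent.Helper9.TB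

open Real

/-- First dihedral angle of the layer `i`. -/
noncomputable def bx (r : ℕ) (w : ℤ → ℝ) (i : ℤ) : ℝ :=
  if (r : ℤ) ∣ i then (w i + w (i - 1) - w (i + 1)) / 2 else (w (i - 1) + w (i + 1)) / 2

/-- Second dihedral angle of the layer `i`. -/
noncomputable def by' (r : ℕ) (w : ℤ → ℝ) (i : ℤ) : ℝ := w i - bx r w i

/-- Nonnegative angle assignments. -/
structure BAdm (r : ℕ) (w : ℤ → ℝ) : Prop where
  per : ∀ i, w (i + 2 * r) = w i
  nonneg : ∀ i, 0 ≤ bx r w i ∧ 0 ≤ by' r w i ∧ 0 ≤ π - w i

/-- The volume functional of the once-punctured torus bundle: the sum of the volumes of the ideal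
tetrahedra with the given dihedral angles. -/
noncomputable def bvol (r : ℕ) (w : ℤ → ℝ) : ℝ :=
  ∑ i ∈ Finset.range (2 * r), (Lob (bx r w i) + Lob (by' r w i) + Lob (π - w i))

end Pool.Agent.Helper9.TB
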