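import Pool.Agent.Helper9.TB.TOneC
import Pool.Agent.Helper9.TB.TTwoE
import Pool.Agent.Helper5.TB.Max
import Pool.Agent.Helper96.TB.E2d

/-!
# The final form of the two limits
-/

namespace Pool.Agent.Helper9.TB

open Finset Filter Topology Set Kashaev

lemma kashaev_unique {N : ℕ} (hN : 2 ≤ N) {D : Diagram} {z w : ℂ} (hz : IsKashaev N D z) :
    IsKashaev N D w ↔ w = z := by
  refine ⟨fun hw => ?_, fun hw => hw ▸ hz⟩
  have e1 := congrFun (hw 0 (by omega)) [0]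
  have e2 := congrFun (hz 0 (by omega)) [0]
  rw [e1] at e2
  simpa [ket] using e2

theorem two_final (r : ℕ) (hr : 4 ≤ r) : ∃ (z : ℕ → ℂ) (w : ℕ → ℝ),
    (∀ N, 2 ≤ N → ∀ u : ℂ, IsKashaev N (twoBridge r) u ↔ u = z N) ∧
    (Adm r w ∧ ∀ i, 2 ≤ i → i ≤ 2 * r - 2 → 0 < gx r w i ∧ 0 < gy r w i ∧ 0 < gz w i) ∧
    (∀ w', Adm r w' → gvol r w' ≤ gvol r w) ∧
    Tendsto (fun N : ℕ => 2 * Real.pi * Real.log ‖z N‖ / N) atTop (𝓝 (gvol r w)) := by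
  have hr4 : (4 : ℝ) ≤ r := by exact_mod_cast hr
  have hc0 : (0 : ℝ) < 1 / r := by positivity
  have hc4 : (1 / r : ℝ) ≤ 1 / 4 := one_div_le_one_div_of_le (by norm_num) hr4
  obtain ⟨h, ξ0, S⟩ := saddle_exists (ρ := r) (c := 1 / r) (by linarith) hc0 hc4
  refine ⟨fun N => (JJ r N : ℂ), Pool.Agent.Helper5.TB.Wc h ξ0 r, fun N hN u => ?_, ⟨?_, ?_⟩, ?_, ?_⟩
  · exact kashaev_unique hN (JJ_kashaev hN r)
  · exact Pool.Agent.Helper5.TB.Wc_adm hr S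
  · intro i h2 hi
    obtain ⟨e1, e2, e3⟩ := Pool.Agent.Helper5.TB.critical_angles hr S h2 hi
    have hk2 : 2 ≤ Pool.Agent.Helper5.TB.kk r i := by unfold Pool.Agent.Helper5.TB.kk; omega
    have hkr : Pool.Agent.Helper5.TB.kk r i ≤ r := by unfold Pool.Agent.Helper5.TB.kk; omega
    have him := Pool.Agent.Helper5.TB.uj_im_pos hr S hk2 hkr
    rw [e1, e2, e3]
    exact ⟨(Pool.Agent.Helper5.TB.arg_mem (Pool.Agent.Helper5.TB.im_inv_one_sub him)).1,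
      (Pool.Agent.Helper5.TB.arg_mem (Pool.Agent.Helper5.TB.im_one_sub_inv him)).1,
      (Pool.Agent.Helper5.TB.arg_mem him).1⟩
  · intro w' hw'
    exact Pool.Agent.Helper5.TB.gvol_le hr S w' hw'
  · rw [Pool.Agent.Helper5.TB.gvol_Wc hr S]
    exact two_limit hr S

theorem twist_final (r : ℕ) (hr : 4 ≤ r) (p : ℕ) (hp : 1 ≤ p) : ∃ (z : ℕ → ℂ) (w : ℤ → ℝ),
    (∀ N, 2 ≤ N → ∀ u : ℂ, IsKashaev N (withAxis (twistBraid 1 r p)) u ↔ u = z N) ∧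
    (BAdm r w ∧ ∀ i, 0 < bx r w i ∧ 0 < by' r w i ∧ 0 < Real.pi - w i) ∧
    (∀ w', BAdm r w' → bvol r w' ≤ bvol r w) ∧
    Tendsto (fun N : ℕ => 2 * Real.pi * Real.log ‖z N‖ / N) atTop (𝓝 (p * (2 * bvol r w))) := by
  have hr4 : (4 : ℝ) ≤ r := by exact_mod_cast hr
  have hc0 : (0 : ℝ) < 1 / r := by positivity
  have hc4 : (1 / r : ℝ) ≤ 1 / 4 := one_div_le_one_div_of_le (by norm_num) hr4
  obtain ⟨h, ξ0, S⟩ := saddle_exists (ρ := r / 2) (c := 1 / r) (by linarith) hc0 hc4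
  obtain ⟨z, h1, h2⟩ := twist_volume hr S p hp
  refine ⟨z, Pool.Agent.Helper96.TB.wst r h ξ0, fun N hN u => ?_, ⟨?_, ?_⟩, ?_, ?_⟩
  · exact kashaev_unique hN (h1 N hN)
  · exact Pool.Agent.Helper96.TB.wst_adm hr S
  · intro i
    obtain ⟨a0, b0, c0, -, -, -⟩ := Pool.Agent.Helper96.TB.tri (Pool.Agent.Helper96.TB.UU_im_pos hr S i)
    rw [Pool.Agent.Helper96.TB.bx_wst hr S, Pool.Agent.Helper96.TB.by_wst hr S]
    refine ⟨b0, c0, ?_⟩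
    unfold Pool.Agent.Helper96.TB.wst
    linarith
  · intro w' hw'
    exact Pool.Agent.Helper96.TB.bvol_le hr S hw'
  · rw [Pool.Agent.Helper96.TB.bvol_wst hr S]
    exact h2

end Pool.Agent.Helper9.TB
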