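import Pool.Agent.MBase

/-!
# Lower triangular matrices commuting with a lower bidiagonal one, and divided differences
-/

namespace Pool.Agent.Helper9.TB

open Finset

variable {N : ℕ}

/-- divided differences: `dd f lam l n = f[lam l, ..., lam (l + n)]` -/
noncomputable def dd (f lam : ℕ → ℂ) : ℕ → ℕ → ℂ
  | l, 0 => f l
  | l, n + 1 => (dd f lam (l + 1) n - dd f lam l n) / (lam (l + n + 1) - lam l)

/-- the lower bidiagonal matrix -/
def Bm (N : ℕ) (lam b : ℕ → ℂ) : Matrix (Fin N) (Fin N) ℂ := fun a l =>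
  if (a : ℕ) = l then lam a else if (a : ℕ) = l + 1 then b a else 0

lemma mul_Bm (lam b : ℕ → ℂ) (X : Matrix (Fin N) (Fin N) ℂ) (a l : Fin N) :
    (X * Bm N lam b) a l = X a l * lam l +
      (if h : (l : ℕ) + 1 < N then X a ⟨l + 1, h⟩ * b (l + 1) else 0) := by
  rw [Matrix.mul_apply]
  by_cases h : (l : ℕ) + 1 < N
  · rw [dif_pos h]
    have h1 : ∀ k : Fin N, X a k * Bm N lam b k l =
        (if k = l then X a l * lam l else 0) +
          (if k = ⟨l + 1, h⟩ then X a ⟨l + 1, h⟩ * b (l + 1) else 0) := by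
      intro k
      unfold Bm
      by_cases h2 : k = l
      · subst h2
        have : ¬ (k = ⟨(k : ℕ) + 1, h⟩) := by
          intro h3
          have := congrArg Fin.val h3
          simp at this
        rw [if_pos rfl, if_pos rfl, if_neg this, add_zero]
      · have h2' : ¬ ((k : ℕ) = l) := fun h3 => h2 (Fin.ext h3)
        rw [if_neg h2', if_neg h2, zero_add]
        by_cases h3 : (k : ℕ) = l + 1
        · have h4 : k = ⟨(l : ℕ) + 1, h⟩ := Fin.ext h3
          rw [if_pos h3, if_pos h4, h4]
        · have h4 : ¬ (k = ⟨(l : ℕ) + 1, h⟩) := fun h5 => h3 (congrArg Fin.val h5)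
          rw [if_neg h3, if_neg h4, mul_zero]
    rw [sum_congr rfl (fun k _ => h1 k), sum_add_distrib, sum_ite_eq' univ l, sum_ite_eq' univ]
    simp
  · rw [dif_neg h, add_zero, sum_eq_single l]
    · unfold Bm; rw [if_pos rfl]
    · intro k _ hk
      unfold Bm
      have h2' : ¬ ((k : ℕ) = l) := fun h3 => hk (Fin.ext h3)
      rw [if_neg h2', if_neg (by have := k.2; omega), mul_zero]
    · intro h; exact absurd (mem_univ _) h

lemma Bm_mul (lam b : ℕ → ℂ) (X : Matrix (Fin N) (Fin N) ℂ) (a l : Fin N) :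
    (Bm N lam b * X) a l = lam a * X a l +
      (if h : 0 < (a : ℕ) then b a * X ⟨a - 1, by omega⟩ l else 0) := by
  rw [Matrix.mul_apply]
  by_cases h : 0 < (a : ℕ)
  · rw [dif_pos h]
    have h1 : ∀ k : Fin N, Bm N lam b a k * X k l =
        (if k = a then lam a * X a l else 0) +
          (if k = ⟨a - 1, by omega⟩ then b a * X ⟨a - 1, by omega⟩ l else 0) := by
      intro k
      unfold Bm
      by_cases h2 : k = a
      · subst h2
        have : ¬ (k = ⟨(k : ℕ) - 1, by omega⟩) := by
          intro h3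
          have := congrArg Fin.val h3
          simp only at this
          omega
        rw [if_pos rfl, if_pos rfl, if_neg this, add_zero]
      · have h2' : ¬ ((a : ℕ) = k) := fun h3 => h2 (Fin.ext h3.symm)
        rw [if_neg h2', if_neg h2, zero_add]
        by_cases h3 : (a : ℕ) = k + 1
        · have h4 : k = ⟨(a : ℕ) - 1, by omega⟩ := Fin.ext (by simp only; omega)
          rw [if_pos h3, if_pos h4, h4]
        · have h4 : ¬ (k = ⟨(a : ℕ) - 1, by omega⟩) := by
            intro h5
            have := congrArg Fin.val h5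
            simp only at this
            omega
          rw [if_neg h3, if_neg h4, zero_mul]
    rw [sum_congr rfl (fun k _ => h1 k), sum_add_distrib, sum_ite_eq' univ a, sum_ite_eq' univ]
    simp
  · rw [dif_neg h, add_zero, sum_eq_single a]
    · unfold Bm; rw [if_pos rfl]
    · intro k _ hk
      unfold Bm
      have h2' : ¬ ((a : ℕ) = k) := fun h3 => hk (Fin.ext h3.symm)
      rw [if_neg h2', if_neg (by omega), zero_mul]
    · intro h; exact absurd (mem_univ _) h

/-- lower triangular with given diagonal -/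
def LT (X : Matrix (Fin N) (Fin N) ℂ) (μ : ℕ → ℂ) : Prop :=
  (∀ a l : Fin N, a < l → X a l = 0) ∧ ∀ a : Fin N, X a a = μ a

lemma LT.one : LT (1 : Matrix (Fin N) (Fin N) ℂ) (fun _ => 1) :=
  ⟨fun a l h => Matrix.one_apply_ne (ne_of_lt h), fun a => Matrix.one_apply_eq a⟩

lemma LT.mul {X Y : Matrix (Fin N) (Fin N) ℂ} {μ ν : ℕ → ℂ} (hX : LT X μ) (hY : LT Y ν) :
    LT (X * Y) (fun k => μ k * ν k) := by
  constructor
  · intro a l h
    rw [Matrix.mul_apply]
    apply sum_eq_zero
    intro k _
    rcases lt_or_ge a k with h1 | h1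
    · rw [hX.1 a k h1, zero_mul]
    · rw [hY.1 k l (lt_of_le_of_lt h1 h), mul_zero]
  · intro a
    rw [Matrix.mul_apply, sum_eq_single a]
    · rw [hX.2, hY.2]
    · intro k _ hk
      rcases lt_or_gt_of_ne hk with h1 | h1
      · rw [hY.1 k a h1, mul_zero]
      · rw [hX.1 a k h1, zero_mul]
    · intro h; exact absurd (mem_univ _) h

lemma LT.pow {X : Matrix (Fin N) (Fin N) ℂ} {μ : ℕ → ℂ} (hX : LT X μ) (r : ℕ) :
    LT (X ^ r) (fun k => μ k ^ r) := by
  induction r with
  | zero => simpa using LT.one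
  | succ r ih =>
    rw [pow_succ]
    have := ih.mul hX
    simpa only [pow_succ] using this

/-- A lower triangular matrix commuting with the bidiagonal one is a divided difference. -/
theorem entry_eq_dd (lam b : ℕ → ℂ) (hlam : ∀ a l : ℕ, l < a → a < N → lam a ≠ lam l)
    {X : Matrix (Fin N) (Fin N) ℂ} {μ : ℕ → ℂ} (hX : LT X μ)
    (hc : X * Bm N lam b = Bm N lam b * X) :
    ∀ n l : ℕ, ∀ h : l + n < N, X ⟨l + n, h⟩ ⟨l, by omega⟩ =
      (∏ k ∈ Ico (l + 1) (l + n + 1), b k) * dd μ lam l n := by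
  intro n
  induction n with
  | zero =>
    intro l h
    have := hX.2 ⟨l, by omega⟩
    simp only [Nat.add_zero, Ico_self, prod_empty, one_mul, dd]
    exact this
  | succ n ih =>
    intro l h
    have h1 := congrFun (congrFun hc ⟨l + (n + 1), h⟩) ⟨l, by omega⟩
    rw [mul_Bm, Bm_mul] at h1
    simp only at h1
    rw [dif_pos (show l + 1 < N by omega), dif_pos (show 0 < l + (n + 1) by omega)] at h1
    have h2 := ih (l + 1) (by omega)
    have h3 := ih l (by omega)
    have e1 : (⟨l + 1 + n, by omega⟩ : Fin N) = ⟨l + (n + 1), h⟩ := Fin.ext (by simp only; omega)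
    have e2 : (⟨l + (n + 1) - 1, by omega⟩ : Fin N) = ⟨l + n, by omega⟩ :=
      Fin.ext (by simp only; omega)
    rw [e1] at h2
    rw [e2, h2, h3] at h1
    have hne : lam (l + n + 1) - lam l ≠ 0 := sub_ne_zero.mpr (hlam _ _ (by omega) (by omega))
    have p1 : ∏ k ∈ Ico (l + 1) (l + (n + 1) + 1), b k =
        b (l + 1) * ∏ k ∈ Ico (l + 1 + 1) (l + 1 + n + 1), b k := by
      rw [prod_eq_prod_Ico_succ_bot (by omega)]
      congr 2
      congr 1
      omega
    have p2 : ∏ k ∈ Ico (l + 1) (l + (n + 1) + 1), b k =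
        (∏ k ∈ Ico (l + 1) (l + n + 1), b k) * b (l + (n + 1)) := by
      rw [prod_Ico_succ_top (by omega)]
      rfl
    simp only [dd]
    rw [mul_div_assoc', eq_div_iff hne, mul_sub]
    have e3 : l + n + 1 = l + (n + 1) := by omega
    rw [e3]
    linear_combination (-1 : ℂ) * h1 - dd μ lam (l + 1) n * p1 + dd μ lam l n * p2

end Pool.Agent.Helper9.TB
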