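import Pool.Agent.MBase

/-!
# Integrals of the cotangent over a period
-/

namespace Pool.Agent.Helper9.TB

open Complex MeasureTheory intervalIntegral

/-- `π cot (π z)` -/
noncomputable def pc (z : ℂ) : ℂ := Real.pi * (Complex.cos (Real.pi * z) / Complex.sin (Real.pi * z))

lemma sin_pi_add_one (z : ℂ) : Complex.sin (Real.pi * (z + 1)) = - Complex.sin (Real.pi * z) := by
  rw [mul_add, mul_one, Complex.sin_add_pi]

lemma cos_pi_add_one (z : ℂ) : Complex.cos (Real.pi * (z + 1)) = - Complex.cos (Real.pi * z) := by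
  rw [mul_add, mul_one, Complex.cos_add_pi]

lemma pc_add_one (z : ℂ) : pc (z + 1) = pc z := by
  unfold pc
  rw [sin_pi_add_one, cos_pi_add_one, neg_div_neg_eq]

lemma pc_neg (z : ℂ) : pc (-z) = - pc z := by
  unfold pc
  rw [mul_neg, Complex.sin_neg, Complex.cos_neg, div_neg, mul_neg]

lemma sin_pi_ne {z : ℂ} (h : z.im ≠ 0 ∨ ∀ n : ℤ, z.re ≠ n) : Complex.sin (Real.pi * z) ≠ 0 := by
  intro h0
  rw [Complex.sin_eq_zero_iff] at h0
  obtain ⟨n, hn⟩ := h0
  have h1 : z = n := by
    have h2 : (Real.pi : ℂ) ≠ 0 := by exact_mod_cast Real.pi_ne_zero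
    have : (Real.pi : ℂ) * z = Real.pi * n := by rw [hn]; ring
    exact mul_left_cancel₀ h2 this
  rcases h with h | h
  · apply h; rw [h1]; simp
  · apply h n; rw [h1]; simp

lemma pc_eq {z : ℂ} (hz : Complex.sin (Real.pi * z) ≠ 0) :
    pc z = Real.pi * (I * ((1 + Complex.exp (-(2 * Real.pi * I * z))) /
      (1 - Complex.exp (-(2 * Real.pi * I * z))))) := by
  unfold pc
  congr 1
  have e1 : Complex.exp (-(2 * Real.pi * I * z)) =
      Complex.exp (-(Real.pi * z) * I) * Complex.exp (-(Real.pi * z) * I) := by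
    rw [← Complex.exp_add]; congr 1; ring
  have e2 : Complex.exp (Real.pi * z * I) * Complex.exp (-(Real.pi * z) * I) = 1 := by
    rw [← Complex.exp_add]; simp
  have hne : 1 - Complex.exp (-(2 * Real.pi * I * z)) ≠ 0 := by
    intro h0
    apply hz
    rw [Complex.sin]
    rw [e1] at h0
    have h1 : Complex.exp (-(Real.pi * z) * I) - Complex.exp (Real.pi * z * I) = 0 := by
      have h2 : Complex.exp (-(Real.pi * z) * I) *
          (Complex.exp (-(Real.pi * z) * I) - Complex.exp (Real.pi * z * I)) = 0 := by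
        linear_combination -h0 - e2
      rcases mul_eq_zero.mp h2 with h3 | h3
      · exact absurd h3 (Complex.exp_ne_zero _)
      · exact h3
    rw [h1]; simp
  rw [div_eq_iff hz, mul_div_assoc', div_mul_eq_mul_div, eq_div_iff hne]
  rw [Complex.sin, Complex.cos, e1]
  linear_combination (-Complex.exp (-(Real.pi * z) * I)) * e2 -
    ((1 + Complex.exp (-(Real.pi * z) * I) ^ 2) *
      (Complex.exp (-(Real.pi * z) * I) - Complex.exp (Real.pi * z * I)) / 2) * Complex.I_sq

lemma circle_one_int {f : ℂ → ℂ} {R : ℝ} (hR : 0 < R) (hf : DiffContOnCl ℂ f (Metric.ball 0 R)) :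
    ∫ x in (0 : ℝ)..1, f (R * Complex.exp (-(2 * Real.pi * I * x))) = f 0 := by
  have h1 := DiffContOnCl.circleAverage (c := 0) (R := R) (f := f) (by rwa [abs_of_pos hR])
  rw [Real.circleAverage_def] at h1
  have h2 : ∫ x in (0 : ℝ)..1, f (R * Complex.exp (-(2 * Real.pi * I * x))) =
      ∫ x in (0 : ℝ)..1, f (circleMap 0 R (2 * Real.pi * x)) := by
    have h3 := intervalIntegral.integral_comp_sub_left (a := 0) (b := 1)
      (fun x : ℝ => f (circleMap 0 R (2 * Real.pi * x))) 1
    simp only [sub_self, sub_zero] at h3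
    rw [← h3]
    apply intervalIntegral.integral_congr
    intro x _
    simp only
    congr 1
    unfold circleMap
    rw [zero_add]
    congr 1
    rw [show ((2 * Real.pi * (1 - x) : ℝ) : ℂ) * I = -(2 * Real.pi * I * x) + 2 * Real.pi * I by
      push_cast; ring, Complex.exp_add, Complex.exp_two_pi_mul_I, mul_one]
  rw [h2, ← h1]
  have h4 := intervalIntegral.integral_comp_mul_left (a := 0) (b := 1)
    (fun θ : ℝ => f (circleMap 0 R θ)) (c := 2 * Real.pi) (by positivity)
  rw [h4]
  simp

/-- the integral of the cotangent over a period in the lower half plane -/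
lemma pc_int {h : ℝ} (hh : 0 < h) (t : ℝ) :
    ∫ x in (t : ℝ)..(t + 1), pc (x - h * I) = Real.pi * I := by
  have hper : Function.Periodic (fun x : ℝ => pc (x - h * I)) 1 := by
    intro x
    simp only
    rw [← pc_add_one ((x : ℂ) - h * I)]
    congr 1; push_cast; ring
  rw [hper.intervalIntegral_add_eq t 0, zero_add]
  set R : ℝ := Real.exp (-(2 * Real.pi * h)) with hR
  have hR0 : 0 < R := Real.exp_pos _
  have hR1 : R < 1 := by
    rw [hR, Real.exp_lt_one_iff]
    have := Real.pi_pos
    nlinarith only [mul_pos this hh, hh, this]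
  have h1 := circle_one_int (f := fun z => Real.pi * (I * ((1 + z) / (1 - z)))) hR0 (by
    apply DifferentiableOn.diffContOnCl
    rw [closure_ball _ hR0.ne']
    intro z hz
    rw [Metric.mem_closedBall, dist_zero_right] at hz
    have hne : 1 - z ≠ 0 := by
      intro h0
      have : z = 1 := by linear_combination -h0
      rw [this] at hz
      simp at hz
      linarith
    apply DifferentiableAt.differentiableWithinAt
    fun_prop (disch := assumption))
  have h2 : ∫ x in (0 : ℝ)..1, pc (x - h * I) = ∫ x in (0 : ℝ)..1,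
      (fun z : ℂ => Real.pi * (I * ((1 + z) / (1 - z))))
        (R * Complex.exp (-(2 * Real.pi * I * x))) := by
    apply intervalIntegral.integral_congr
    intro x _
    simp only
    rw [pc_eq (sin_pi_ne (Or.inl (by simp; exact hh.ne')))]
    have : Complex.exp (-(2 * Real.pi * I * (x - h * I))) =
        R * Complex.exp (-(2 * Real.pi * I * x)) := by
      rw [hR, Complex.ofReal_exp, ← Complex.exp_add]
      congr 1
      push_cast
      linear_combination (2 * Real.pi * h : ℂ) * Complex.I_sq
    rw [this]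
  rw [h2, h1]
  simp

/-- the integral of the cotangent over a period in the upper half plane -/
lemma pc_int' {h : ℝ} (hh : 0 < h) (t : ℝ) :
    ∫ x in (t : ℝ)..(t + 1), pc (x + h * I) = - (Real.pi * I) := by
  have h1 := pc_int hh (-(t + 1))
  have h2 := intervalIntegral.integral_comp_neg (a := t) (b := t + 1)
    (fun x : ℝ => pc (x - h * I))
  have e : -(t + 1) + 1 = -t := by ring
  rw [e] at h1
  rw [h1] at h2
  rw [← h2, ← intervalIntegral.integral_neg]
  apply intervalIntegral.integral_congr
  intro x _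
  simp only
  rw [← pc_neg]
  congr 1; push_cast; ring

end Pool.Agent.Helper9.TB
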