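import Pool.Agent.Helper9.TB.RDefs2

/-!
# Deformation of the path
-/

namespace Pool.Agent.Helper9.TB

open Complex MeasureTheory intervalIntegral Set

lemma mem_PS_of_neg {y : ℂ} (h1 : |y.re| ≤ 1 / 2) : y ∈ PS (-y.im) := by
  left
  exact ⟨h1, by ring⟩

lemma GB_diff (r : ℕ) {N l n : ℕ} (hN : l + n < N) {y : ℂ} (h1 : |y.re| ≤ 1 / 2) (h2 : y.im < 0) :
    DifferentiableAt ℂ (GB r N l n) y := by
  unfold GB GG KR
  have hM : (N : ℝ) - 1 / 2 < N := by linarith
  apply DifferentiableAt.const_mul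
  apply DifferentiableAt.mul
  · fun_prop
  · apply DifferentiableAt.div
    · unfold dLy; fun_prop
    · apply DifferentiableAt.fun_finsetProd
      intro k _
      unfold Ly
      fun_prop
    · rw [Finset.prod_ne_zero_iff]
      intro k hk
      rw [Finset.mem_Ico] at hk
      exact Ly_ne hM (by omega) (show 0 < -y.im by linarith) (mem_PS_of_neg h1)

lemma GB_contOn (r : ℕ) {N l n : ℕ} (hN : l + n < N) {h : ℝ} (hh : 0 < h) :
    ContinuousOn (GB r N l n) (PS h) := by
  intro y hy
  apply ContinuousAt.continuousWithinAt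
  unfold GB GG KR
  have hM : (N : ℝ) - 1 / 2 < N := by linarith
  apply ContinuousAt.mul continuousAt_const
  apply ContinuousAt.mul
  · fun_prop
  · apply ContinuousAt.div
    · unfold dLy; fun_prop
    · apply tendsto_finsetProd
      intro k _
      apply ContinuousAt.tendsto
      unfold Ly
      fun_prop
    · rw [Finset.prod_ne_zero_iff]
      intro k hk
      rw [Finset.mem_Ico] at hk
      exact Ly_ne hM (by omega) hh hy

/-- The path through the height `-h` up to the abscissa `c`, then at the height `-δ`. -/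
theorem PI_path {f : ℂ → ℂ} {h δ c : ℝ} (hδ : 0 < δ) (hδh : δ ≤ h) (hc0 : 0 ≤ c) (hc : c ≤ 1 / 2)
    (hf : ∀ y : ℂ, |y.re| ≤ 1 / 2 → y.im < 0 → DifferentiableAt ℂ f y)
    (hf' : ContinuousOn f (PS h)) :
    PI f h = -(I * ver f (-1 / 2) (-h) 0) + hor f (-1 / 2) 0 (-h) + hor f 0 c (-h) +
      I * ver f c (-h) (-δ) + hor f c (1 / 2) (-δ) + I * ver f (1 / 2) (-δ) 0 := by
  have hrect := integral_boundary_rect_eq_zero_of_differentiableOn f
    (((c : ℝ) : ℂ) + ((-h : ℝ) : ℂ) * I) (((1 / 2 : ℝ) : ℂ) + ((-δ : ℝ) : ℂ) * I) (by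
      rw [re_pt, re_pt, im_pt, im_pt, uIcc_of_le hc, uIcc_of_le (by linarith)]
      intro y hy
      rw [mem_reProdIm] at hy
      apply DifferentiableAt.differentiableWithinAt
      apply hf
      · rw [abs_le]; exact ⟨by linarith [hy.1.1], hy.1.2⟩
      · linarith [hy.2.2])
  rw [re_pt, re_pt, im_pt, im_pt] at hrect
  have hh : 0 < h := by linarith
  have hI : ∀ a b : ℝ, a ∈ Icc (-1 / 2 : ℝ) (1 / 2) → b ∈ Icc (-1 / 2 : ℝ) (1 / 2) →
      IntervalIntegrable (fun x : ℝ => f (x + (-h : ℝ) * I)) volume a b := by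
    intro a b ha hb
    apply ContinuousOn.intervalIntegrable
    apply hor_cont hf'
    intro x hx
    apply mem_PS_hor
    rw [uIcc_of_le (by norm_num)]
    rw [mem_uIcc] at hx
    rcases hx with hx | hx
    · exact ⟨by linarith [ha.1], by linarith [hb.2]⟩
    · exact ⟨by linarith [hb.1], by linarith [ha.2]⟩
  have hV : ∀ a b : ℝ, a ∈ Icc (-h) 0 → b ∈ Icc (-h) 0 →
      IntervalIntegrable (fun y : ℝ => f (((1 / 2 : ℝ) : ℂ) + y * I)) volume a b := by
    intro a b ha hb
    apply ContinuousOn.intervalIntegrable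
    apply ver_cont hf'
    intro x hx
    apply mem_PS_ver hh.le ab2
    rw [uIcc_of_le (by linarith)]
    rw [mem_uIcc] at hx
    rcases hx with hx | hx
    · exact ⟨by linarith [ha.1], by linarith [hb.2]⟩
    · exact ⟨by linarith [hb.1], by linarith [ha.2]⟩
  have s1 : hor f (-1 / 2) (1 / 2) (-h) = hor f (-1 / 2) 0 (-h) + hor f 0 c (-h) +
      hor f c (1 / 2) (-h) := by
    unfold hor
    rw [integral_add_adjacent_intervals, integral_add_adjacent_intervals]
    · exact hI _ _ ⟨by norm_num, by norm_num⟩ ⟨by linarith, hc⟩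
    · exact hI _ _ ⟨by linarith, hc⟩ ⟨by norm_num, by norm_num⟩
    · exact hI _ _ ⟨by norm_num, by norm_num⟩ ⟨by norm_num, by norm_num⟩
    · exact hI _ _ ⟨by norm_num, by norm_num⟩ ⟨by linarith, hc⟩
  have s2 : ver f (1 / 2) (-h) 0 = ver f (1 / 2) (-h) (-δ) + ver f (1 / 2) (-δ) 0 := by
    unfold ver
    rw [integral_add_adjacent_intervals]
    · exact hV _ _ ⟨by linarith, by linarith⟩ ⟨by linarith, by linarith⟩
    · exact hV _ _ ⟨by linarith, by linarith⟩ ⟨by linarith, by linarith⟩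
  have s3 : hor f c (1 / 2) (-h) - hor f c (1 / 2) (-δ) + I * ver f (1 / 2) (-h) (-δ) -
      I * ver f c (-h) (-δ) = 0 := by
    unfold hor ver
    simpa only [smul_eq_mul] using hrect
  unfold PI
  rw [s1, s2]
  linear_combination s3

end Pool.Agent.Helper9.TB
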