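import Pool.Agent.Helper9.TB.Lim
import Pool.Agent.Helper9.TB.RDefs

/-!
# The integrand with its prefactor
-/

namespace Pool.Agent.Helper9.TB

open Finset

/-- the integrand for the entry `(l + n, l)` of the `r`-th power, with its prefactor -/
noncomputable def GB (r N l n : ℕ) (y : ℂ) : ℂ :=
  (∏ k ∈ Ico (l + 1) (l + n + 1), bb N k) * GG r N l n y

/-- the point `ξ - i h` -/
noncomputable def pt (ξ h : ℝ) : ℂ := (ξ : ℂ) + (-h : ℝ) * Complex.I

/-- the logarithmic derivative per `N` of the integrand -/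
noncomputable def PP (r : ℕ) (β α : ℝ) (y : ℂ) : ℂ :=
  2 * Real.pi * Complex.I * r * y -
    ∫ x in β..α, dLy y / (Ly y - ((2 * Real.cos (2 * Real.pi * x) : ℝ) : ℂ))

end Pool.Agent.Helper9.TB
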