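import Pool.Agent.Helper9.TB.Gen
import Pool.Agent.Helper9.TB.Contour

/-!
# Powers of the half twist as contour integrals
-/

namespace Pool.Agent.Helper9.TB

open Complex MeasureTheory intervalIntegral Set Finset Filter Topology

/-- `-2 cos (2 π y)` -/
noncomputable def Ly (y : ℂ) : ℂ := -2 * Complex.cos (2 * Real.pi * y)

/-- its derivative -/
noncomputable def dLy (y : ℂ) : ℂ := 4 * Real.pi * Complex.sin (2 * Real.pi * y)

/-- the nodes on the real line -/
noncomputable def yk (M : ℝ) (k : ℕ) : ℝ := 1 / 2 - (2 * k + 1) / (2 * M)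

lemma Ly_sub (y z : ℂ) : Ly y - Ly z =
    4 * (Complex.sin (Real.pi * (y + z)) * Complex.sin (Real.pi * (y - z))) := by
  unfold Ly
  have h := Complex.cos_sub_cos (2 * Real.pi * y) (2 * Real.pi * z)
  have e1 : (2 * Real.pi * y + 2 * Real.pi * z) / 2 = Real.pi * (y + z) := by ring
  have e2 : (2 * Real.pi * y - 2 * Real.pi * z) / 2 = Real.pi * (y - z) := by ring
  rw [e1, e2] at h
  linear_combination (-2 : ℂ) * h

lemma Ly_yk {M : ℝ} (hM : M ≠ 0) (k : ℕ) : Ly (yk M k) = lam M k := by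
  unfold Ly lam lamR yk
  have e1 : (2 * Real.pi * ((1 / 2 - (2 * k + 1) / (2 * M) : ℝ) : ℂ)) =
      ((Real.pi - Real.pi * ((2 * k + 1) / M) : ℝ) : ℂ) := by
    push_cast
    have : (M : ℂ) ≠ 0 := by exact_mod_cast hM
    field_simp
  rw [e1, ← Complex.ofReal_cos, Real.cos_pi_sub]
  push_cast; ring

lemma yk_lt {M : ℝ} {N k : ℕ} (hM : (N : ℝ) - 1 / 2 < M) (hk : k < N) : |yk M k| < 1 / 2 := by
  have hk' : (k : ℝ) + 1 ≤ N := by exact_mod_cast hk
  have hk0 : (0 : ℝ) ≤ k := Nat.cast_nonneg k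
  have hM0 : 0 < M := by linarith
  unfold yk
  rw [abs_lt]
  constructor
  · have : (2 * (k : ℝ) + 1) / (2 * M) < 1 := by
      rw [div_lt_one (by positivity)]; linarith
    linarith
  · have : 0 < (2 * (k : ℝ) + 1) / (2 * M) := by positivity
    linarith

lemma dLy_div {y : ℂ} {t : ℝ} (h1 : Complex.sin (Real.pi * (y + t)) ≠ 0)
    (h2 : Complex.sin (Real.pi * (y - t)) ≠ 0) :
    dLy y / (Ly y - Ly t) = pc (y - t) + pc (y + t) := by
  rw [Ly_sub]
  unfold dLy pc
  have e1 : Complex.sin (2 * Real.pi * y) =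
      Complex.sin (Real.pi * (y + t)) * Complex.cos (Real.pi * (y - t)) +
      Complex.cos (Real.pi * (y + t)) * Complex.sin (Real.pi * (y - t)) := by
    rw [← Complex.sin_add]; congr 1; ring
  rw [e1]
  field_simp

lemma sin_PS_ne {h : ℝ} (hh : 0 < h) {y : ℂ} (hy : y ∈ PS h) {t : ℝ} (ht : |t| < 1 / 2) :
    Complex.sin (Real.pi * (y + t)) ≠ 0 := by
  apply sin_pi_ne
  rcases hy with h1 | h1
  · left
    rw [Complex.add_im, Complex.ofReal_im, add_zero, h1.2]
    linarith
  · right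
    intro n hn
    rw [Complex.add_re, Complex.ofReal_re] at hn
    have h2 : |(n : ℝ)| < 1 := by
      rw [← hn]
      calc |y.re + t| ≤ |y.re| + |t| := abs_add_le _ _
        _ < 1 := by linarith [h1.1.le]
    have h3 : |n| < 1 := by exact_mod_cast h2
    have h4 : n = 0 := by rwa [Int.abs_lt_one_iff] at h3
    rw [h4] at hn
    have : y.re = -t := by push_cast at hn; linarith
    rw [this, abs_neg] at h1
    linarith [h1.1]

lemma sin_PS_ne' {h : ℝ} (hh : 0 < h) {y : ℂ} (hy : y ∈ PS h) {t : ℝ} (ht : |t| < 1 / 2) :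
    Complex.sin (Real.pi * (y - t)) ≠ 0 := by
  have := sin_PS_ne hh hy (t := -t) (by rwa [abs_neg])
  simpa [sub_eq_add_neg] using this

lemma Ly_ne {M : ℝ} {N k : ℕ} (hM : (N : ℝ) - 1 / 2 < M) (hk : k < N) {h : ℝ} (hh : 0 < h)
    {y : ℂ} (hy : y ∈ PS h) : Ly y - lam M k ≠ 0 := by
  have hM0 : M ≠ 0 := by
    have hk' : (k : ℝ) + 1 ≤ N := by exact_mod_cast hk
    have hk0 : (0 : ℝ) ≤ k := Nat.cast_nonneg k
    have : 0 < M := by linarith
    exact this.ne'
  rw [← Ly_yk hM0, Ly_sub]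
  have ht := yk_lt hM hk
  exact mul_ne_zero (by norm_num) (mul_ne_zero (sin_PS_ne hh hy ht) (sin_PS_ne' hh hy ht))

/-- the kernel -/
noncomputable def KR (M : ℝ) (l n : ℕ) (y : ℂ) : ℂ :=
  dLy y / ∏ k ∈ Ico l (l + n + 1), (Ly y - lam M k)

lemma KR_cont {M : ℝ} {N : ℕ} (hM : (N : ℝ) - 1 / 2 < M) {h : ℝ} (hh : 0 < h) {l n : ℕ}
    (hln : l + n < N) {F : ℂ → ℂ} (hF : Continuous F) :
    ContinuousOn (fun y => F y * KR M l n y) (PS h) := by
  intro y hy
  apply ContinuousAt.continuousWithinAt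
  apply ContinuousAt.mul hF.continuousAt
  unfold KR
  apply ContinuousAt.div
  · unfold dLy; fun_prop
  · unfold Ly
    fun_prop
  · rw [prod_ne_zero_iff]
    intro k hk
    rw [Finset.mem_Ico] at hk
    exact Ly_ne hM (by omega) hh hy

/-- divided differences as contour integrals -/
theorem dd_eq {M : ℝ} {N : ℕ} (hM : (N : ℝ) - 1 / 2 < M) (hMn : ∀ n : ℕ, M ≠ n) {h : ℝ}
    (hh : 0 < h) {F : ℂ → ℂ} (hF : Differentiable ℂ F) (hev : ∀ y, F (-y) = F y) (n : ℕ) :
    ∀ l, l + n < N → 2 * Real.pi * I * dd (fun k => F (yk M k)) (lam M) l n =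
      PI (fun y => F y * KR M l n y) h := by
  induction n with
  | zero =>
    intro l hl
    have hM0 : M ≠ 0 := by
      simpa using hMn 0
    simp only [dd]
    rw [← PI_base hF hev hh (yk_lt hM (show l < N by omega))]
    apply PI_congr hh.le
    intro y hy
    have ht := yk_lt hM (show l < N by omega)
    rw [← dLy_div (sin_PS_ne hh hy ht) (sin_PS_ne' hh hy ht), Ly_yk hM0]
    unfold KR
    simp
  | succ n ih =>
    intro l hl
    have h1 := ih (l + 1) (by omega)
    have h2 := ih l (by omega)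
    have hne : lam M (l + n + 1) - lam M l ≠ 0 :=
      sub_ne_zero.mpr (lam_ne (by linarith) hMn _ _ (by omega) hl)
    simp only [dd]
    have h3 : 2 * Real.pi * I * ((dd (fun k => F (yk M k)) (lam M) (l + 1) n -
        dd (fun k => F (yk M k)) (lam M) l n) / (lam M (l + n + 1) - lam M l)) =
        (1 / (lam M (l + n + 1) - lam M l)) *
          (2 * Real.pi * I * dd (fun k => F (yk M k)) (lam M) (l + 1) n +
          (-1) * (2 * Real.pi * I * dd (fun k => F (yk M k)) (lam M) l n)) := by ring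
    have c1 := KR_cont hM hh (show l + 1 + n < N by omega) hF.continuous
    have c2 := KR_cont hM hh (show l + n < N by omega) hF.continuous
    have c3 : ContinuousOn (fun y => (-1) * (F y * KR M l n y)) (PS h) := continuousOn_const.mul c2
    rw [h3, h1, h2, ← PI_mul (-1), ← PI_add hh.le c1 c3, ← PI_mul]
    apply PI_congr hh.le
    intro y hy
    have f1 : Ly y - lam M l ≠ 0 := Ly_ne hM (by omega) hh hy
    have f2 : Ly y - lam M (l + n + 1) ≠ 0 := Ly_ne hM (by omega) hh hy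
    have f3 : ∏ k ∈ Ico (l + 1) (l + n + 1), (Ly y - lam M k) ≠ 0 := by
      rw [prod_ne_zero_iff]
      intro k hk
      rw [Finset.mem_Ico] at hk
      exact Ly_ne hM (by omega) hh hy
    have p1 : ∏ k ∈ Ico l (l + n + 1), (Ly y - lam M k) =
        (Ly y - lam M l) * ∏ k ∈ Ico (l + 1) (l + n + 1), (Ly y - lam M k) := by
      rw [prod_eq_prod_Ico_succ_bot (by omega)]
    have p2 : ∏ k ∈ Ico (l + 1) (l + 1 + n + 1), (Ly y - lam M k) =
        (∏ k ∈ Ico (l + 1) (l + n + 1), (Ly y - lam M k)) * (Ly y - lam M (l + n + 1)) := by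
      rw [show l + 1 + n + 1 = (l + n + 1) + 1 by omega, prod_Ico_succ_top (by omega)]
    have p3 : ∏ k ∈ Ico l (l + (n + 1) + 1), (Ly y - lam M k) =
        (Ly y - lam M l) * (∏ k ∈ Ico (l + 1) (l + n + 1), (Ly y - lam M k)) *
          (Ly y - lam M (l + n + 1)) := by
      rw [show l + (n + 1) + 1 = (l + n + 1) + 1 by omega, prod_Ico_succ_top (by omega), p1]
    unfold KR
    rw [p1, p2, p3]
    field_simp
    ring

/-- the constant -/
noncomputable def cM (M : ℝ) : ℂ := ex (M / 4 - 1 / 2 + 1 / (4 * M))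

lemma gauss_yk {M : ℝ} (hM : M ≠ 0) (k : ℕ) :
    ex (M * yk M k ^ 2) = cM M * mu M k := by
  unfold cM mu
  have h1 : (-1 : ℂ) ^ k = ex (-(k : ℝ)) := by
    have h2 := ex_add (k : ℝ) (-(k : ℝ))
    rw [add_neg_cancel, ex_natCast] at h2
    have h3 : ex 0 = 1 := by simp [ex]
    rw [h3] at h2
    have h4 : ((-1 : ℂ) ^ k) * (-1) ^ k = 1 := by rw [← mul_pow]; simp
    linear_combination (-1 : ℂ) ^ k * h2 + ex (-(k : ℝ)) * h4
  rw [h1, ← ex_add, ← ex_add]
  congr 1
  unfold yk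
  field_simp
  ring

/-- the integrand -/
noncomputable def GG (r : ℕ) (M : ℝ) (l n : ℕ) (y : ℂ) : ℂ :=
  Complex.exp (Real.pi * I * (r * M) * y ^ 2) * KR M l n y

theorem AM_pow_PI {N : ℕ} {M : ℝ} (hM : (N : ℝ) - 1 / 2 < M) (hMn : ∀ n : ℕ, M ≠ n) {h : ℝ}
    (hh : 0 < h) (r n l : ℕ) (hln : l + n < N) :
    2 * Real.pi * I * (cM M ^ r * (AM N M ^ r) ⟨l + n, hln⟩ ⟨l, by omega⟩) =
      (∏ k ∈ Ico (l + 1) (l + n + 1), bb M k) * PI (GG r M l n) h := by
  have hM0 : M ≠ 0 := hMn 0 |> fun h => by simpa using h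
  rw [AM_pow_entry (by linarith) hMn r n l hln]
  have h1 := dd_eq hM hMn hh (F := fun y => Complex.exp (Real.pi * I * (r * M) * y ^ 2))
    (by fun_prop) (fun y => by simp) n l hln
  have h2 : dd (fun k => Complex.exp (Real.pi * I * (r * M) * (yk M k : ℂ) ^ 2)) (lam M) l n =
      cM M ^ r * dd (fun k => mu M k ^ r) (lam M) l n := by
    have h3 : ∀ k, Complex.exp (Real.pi * I * (r * M) * (yk M k : ℂ) ^ 2) =
        cM M ^ r * mu M k ^ r := by
      intro k
      rw [← mul_pow, ← gauss_yk hM0]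
      unfold ex
      rw [← Complex.exp_nat_mul]
      congr 1; push_cast; ring
    have h4 : ∀ (c : ℂ) (f g : ℕ → ℂ), (∀ k, f k = c * g k) → ∀ n l, dd f (lam M) l n =
        c * dd g (lam M) l n := by
      intro c f g hfg n
      induction n with
      | zero => intro l; exact hfg l
      | succ n ih => intro l; simp only [dd]; rw [ih, ih]; ring
    exact h4 _ _ _ h3 n l
  rw [h2] at h1
  rw [show PI (GG r M l n) h = PI (fun y => Complex.exp (Real.pi * I * (r * M) * y ^ 2) *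
    KR M l n y) h from rfl, ← h1]
  ring

end Pool.Agent.Helper9.TB
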