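import Pool.Agent.Helper9.TB.RDefs2
import Pool.Agent.Helper96.TB.GBnd
import Pool.Agent.Helper11.TB.Exist
import Pool.Agent.Helper48.TB.Saddle
import Pool.Agent.Helper85.TB.Laplace

/-!
# The estimates of the other files, in the form used below
-/

namespace Pool.Agent.Helper9.TB

open Finset Filter Topology Set

theorem KK_gap {ρ c h ξ0 : ℝ} (hρ : 1 ≤ ρ) (hc : c ≤ 1 / 4) (S : Saddle ρ c h ξ0) :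
    ∃ m > 0, ∀ ξ ∈ Set.Icc 0 c, ∀ τ ∈ Set.Icc (0 : ℝ) (1 / 2),
      KK ρ c h ξ τ ≤ KK ρ c h ξ0 (x0 h ξ0) - m * (ξ - ξ0) ^ 2 :=
  Pool.Agent.Helper11.TB.KK_gap hρ hc S

theorem KK_left {ρ c h ξ τ : ℝ} (hρ : 0 ≤ ρ) (hh : 0 < h) (hξ : ξ ∈ Set.Icc (-1/2 : ℝ) 0)
    (hτ : τ ∈ Set.Icc (0 : ℝ) (1 / 2)) : KK ρ c h ξ τ ≤ KK ρ c h 0 τ :=
  Pool.Agent.Helper11.TB.KK_left hρ hh hξ.1 hξ.2 hτ.1 hτ.2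

theorem KK_vert {ρ c h h' τ : ℝ} (hh : 0 < h') (hhh : h' ≤ h) (hτ : 0 ≤ τ) :
    KK ρ c h' c τ ≤ KK ρ c h c τ :=
  Pool.Agent.Helper11.TB.KK_mono_h hh hhh hτ

theorem KK_right {ρ c h ξ τ : ℝ} (hc : 0 ≤ c) (hh : 0 < h) (hξ : ξ ∈ Set.Icc c (1/2 : ℝ))
    (hτ : τ ∈ Set.Icc (0 : ℝ) (1 / 2)) :
    KK ρ c h ξ τ ≤ 2 * Real.pi * ρ * (ξ - c) * h + KK ρ c h c τ :=
  Pool.Agent.Helper11.TB.KK_right hh hc hξ.1 hξ.2 hτ.1 hτ.2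

theorem ff_short {h ξ α : ℝ} (hh : 0 < h) (_ : |ξ| ≤ 1 / 2) (hα : α ∈ Set.Icc (0 : ℝ) (1 / 2)) :
    ∫ x in (0 : ℝ)..α, ff h ξ x ≤ 0 :=
  Pool.Agent.Helper11.TB.int_ff_nonpos hh ξ hα.1 hα.2

theorem ff_long {h ξ τ : ℝ} (hh : 0 < h) (_ : τ ∈ Set.Icc (0 : ℝ) (1 / 2)) :
    ∫ x in (0 : ℝ)..(1 - τ), ff h ξ x = -(2 * Real.pi * h) - 2 * ll τ + win h ξ τ := by
  rw [Pool.Agent.Helper11.TB.int_ff_refl hh]; ring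

theorem saddle_gt {ρ c h ξ : ℝ} (hρ : 1 ≤ ρ) (hc0 : 0 < c) (hc : c ≤ 1 / 4) (S : Saddle ρ c h ξ) :
    2 * Real.pi * ρ * c * h < KK ρ c h ξ (x0 h ξ) :=
  Pool.Agent.Helper11.TB.KK_big hρ hc0 hc S

theorem x0_mem {ρ c h ξ : ℝ} (hρ : 1 ≤ ρ) (hc : c ≤ 1 / 4) (S : Saddle ρ c h ξ) :
    x0 h ξ ∈ Set.Ioo (0 : ℝ) (1 / 2) :=
  Pool.Agent.Helper11.TB.saddle_x0 hρ hc S

theorem saddle_exists {ρ c : ℝ} (hρ : 1 < ρ) (hc0 : 0 < c) (hc : c ≤ 1 / 4) :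
    ∃ h ξ, Saddle ρ c h ξ :=
  Pool.Agent.Helper11.TB.exists_saddle hρ hc0 hc

theorem PP_saddle1 {r : ℕ} (hr : 4 ≤ r) {h ξ : ℝ} (S : Saddle r (1 / r) h ξ) :
    PP r 0 (1 - x0 h ξ) (pt ξ h) = 0 :=
  Pool.Agent.Helper48.TB.PP_saddle1 hr S

theorem PP_saddle2 {r : ℕ} (hr : 4 ≤ r) {h ξ : ℝ} (S : Saddle (r / 2) (1 / r) h ξ) :
    PP r (x0 h ξ) (1 - x0 h ξ) (pt ξ h) = 0 :=
  Pool.Agent.Helper48.TB.PP_saddle2 hr S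

end Pool.Agent.Helper9.TB
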