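import Pool.Agent.Helper9.TB.Upper

/-!
# Asymptotics of the first column of the powers
-/

namespace Pool.Agent.Helper9.TB

open Complex MeasureTheory intervalIntegral Set Filter Topology

lemma Kf_short {r : ℕ} {h ξ α : ℝ} (hh : 0 < h) (hξ : |ξ| ≤ 1 / 2) (hα : α ∈ Icc (0 : ℝ) (1 / 2)) :
    Kf r h ξ 0 α ≤ 2 * Real.pi * r * ξ * h := by
  unfold Kf
  linarith only [ff_short hh hξ hα, hα, hξ, hh]

lemma Kf_long {r : ℕ} (hr : 0 < r) {h ξ τ : ℝ} (hh : 0 < h) (hτ : τ ∈ Icc (0 : ℝ) (1 / 2)) :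
    Kf r h ξ 0 (1 - τ) = KK r (1 / r) h ξ τ := by
  unfold Kf KK
  rw [ff_long hh hτ]
  have hr0 : (r : ℝ) ≠ 0 := by positivity
  field_simp
  ring

lemma Kf_cases {r : ℕ} (hr : 0 < r) {h ξ α E : ℝ} (hh : 0 < h) (hξ : |ξ| ≤ 1 / 2)
    (hα : α ∈ Icc (0 : ℝ) 1) (h1 : 2 * Real.pi * r * ξ * h ≤ E)
    (h2 : ∀ τ ∈ Icc (0 : ℝ) (1 / 2), KK r (1 / r) h ξ τ ≤ E) : Kf r h ξ 0 α ≤ E := by
  rcases le_total α (1 / 2) with h3 | h3
  · exact (Kf_short hh hξ ⟨hα.1, h3⟩).trans h1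
  · have h4 : 1 - α ∈ Icc (0 : ℝ) (1 / 2) := ⟨by linarith only [hα.2, hα], by linarith only [h3]⟩
    have h5 := Kf_long hr (ξ := ξ) hh h4
    rw [show 1 - (1 - α) = α by ring] at h5
    rw [h5]
    exact h2 _ h4

/-- the first column: secondary pieces -/
theorem rest_T1 {r : ℕ} (hr : 4 ≤ r) {h ξ0 : ℝ} (S : Saddle r (1 / r) h ξ0) :
    ∃ δ g : ℝ, 0 < δ ∧ δ ≤ h ∧ 0 < g ∧ Real.pi * r * δ ≤ KK r (1 / r) h ξ0 (x0 h ξ0) - g ∧
      0 ≤ KK r (1 / r) h ξ0 (x0 h ξ0) - g ∧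
      ∀ α ∈ Icc (0 : ℝ) 1, Rest r (1 / r) h δ (KK r (1 / r) h ξ0 (x0 h ξ0) - g) 0 α := by
  have hr4 : (4 : ℝ) ≤ r := by exact_mod_cast hr
  have hr0 : (0 : ℝ) < r := by linarith only [hr4]
  have hρ : (1 : ℝ) ≤ r := by linarith
  have hc0 : (0 : ℝ) < 1 / r := by positivity
  have hc4 : (1 / r : ℝ) ≤ 1 / 4 := one_div_le_one_div_of_le (by norm_num) hr4
  obtain ⟨m, hm, hgap⟩ := KK_gap hρ hc4 S
  have hgt := saddle_gt hρ hc0 hc4 S
  have hpi := Real.pi_pos
  have hh := S.hpos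
  set H := KK r (1 / r) h ξ0 (x0 h ξ0) with hH
  have e1 : 2 * Real.pi * r * (1 / r) * h = 2 * Real.pi * h := by field_simp
  rw [e1] at hgt
  set g : ℝ := min (min (m * ξ0 ^ 2) (m * (1 / r - ξ0) ^ 2)) (H - 2 * Real.pi * h) / 2 with hg
  have hg1 : 2 * g ≤ m * ξ0 ^ 2 := by
    have : min (min (m * ξ0 ^ 2) (m * (1 / r - ξ0) ^ 2)) (H - 2 * Real.pi * h) ≤ m * ξ0 ^ 2 :=
      (min_le_left _ _).trans (min_le_left _ _)
    rw [hg]; linarith only [this]
  have hg2 : 2 * g ≤ m * (1 / r - ξ0) ^ 2 := by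
    have : min (min (m * ξ0 ^ 2) (m * (1 / r - ξ0) ^ 2)) (H - 2 * Real.pi * h) ≤
        m * (1 / r - ξ0) ^ 2 := (min_le_left _ _).trans (min_le_right _ _)
    rw [hg]; linarith only [this]
  have hg3 : 2 * g ≤ H - 2 * Real.pi * h := by
    have : min (min (m * ξ0 ^ 2) (m * (1 / r - ξ0) ^ 2)) (H - 2 * Real.pi * h) ≤
      (H - 2 * Real.pi * h) := min_le_right _ _
    rw [hg]; linarith only [this]
  have hg0 : 0 < g := by
    rw [hg]
    apply half_pos
    apply lt_min (lt_min _ _) (by linarith only [hgt])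
    · have := S.xpos; positivity
    · have : 0 < 1 / (r : ℝ) - ξ0 := by linarith only [S.xlt, S]
      positivity
  have hph : 0 < 2 * Real.pi * h := by positivity
  set δ : ℝ := min h (g / (Real.pi * r)) with hδ
  have hδ0 : 0 < δ := lt_min hh (by positivity)
  have hδh : δ ≤ h := min_le_left _ _
  have hδ2 : Real.pi * r * δ ≤ g := by
    have : δ ≤ g / (Real.pi * r) := min_le_right _ _
    rw [le_div_iff₀ (by positivity)] at this
    linarith only [this]
  have hc2 : (1 / r : ℝ) ≤ 1 / 2 := by linarith only [hc4, hc0]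
  have habs : ∀ x : ℝ, -1 / 2 ≤ x → x ≤ 1 / 2 → |x| ≤ 1 / 2 := by
    intro x h1 h2
    rw [abs_le]; constructor <;> linarith only [h1, h2]
  refine ⟨δ, g, hδ0, hδh, hg0, by linarith only [hδ2, hph, hg3], by linarith only [hph, hg0, hg3], fun α hα => ⟨?_, ?_, ?_⟩⟩
  · intro ξ hξ
    apply Kf_cases (by omega) hh (habs ξ hξ.1 (by linarith only [hξ.2, hξ, hc4, hc0])) hα
    · have : 2 * Real.pi * r * ξ * h ≤ 0 := by
        have : 2 * Real.pi * r * ξ * h = (2 * Real.pi * r * h) * ξ := by ring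
        rw [this]
        exact mul_nonpos_of_nonneg_of_nonpos (by positivity) hξ.2
      linarith only [this, hph, hg0, hg3]
    · intro τ hτ
      have h1 := KK_left (c := 1 / r) hr0.le hh hξ hτ
      have h2 := hgap 0 ⟨le_rfl, hc0.le⟩ τ hτ
      have h3 : m * (0 - ξ0) ^ 2 = m * ξ0 ^ 2 := by ring
      linarith only [h2, h1, hg0, hg1]
  · intro h' hh'
    have hh'0 : 0 < h' := by linarith only [hh'.1, hh', hδ0]
    apply Kf_cases (by omega) hh'0 (habs _ (by linarith only [hc4, hc0]) hc2) hα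
    · have : 2 * Real.pi * r * (1 / r) * h' = 2 * Real.pi * h' := by field_simp
      rw [this]
      have : 2 * Real.pi * h' ≤ 2 * Real.pi * h :=
        mul_le_mul_of_nonneg_left hh'.2 (by positivity)
      linarith only [this, hg0, hg3]
    · intro τ hτ
      have h1 := KK_vert (ρ := r) (c := 1 / r) hh'0 hh'.2 hτ.1
      have h2 := hgap (1 / r) ⟨hc0.le, le_rfl⟩ τ hτ
      linarith only [h2, h1, hg0, hg2]
  · intro ξ hξ
    apply Kf_cases (by omega) hδ0 (habs _ (by linarith only [hξ.1, hξ, hc4, hc0]) hξ.2) hα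
    · have : 2 * Real.pi * r * ξ * δ ≤ Real.pi * r * δ := by
        have h1 : 2 * Real.pi * r * ξ * δ = (Real.pi * r * δ) * (2 * ξ) := by ring
        rw [h1]
        exact mul_le_of_le_one_right (by positivity) (by linarith only [hξ.2, hξ])
      linarith only [this, hδ2, hph, hg3]
    · intro τ hτ
      have h1 := KK_right (ρ := r) hc0.le hδ0 hξ hτ
      have h2 := KK_vert (ρ := r) (c := 1 / r) hδ0 hδh hτ.1
      have h3 := hgap (1 / r) ⟨hc0.le, le_rfl⟩ τ hτ
      have h4 : 2 * Real.pi * r * (ξ - 1 / r) * δ ≤ Real.pi * r * δ := by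
        have h1 : 2 * Real.pi * r * (ξ - 1 / r) * δ = (Real.pi * r * δ) * (2 * (ξ - 1 / r)) := by
          ring
        rw [h1]
        exact mul_le_of_le_one_right (by positivity) (by linarith only [hξ.2, hξ, hc0])
      linarith only [h4, h3, h2, h1, hδ2, hg2]

/-- the first column: main piece -/
theorem main_T1 {r : ℕ} (hr : 4 ≤ r) {h ξ0 : ℝ} (S : Saddle r (1 / r) h ξ0) :
    ∀ α ∈ Icc (0 : ℝ) 1, ∀ ξ ∈ Icc 0 (1 / r : ℝ),
      Kf r h ξ 0 α ≤ KK r (1 / r) h ξ0 (x0 h ξ0) := by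
  have hr4 : (4 : ℝ) ≤ r := by exact_mod_cast hr
  have hr0 : (0 : ℝ) < r := by linarith
  have hρ : (1 : ℝ) ≤ r := by linarith
  have hc0 : (0 : ℝ) < 1 / r := by positivity
  have hc4 : (1 / r : ℝ) ≤ 1 / 4 := one_div_le_one_div_of_le (by norm_num) hr4
  obtain ⟨m, hm, hgap⟩ := KK_gap hρ hc4 S
  have hgt := saddle_gt hρ hc0 hc4 S
  have hpi := Real.pi_pos
  have hh := S.hpos
  intro α hα ξ hξ
  apply Kf_cases (by omega) hh (by rw [abs_of_nonneg hξ.1]; linarith only [hξ.2, hξ, hc4, hc0]) hα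
  · have h1 : 2 * Real.pi * r * ξ * h ≤ 2 * Real.pi * r * (1 / r) * h := by
      apply mul_le_mul_of_nonneg_right _ hh.le
      exact mul_le_mul_of_nonneg_left hξ.2 (by positivity)
    linarith only [h1, hgt]
  · intro τ hτ
    have h2 := hgap ξ hξ τ hτ
    have : 0 ≤ m * (ξ - ξ0) ^ 2 := by positivity
    linarith only [this, h2]

/-- upper bound for the first column -/
theorem upper_T1 {r : ℕ} (hr : 4 ≤ r) {h ξ0 : ℝ} (S : Saddle r (1 / r) h ξ0) :
    ∃ (C : ℝ) (k : ℕ), 0 < C ∧ ∀ (N : ℕ) (hN : 2 ≤ N) (a : Fin N),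
      ‖(AM N N ^ r) a ⟨0, by omega⟩‖ ≤
        C * N ^ k * Real.exp (N * KK r (1 / r) h ξ0 (x0 h ξ0)) := by
  have hr4 : (4 : ℝ) ≤ r := by exact_mod_cast hr
  have hr0 : (0 : ℝ) < r := by linarith only [hr4]
  have hc0 : (0 : ℝ) < 1 / r := by positivity
  have hc4 : (1 / r : ℝ) ≤ 1 / 4 := one_div_le_one_div_of_le (by norm_num) hr4
  obtain ⟨δ, g, hδ, hδh, hg, hE1, hE0, hR⟩ := rest_T1 hr S
  have hM := main_T1 hr S
  set H := KK r (1 / r) h ξ0 (x0 h ξ0) with hH
  obtain ⟨C1, k1, hC1, h1⟩ := rest_bound r hδ hδh hc0.le (by linarith only [hc4, hc0]) hE0 hE1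
  obtain ⟨C2, k2, hC2, h2⟩ := main_bound r (E := H) S.hpos hc0.le (by linarith only [hc4, hc0] : (1 / r : ℝ) ≤ 1 / 2)
  refine ⟨C1 + C2, k1 + k2, by positivity, fun N hN a => ?_⟩
  have hN1 : (1 : ℝ) ≤ N := by exact_mod_cast (by omega : 1 ≤ N)
  have hN0 : (0 : ℝ) < N := by linarith only [hN1, hc4, hc0]
  obtain ⟨n, hn⟩ := a
  have hln : 0 + n < N := by omega
  have hwin : (((0 + n + 1 : ℕ) : ℝ) / N) ∈ Icc (0 : ℝ) 1 := by
    constructor
    · positivity
    · rw [div_le_one hN0]; exact_mod_cast hln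
  have e0 : ((0 : ℕ) : ℝ) / N = 0 := by simp
  have b1 := h1 N 0 n hN hln (by rw [e0]; exact hR _ hwin)
  have b2 := h2 N 0 n hN hln (by rw [e0]; exact hM _ hwin)
  have b3 := entry_PI (l := 0) r S.hpos hln
  have b4 : ‖PI (GB r N 0 n) h‖ ≤ (C1 + C2) * N ^ (k1 + k2) * Real.exp (N * H) := by
    have e1 : PI (GB r N 0 n) h = (PI (GB r N 0 n) h - hor (GB r N 0 n) 0 (1 / r) (-h)) +
        hor (GB r N 0 n) 0 (1 / r) (-h) := by ring
    rw [e1]
    refine (norm_add_le _ _).trans ?_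
    have p1 : (N : ℝ) ^ k1 ≤ N ^ (k1 + k2) := pow_le_pow_right₀ hN1 (by omega)
    have p2 : (N : ℝ) ^ k2 ≤ N ^ (k1 + k2) := pow_le_pow_right₀ hN1 (by omega)
    have p3 : Real.exp (N * (H - g)) ≤ Real.exp (N * H) :=
      Real.exp_le_exp.mpr (mul_le_mul_of_nonneg_left (by linarith only [hg]) hN0.le)
    have q1 : C1 * (N : ℝ) ^ k1 * Real.exp (N * (H - g)) ≤
        C1 * N ^ (k1 + k2) * Real.exp (N * H) :=
      mul_le_mul (mul_le_mul_of_nonneg_left p1 hC1.le) p3 (Real.exp_pos _).le (by positivity)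
    have q2 : C2 * (N : ℝ) ^ k2 * Real.exp (N * H) ≤
        C2 * N ^ (k1 + k2) * Real.exp (N * H) :=
      mul_le_mul_of_nonneg_right (mul_le_mul_of_nonneg_left p2 hC2.le) (Real.exp_pos _).le
    calc _ ≤ C1 * (N : ℝ) ^ k1 * Real.exp (N * (H - g)) + C2 * (N : ℝ) ^ k2 * Real.exp (N * H) :=
          add_le_add b1 b2
      _ ≤ _ := by linarith only [q2, q1]
  have b5 : (⟨n, hn⟩ : Fin N) = ⟨0 + n, hln⟩ := Fin.ext (Nat.zero_add n).symm
  rw [b5]
  have b6 : 1 ≤ 2 * Real.pi := by linarith only [Real.pi_gt_three, hc4, hc0]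
  have b7 : 0 ≤ ‖(AM N N ^ r) ⟨0 + n, hln⟩ ⟨0, by omega⟩‖ := norm_nonneg _
  nlinarith only [b7, b6, hc4, hc0, b4, b3, hn, hN, hln]

/-- the index of the dominant entry -/
noncomputable def nT (τ : ℝ) (N : ℕ) : ℕ := N - 1 - ⌊N * τ⌋₊

lemma nT_lt {τ : ℝ} {N : ℕ} (hN : 2 ≤ N) : 0 + nT τ N < N := by unfold nT; omega

lemma nT_close {τ : ℝ} (hτ : τ ∈ Ioo (0 : ℝ) (1 / 2)) {N : ℕ} (hN : 2 ≤ N) :
    |((0 + nT τ N + 1 : ℕ) : ℝ) - N * (1 - τ)| ≤ 1 := by
  have hN2 : (2 : ℝ) ≤ N := by exact_mod_cast hN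
  have hx0 : 0 ≤ N * τ := mul_nonneg (by linarith) hτ.1.le
  have h1 : ((⌊N * τ⌋₊ : ℕ) : ℝ) ≤ N * τ := Nat.floor_le hx0
  have h2 : N * τ < ⌊N * τ⌋₊ + 1 := Nat.lt_floor_add_one _
  have h3 : ⌊N * τ⌋₊ ≤ N - 1 := by
    have h4 : ((⌊N * τ⌋₊ : ℕ) : ℝ) ≤ ((N - 1 : ℕ) : ℝ) := by
      rw [Nat.cast_sub (by omega), Nat.cast_one]
      nlinarith only [hτ.2, hτ, h1, hN2]
    exact_mod_cast h4
  have h5 : ((0 + nT τ N + 1 : ℕ) : ℝ) = N - ⌊N * τ⌋₊ := by
    unfold nT
    have : 0 + (N - 1 - ⌊N * τ⌋₊) + 1 = N - ⌊N * τ⌋₊ := by omega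
    rw [this, Nat.cast_sub (by omega)]
  rw [h5, abs_le]
  constructor <;> nlinarith only [h1, h2]

lemma logsin_int (a b : ℝ) : IntervalIntegrable (fun x : ℝ => Real.log (2 * Real.sin (Real.pi * x)))
    volume a b := by
  have h1 : MeromorphicOn (fun x : ℝ => 2 * Real.sin (Real.pi * x)) (uIcc a b) := by
    intro x _
    apply AnalyticAt.meromorphicAt
    fun_prop
  have h2 := h1.intervalIntegrable_log_norm
  apply h2.congr
  intro x _
  show Real.log ‖2 * Real.sin (Real.pi * x)‖ = Real.log (2 * Real.sin (Real.pi * x))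
  rw [Real.norm_eq_abs, Real.log_abs]

lemma ee_cont' {h : ℝ} (hh : 0 < h) : Continuous (ee h) := by
  unfold ee
  apply Continuous.div_const
  apply Continuous.log
  · fun_prop
  · intro x
    have h1 : 1 < Real.cosh (2 * Real.pi * h) := by
      rw [Real.one_lt_cosh]
      have := Real.pi_pos
      positivity
    have h2 := Real.neg_one_le_cos (2 * Real.pi * x)
    have : 0 < 2 * (Real.cosh (2 * Real.pi * h) + Real.cos (2 * Real.pi * x)) := by linarith
    exact this.ne'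

lemma ff_int {h : ℝ} (hh : 0 < h) (ξ a b : ℝ) : IntervalIntegrable (ff h ξ) volume a b := by
  unfold ff
  have h1 := (logsin_int a b).const_mul 2
  have h2 : Continuous (fun x => ee h (ξ + x)) := (ee_cont' hh).comp (by fun_prop)
  have h3 : Continuous (fun x => ee h (ξ - x)) := (ee_cont' hh).comp (by fun_prop)
  exact (h1.sub (h2.intervalIntegrable _ _)).sub (h3.intervalIntegrable _ _)

lemma ff_contAt {h : ℝ} (hh : 0 < h) {ξ x : ℝ} (hx0 : 0 < x) (hx1 : x < 1) :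
    ContinuousAt (ff h ξ) x := by
  unfold ff
  have h2 : Continuous (fun x => ee h (ξ + x)) := (ee_cont' hh).comp (by fun_prop)
  have h3 : Continuous (fun x => ee h (ξ - x)) := (ee_cont' hh).comp (by fun_prop)
  refine ((ContinuousAt.mul continuousAt_const (ContinuousAt.log (by fun_prop) ?_)).sub
    h2.continuousAt).sub h3.continuousAt
  have : 0 < Real.sin (Real.pi * x) := by
    apply Real.sin_pos_of_pos_of_lt_pi
    · have := Real.pi_pos; positivity
    · nlinarith only [Real.pi_pos, hx1]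
  positivity

/-- the primitive of `ff` is Lipschitz at interior points -/
lemma ff_prim_near {h : ℝ} (hh : 0 < h) {ξ β α B : ℝ} (hα0 : 0 < α) (hα : α < 1)
    (αs : ℕ → ℝ) (hαs : ∀ N : ℕ, 2 ≤ N → |N * αs N - N * α| ≤ B) :
    ∃ K : ℝ, ∀ᶠ N : ℕ in atTop, N * |(∫ x in β..(αs N), ff h ξ x) - ∫ x in β..α, ff h ξ x| ≤ K := by
  have hB : 0 ≤ B := (abs_nonneg _).trans (hαs 2 le_rfl)
  have hd : HasDerivAt (fun t => ∫ x in β..t, ff h ξ x) (ff h ξ α) α :=
    integral_hasDerivAt_right (ff_int hh ξ _ _)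
      ⟨Ioc 0 1, Ioc_mem_nhds hα0 hα, (ff_int hh ξ 0 1).aestronglyMeasurable⟩
      (ff_contAt hh hα0 hα)
  have hO := hd.isBigO_sub
  obtain ⟨K, hK⟩ := hO.bound
  have hlim : Tendsto αs atTop (𝓝 α) := by
    rw [tendsto_iff_dist_tendsto_zero]
    apply squeeze_zero' (g := fun N : ℕ => B / N)
    · exact Eventually.of_forall (fun _ => dist_nonneg)
    · filter_upwards [eventually_ge_atTop 2] with N hN
      have hN0 : (0 : ℝ) < N := by exact_mod_cast (by omega : 0 < N)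
      rw [le_div_iff₀ hN0, Real.dist_eq]
      have := hαs N hN
      rw [← mul_sub, abs_mul, abs_of_pos hN0] at this
      linarith
    · exact tendsto_const_div_atTop_nhds_zero_nat B
  refine ⟨|K| * B, ?_⟩
  filter_upwards [hlim.eventually hK, eventually_ge_atTop 2] with N h1 hN
  have hN0 : (0 : ℝ) < N := by exact_mod_cast (by omega : 0 < N)
  rw [Real.norm_eq_abs, Real.norm_eq_abs] at h1
  have h2 := hαs N hN
  rw [← mul_sub, abs_mul, abs_of_pos hN0] at h2
  have h3 : K * |αs N - α| ≤ |K| * |αs N - α| :=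
    mul_le_mul_of_nonneg_right (le_abs_self K) (abs_nonneg _)
  calc (N : ℝ) * |(∫ x in β..(αs N), ff h ξ x) - ∫ x in β..α, ff h ξ x|
      ≤ N * (|K| * |αs N - α|) := mul_le_mul_of_nonneg_left (h1.trans h3) hN0.le
    _ = |K| * (N * |αs N - α|) := by ring
    _ ≤ |K| * B := mul_le_mul_of_nonneg_left h2 (abs_nonneg _)

/-- polynomial factors do not matter -/
lemma log_lim {x : ℕ → ℝ} {E C c : ℝ} {k : ℕ} (hC : 0 < C) (hc : 0 < c)
    (h1 : ∀ᶠ N : ℕ in atTop, x N ≤ C * N ^ k * Real.exp (N * E))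
    (h2 : ∀ᶠ N : ℕ in atTop, c * Real.exp (N * E) ≤ x N * N ^ k) :
    Tendsto (fun N : ℕ => Real.log (x N) / N) atTop (𝓝 E) := by
  have hlog : Tendsto (fun N : ℕ => Real.log N / N) atTop (𝓝 0) := by
    have h3 := Real.isLittleO_log_id_atTop.tendsto_div_nhds_zero
    exact h3.comp tendsto_natCast_atTop_atTop
  have hcst : ∀ a : ℝ, Tendsto (fun N : ℕ => a / N) atTop (𝓝 0) :=
    fun a => tendsto_const_div_atTop_nhds_zero_nat a
  have u1 : Tendsto (fun N : ℕ => Real.log C / N + k * (Real.log N / N) + E) atTop (𝓝 E) := by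
    have := ((hcst (Real.log C)).add (hlog.const_mul (k : ℝ))).add_const E
    simpa using this
  have u2 : Tendsto (fun N : ℕ => Real.log c / N - k * (Real.log N / N) + E) atTop (𝓝 E) := by
    have := ((hcst (Real.log c)).sub (hlog.const_mul (k : ℝ))).add_const E
    simpa using this
  apply tendsto_of_tendsto_of_tendsto_of_le_of_le' u2 u1
  · filter_upwards [h2, eventually_ge_atTop 1] with N hx hN
    have hN0 : (0 : ℝ) < N := by exact_mod_cast hN
    have hNk : (0 : ℝ) < (N : ℝ) ^ k := by positivity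
    have hxpos : 0 < x N := by
      by_contra hneg
      push Not at hneg
      have : x N * (N : ℝ) ^ k ≤ 0 := mul_nonpos_of_nonpos_of_nonneg hneg hNk.le
      have : 0 < c * Real.exp (N * E) := by positivity
      linarith
    have h3 := Real.log_le_log (by positivity) hx
    rw [Real.log_mul hc.ne' (Real.exp_pos _).ne', Real.log_exp, Real.log_mul hxpos.ne' hNk.ne',
      Real.log_pow] at h3
    have e : Real.log c / N - k * (Real.log N / N) + E =
        (Real.log c - k * Real.log N + N * E) / N := by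
      field_simp
    rw [e]
    exact div_le_div_of_nonneg_right (by linarith) hN0.le
  · filter_upwards [h1, h2, eventually_ge_atTop 1] with N hx hx2 hN
    have hN0 : (0 : ℝ) < N := by exact_mod_cast hN
    have hNk : (0 : ℝ) < (N : ℝ) ^ k := by positivity
    have hxpos : 0 < x N := by
      by_contra hneg
      push Not at hneg
      have : x N * (N : ℝ) ^ k ≤ 0 := mul_nonpos_of_nonpos_of_nonneg hneg hNk.le
      have : 0 < c * Real.exp (N * E) := by positivity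
      linarith
    have h3 := Real.log_le_log hxpos hx
    rw [Real.log_mul (by positivity) (Real.exp_pos _).ne', Real.log_exp,
      Real.log_mul hC.ne' hNk.ne', Real.log_pow] at h3
    have e : Real.log C / N + k * (Real.log N / N) + E =
        (Real.log C + k * Real.log N + N * E) / N := by
      field_simp
    rw [e]
    exact div_le_div_of_nonneg_right (by linarith) hN0.le

end Pool.Agent.Helper9.TB
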