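import Pool.Agent.Helper9.TB.TwoB

/-!
# The Kashaev invariant of `C(r, r)` as a sum of squares, continued
-/

namespace Pool.Agent.Helper9.Kashaev

open Finset

lemma Eop_ket_zero (N : ℕ) : Eop N (ket [0]) = fun _ => 0 := by
  funext w
  rcases w with _ | ⟨x, w⟩
  · rfl
  · simp only [Eop]
    have h1 : ket [0] ((x + 1) :: w) = 0 := by simp [ket]
    have h2 : Eop N (fun u => ket [0] (x :: u)) w = 0 := by
      rcases w with _ | ⟨y, w⟩
      · rfl
      · simp only [Eop]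
        have h3 : ket [0] (x :: (y + 1) :: w) = 0 := by simp [ket]
        have h4 : (fun u => ket [0] (x :: y :: u)) = fun _ => 0 := by funext u; simp [ket]
        rw [h3, h4]
        have h5 : Eop N (fun _ => (0 : ℂ)) w = 0 := by
          clear h1 h3 h4
          induction w with
          | nil => rfl
          | cons z w ih => simp only [Eop]; rw [ih]; simp
        rw [h5]; simp
    rw [h1, h2]; simp

lemma Cm_zero {N : ℕ} (hN : 2 ≤ N) : Cm N 0 = (Am N 0).conjTranspose := by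
  rw [Cm_eq hN]
  have hX : Xi N 0 = 1 := by
    unfold Xi
    rw [← Matrix.diagonal_one]
    congr 1
    funext a
    simp
  have hX' : Xd N 0 = 1 := by
    unfold Xd
    rw [← Matrix.diagonal_one]
    congr 1
    funext a
    simp
  have hA : Ap N 0 = Am N 0 := by
    ext a l
    rw [Ap_apply, Am_apply]
    rfl
  rw [hX, hX', hA, Matrix.one_mul, Matrix.mul_one]

/-- The Kashaev invariant of `C(r, r)` is a sum of squares. -/
theorem two_value {N : ℕ} (hN : 2 ≤ N) (r : ℕ) :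
    IsKashaev N (twoBridge r) (∑ a : Fin (N - 0), ((‖(Am N 0 ^ r) a ⟨0, by omega⟩‖ ^ 2 : ℝ) : ℂ)) := by
  have h0 : 0 < N := by omega
  have hw0 : w2 N 0 = 1 := by simp [w2, qfac_zero]
  have hw1 : w2 N (N - 1) ≠ 0 := w2_ne (by omega)
  set w : List Bool := List.replicate r true ++ List.replicate r false with hw
  have hD : twoBridge r = [(1, .cup)] ++ wordD 0 w ++ [(0, .cap)] := by
    rw [hw, wordD_append, wordD_true, wordD_false]
    unfold twoBridge
    simp
  have h1 : Sup N 1 (ket [0]) := Sup_ket (w := [0]) (by intro x hx; simp at hx; omega)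
  set f0 := slice N .cup 1 (ket [0]) with hf0
  have h2 : Sup N 3 f0 := h1.cup 1
  have hE0 : Eop N f0 = fun _ => 0 := by
    rw [hf0, ← slice_E hN, Eop_ket_zero, slice_zero_fun]
  set f : S3 N := ⟨f0, h2⟩ with hf
  have hEf : ES N f = 0 := Subtype.ext hE0
  have h3 := rhoS_WS hN w f hEf
  set g : S3 N := WS N w f with hg
  have hEg : ES N g = 0 := by rw [hg, ← WS_comm hN, hEf, map_zero]
  have hgE : Eop N g.1 = 0 := congrArg Subtype.val hEg
  have hg3 : Sup3 N g.1 := Sup3_iff.mp g.2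
  have hRT : RT N (twoBridge r) (ket [0]) = slice N .cap 0 g.1 := by
    rw [hD, RT_append, RT_append, hg, WS_coe]
    rfl
  have hval : RT N (twoBridge r) (ket [0]) [0] = g.1 [0, 0, N - 1] := by
    rw [hRT, cap_ker hN hg3 hgE]
  have hsup : Sup N 1 (RT N (twoBridge r) (ket [0])) := by
    rw [hRT]; exact g.2.cap 0
  have hK := isKashaev_of_Sup hN _ hsup
  rw [hval] at hK
  -- the coordinates of the initial vector
  set x0 : I2 N := im N 0 ⟨0, by omega⟩ with hx0
  have hr0 : rhoS N f = fun y => if y = x0 then w2 N (N - 1) else 0 := by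
    funext y
    obtain ⟨⟨a, ha⟩, ⟨c, hc⟩⟩ := y
    show gg N f0 a 0 c = _
    unfold gg
    have e1 : f0 [a, 0, c] = if a = 0 ∧ c = N - 1 then 1 else 0 := by
      rw [hf0]
      simp only [slice, piece]
      by_cases hc1 : c = N - 1
      · subst hc1
        rw [if_pos (by omega)]
        by_cases ha0 : a = 0
        · subst ha0; simp [ket, cupC]
        · simp [ket, ha0]
      · rw [if_neg (by omega), if_neg (by tauto)]
    rw [e1]
    have e2 : ((⟨a, ha⟩, ⟨c, hc⟩) : I2 N) = x0 ↔ (a = 0 ∧ c = N - 1) := by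
      rw [hx0]
      simp only [im, Prod.mk.injEq, Fin.mk.injEq]
      omega
    by_cases h : a = 0 ∧ c = N - 1
    · rw [if_pos h, if_pos (e2.mpr h)]
      obtain ⟨rfl, rfl⟩ := h
      rw [hw0]; ring
    · rw [if_neg h, if_neg (fun h' => h (e2.mp h'))]
      ring
  have hfin : g.1 [0, 0, N - 1] = (MW N w) x0 x0 := by
    have h4 := congrFun h3 x0
    rw [hr0] at h4
    have h5 : rhoS N g x0 = w2 N (N - 1) * g.1 [0, 0, N - 1] := by
      show gg N g.1 _ 0 _ = _
      unfold gg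
      rw [hx0]
      simp only [im, Nat.sub_zero]
      rw [hw0]; ring
    rw [h5] at h4
    unfold Matrix.mulVec dotProduct at h4
    simp only [mul_ite, mul_zero, sum_ite_eq', mem_univ, if_true] at h4
    exact mul_left_cancel₀ hw1 (h4.trans (mul_comm _ _))
  have hMW : MW N w = MC N ^ r * MA N ^ r := by
    rw [hw, MW_append, MW_replicate, MW_replicate]
    rfl
  have hblock : (MW N w) x0 x0 = (Cm N 0 ^ r * Am N 0 ^ r) ⟨0, by omega⟩ ⟨0, by omega⟩ := by
    have h6 := MCAr_im (N := N) (s := 0) h0 r 1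
    rw [pow_one, pow_one] at h6
    rw [← h6, hMW]
    rfl
  rw [hfin, hblock, Cm_zero hN, ← Matrix.conjTranspose_pow] at hK
  convert hK using 1
  rw [Matrix.mul_apply]
  apply sum_congr rfl
  intro a _
  rw [Matrix.conjTranspose_apply, Complex.star_def, ← Complex.normSq_eq_conj_mul_self,
    Complex.normSq_eq_norm_sq]

/-- the gauge -/
noncomputable def gau (N : ℕ) (a : ℕ) : ℂ := v N ^ ((a : ℤ) ^ 2 + 2 * a)

lemma norm_gau (N a : ℕ) : ‖gau N a‖ = 1 := norm_v_zpow _ _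

lemma v_zpow_ex (N : ℕ) (x : ℤ) : v N ^ x = TB.ex (x / N) := by
  rw [v_zpow]; unfold TB.ex; congr 1; push_cast; ring

lemma rfac_sf {N : ℕ} (hN : 2 ≤ N) (m : ℕ) : rfac N m * sn N 1 ^ m = TB.sf N m := by
  have hs : sn N 1 ≠ 0 := (sn_pos (by norm_num) (by omega)).ne'
  unfold rfac TB.sf
  conv_lhs => rw [← card_range m]
  rw [card_range, ← card_range m, ← prod_const, card_range, ← prod_mul_distrib]
  apply prod_congr rfl
  intro t _
  rw [div_mul_cancel₀ _ hs]
  unfold sn TB.sb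
  congr 2
  push_cast; ring

lemma rb_eq_sf {N a l : ℕ} (hN : 2 ≤ N) (hl : l ≤ a) :
    rb N a l = TB.sf N a / (TB.sf N l * TB.sf N (a - l)) := by
  have hs : sn N 1 ≠ 0 := (sn_pos (by norm_num) (by omega)).ne'
  rw [← rfac_sf hN a, ← rfac_sf hN l, ← rfac_sf hN (a - l)]
  unfold rb
  have h1 : sn N 1 ^ a = sn N 1 ^ l * sn N 1 ^ (a - l) := by
    rw [← pow_add]; congr 1; omega
  rw [h1]
  have h2 : sn N 1 ^ l ≠ 0 := pow_ne_zero _ hs
  have h3 : sn N 1 ^ (a - l) ≠ 0 := pow_ne_zero _ hs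
  field_simp

lemma tht_col {N : ℕ} (hN : 2 ≤ N) (a : ℕ) : tht N a 0 = tht N 0 0 * ((-1) ^ a * v N ^ (a : ℤ)) := by
  induction a with
  | zero => simp
  | succ a ih =>
    rw [tht_succ hN, ih]
    have h1 : v N ^ (-wt N 0) = -v N ^ (1 : ℤ) := by
      have h2 : -wt N 0 = (1 : ℤ) - (N : ℤ) := by unfold wt; push_cast; ring
      rw [h2, zpow_sub₀ (v_ne N), v_zpow_self hN]
      ring
    rw [h1]
    have h3 : v N ^ (((a + 1 : ℕ) : ℤ)) = v N ^ (a : ℤ) * v N ^ (1 : ℤ) := by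
      rw [vz]; congr 1
    rw [h3, pow_succ]
    ring

lemma gau_Am {N : ℕ} (hN : 2 ≤ N) (a l : Fin (N - 0)) :
    gau N a * Am N 0 a l = tht N 0 0 * (TB.Ae N a l * gau N l) := by
  rw [Am_apply]
  unfold TB.Ae
  by_cases h : (l : ℕ) ≤ a
  · rw [if_pos h, if_pos h]
    have ha : (a : ℕ) < N := a.2
    unfold Ac gau
    rw [qb_real ha h, rb_eq_sf hN h, tht_col hN]
    have e : TB.ex (((a : ℕ) : ℝ) * (((l : ℕ) : ℝ) + 1) / N) =
        v N ^ (((a : ℕ) : ℤ) * (((l : ℕ) : ℤ) + 1)) := by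
      rw [v_zpow_ex]; congr 1; push_cast; ring
    rw [e]
    have hper : v N ^ (2 * (N : ℤ) * (((a : ℕ) : ℤ) - ((l : ℕ) : ℤ))) = 1 := by
      rw [zpow_mul, mul_comm (2 : ℤ), zpow_mul, v_zpow_self hN]
      norm_num
    have hc : ((N - 1 - 0 - (a : ℕ) : ℕ) : ℤ) = (N : ℤ) - 1 - (a : ℕ) := by omega
    rw [hc]
    have z : v N ^ (((a : ℕ) : ℤ) ^ 2 + 2 * ((a : ℕ) : ℤ)) * (v N ^ (((a : ℕ) : ℤ)) *
        v N ^ ((((a : ℕ) : ℤ) - ((l : ℕ) : ℤ)) * (2 * ((N : ℤ) - 1 - ((a : ℕ) : ℤ)) +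
          (((a : ℕ) : ℤ) - ((l : ℕ) : ℤ))) + ((a : ℕ) : ℤ) * ((l : ℕ) : ℤ))) =
        v N ^ (((a : ℕ) : ℤ) * (((l : ℕ) : ℤ) + 1)) *
        v N ^ (((l : ℕ) : ℤ) ^ 2 + 2 * ((l : ℕ) : ℤ)) *
        v N ^ (2 * (N : ℤ) * (((a : ℕ) : ℤ) - ((l : ℕ) : ℤ))) := by
      rw [vz, vz, vz, vz]; congr 1; ring
    rw [hper, mul_one] at z
    linear_combination ((-1) ^ (a : ℕ) * tht N 0 0 *
      ((TB.sf N a / (TB.sf N l * TB.sf N (a - l)) : ℝ) : ℂ)) * z
  · rw [if_neg h, if_neg h]; ring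

/-- the matrix of the half twist on `Fin (N - 0)` -/
noncomputable def AMz (N : ℕ) : Matrix (Fin (N - 0)) (Fin (N - 0)) ℂ := fun a l => TB.Ae N a l

lemma gau_Am_pow {N : ℕ} (hN : 2 ≤ N) (r : ℕ) (a l : Fin (N - 0)) :
    gau N a * (Am N 0 ^ r) a l = tht N 0 0 ^ r * ((AMz N ^ r) a l * gau N l) := by
  induction r generalizing a l with
  | zero =>
    rw [pow_zero, pow_zero, pow_zero, one_mul, Matrix.one_apply]
    by_cases h : a = l
    · subst h; simp
    · rw [if_neg h]; ring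
  | succ r ih =>
    rw [pow_succ, pow_succ, pow_succ (AMz N), Matrix.mul_apply, Matrix.mul_apply, mul_sum, sum_mul,
      mul_sum]
    apply sum_congr rfl
    intro k _
    have h1 := ih a k
    have h2 := gau_Am hN k l
    have h3 : AMz N k l = TB.Ae N k l := rfl
    have hg : gau N k ≠ 0 := fun h => by
      have := norm_gau N k
      rw [h, norm_zero] at this
      exact zero_ne_one this
    apply mul_left_cancel₀ hg
    rw [h3]
    linear_combination (gau N k * Am N 0 k l) * h1 +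
      (tht N 0 0 ^ r * (AMz N ^ r) a k * gau N k) * h2

lemma norm_Am_pow {N : ℕ} (hN : 2 ≤ N) (r : ℕ) (a l : Fin (N - 0)) :
    ‖(Am N 0 ^ r) a l‖ = ‖(AMz N ^ r) a l‖ := by
  have h := congrArg norm (gau_Am_pow hN r a l)
  rw [norm_mul, norm_mul, norm_mul, norm_pow, norm_gau, norm_gau, norm_tht] at h
  simpa using h

/-- The Kashaev invariant of `C(r, r)`. -/
theorem two_value' {N : ℕ} (hN : 2 ≤ N) (r : ℕ) :
    IsKashaev N (twoBridge r) ((∑ a : Fin N, ‖(TB.AM N N ^ r) a ⟨0, by omega⟩‖ ^ 2 : ℝ) : ℂ) := by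
  have h := two_value hN r
  convert h using 1
  rw [Complex.ofReal_sum]
  apply sum_congr rfl
  intro a _
  congr 2
  exact (norm_Am_pow hN r a ⟨0, by omega⟩).symm

end Pool.Agent.Helper9.Kashaev
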