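import Pool.Agent.Helper9.TB.TOne
import Pool.Agent.Helper9.TB.TwoB2

/-!
# The volume conjecture limit for `C(r, r)`
-/

namespace Pool.Agent.Helper9.TB

open Complex MeasureTheory intervalIntegral Set Filter Topology

lemma poly_exp {C g c : ℝ} (k : ℕ) (hg : 0 < g) (hc : 0 < c) :
    ∀ᶠ N : ℕ in atTop, C * (N : ℝ) ^ k * Real.exp (-(N * g)) ≤ c := by
  have h1 := Real.tendsto_pow_mul_exp_neg_atTop_nhds_zero k
  have h2 : Tendsto (fun N : ℕ => (g * N : ℝ)) atTop atTop :=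
    (tendsto_natCast_atTop_atTop).const_mul_atTop hg
  have h3 := (h1.comp h2).const_mul (C / g ^ k)
  rw [mul_zero] at h3
  filter_upwards [h3.eventually (ge_mem_nhds hc)] with N hN
  refine le_trans (le_of_eq ?_) hN
  simp only [Function.comp]
  have : g ^ k ≠ 0 := by positivity
  rw [mul_pow, mul_comm (N : ℝ) g]
  field_simp

/-- lower bound for an entry from the main piece -/
lemma lower_of_main {r : ℕ} {h δ c E g : ℝ} (hδ : 0 < δ) (hδh : δ ≤ h) (hc0 : 0 ≤ c)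
    (hc : c ≤ 1 / 2) (hg : 0 < g) (hE0 : 0 ≤ E - g) (hE1 : Real.pi * r * δ ≤ E - g)
    (l n : ℕ → ℕ) (hln : ∀ N, 2 ≤ N → l N + n N < N)
    (hR : ∀ N : ℕ, 2 ≤ N → Rest r c h δ (E - g) ((l N : ℝ) / N) ((l N + n N + 1 : ℕ) / N))
    {ξ0 κ K : ℝ} (hξ0 : ξ0 ∈ Icc (0 : ℝ) (1 / 2)) (hκ : 0 < κ)
    (hL : ∀ᶠ N : ℕ in atTop, κ / Real.sqrt N * ‖GB r N (l N) (n N) (pt ξ0 h)‖ ≤
      ‖∫ ξ in (0 : ℝ)..c, GB r N (l N) (n N) (pt ξ h)‖)
    (hK : ∀ᶠ N : ℕ in atTop, N * E - K ≤ N * Kf r h ξ0 ((l N : ℝ) / N) ((l N + n N + 1 : ℕ) / N)) :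
    ∃ (c1 : ℝ) (k : ℕ), 0 < c1 ∧ ∀ᶠ N : ℕ in atTop, ∀ (hN : 2 ≤ N),
      c1 * Real.exp (N * E) ≤
        ‖(AM N N ^ r) ⟨l N + n N, hln N hN⟩ ⟨l N, by have := hln N hN; omega⟩‖ * N ^ k := by
  have hh : 0 < h := by linarith only [hδh, hδ]
  obtain ⟨C1, k1, hC1, h1⟩ := rest_bound r hδ hδh hc0 hc hE0 hE1
  obtain ⟨C2, k2, hC2, h2⟩ := GB_ge r (hm := h) hh
  set c1 : ℝ := κ * Real.exp (-K) / C2 with hc1
  have hc1p : 0 < c1 := by positivity
  have hpe := poly_exp (C := C1) (k1 + (k2 + 1)) hg (half_pos hc1p)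
  refine ⟨c1 / 2 / (2 * Real.pi), k2 + 1, by have := Real.pi_pos; positivity, ?_⟩
  filter_upwards [hL, hK, hpe] with N hL hK hpe hN
  have hN1 : (1 : ℝ) ≤ N := by exact_mod_cast (by omega : 1 ≤ N)
  have hN0 : (0 : ℝ) < N := by linarith only [hN1]
  have b1 := h1 N (l N) (n N) hN (hln N hN) (hR N hN)
  have b2 := h2 N (l N) (n N) hN (hln N hN) h ⟨le_rfl, le_rfl⟩ ξ0
    ⟨by linarith only [hξ0.1, hξ0], hξ0.2⟩
  have b3 := entry_PI (l := l N) r hh (hln N hN)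
  have hhor : hor (GB r N (l N) (n N)) 0 c (-h) =
      ∫ ξ in (0 : ℝ)..c, GB r N (l N) (n N) (pt ξ h) := rfl
  rw [← hhor] at hL
  set X := ‖GB r N (l N) (n N) (pt ξ0 h)‖ with hX
  set Y := ‖hor (GB r N (l N) (n N)) 0 c (-h)‖ with hY
  have hX0 : 0 ≤ X := norm_nonneg _
  -- lower bound of the main piece
  have hsqrt : Real.sqrt N ≤ N := by
    rw [Real.sqrt_le_left (by linarith only [hN1])]
    nlinarith only [hN1]
  have hsq0 : 0 < Real.sqrt N := Real.sqrt_pos.mpr hN0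
  have b4 : κ * X ≤ Y * N := by
    have h3 : κ / Real.sqrt N * X ≤ Y := hL
    have h4 : κ * X = κ / Real.sqrt N * X * Real.sqrt N := by field_simp
    rw [h4]
    exact mul_le_mul h3 hsqrt hsq0.le (norm_nonneg _)
  have b5 : Real.exp (N * E) * Real.exp (-K) ≤ C2 * N ^ k2 * X := by
    rw [← Real.exp_add]
    refine le_trans (Real.exp_le_exp.mpr ?_) b2
    linarith only [hK]
  have b6 : c1 * Real.exp (N * E) ≤ Y * N ^ (k2 + 1) := by
    have h3 : c1 * Real.exp (N * E) = κ * (Real.exp (N * E) * Real.exp (-K)) / C2 := by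
      rw [hc1]; ring
    rw [h3, div_le_iff₀ hC2]
    calc κ * (Real.exp (N * E) * Real.exp (-K)) ≤ κ * (C2 * N ^ k2 * X) :=
          mul_le_mul_of_nonneg_left b5 hκ.le
      _ = (κ * X) * (C2 * N ^ k2) := by ring
      _ ≤ (Y * N) * (C2 * N ^ k2) := mul_le_mul_of_nonneg_right b4 (by positivity)
      _ = Y * N ^ (k2 + 1) * C2 := by ring
  -- the rest
  have b7 : ‖PI (GB r N (l N) (n N)) h - hor (GB r N (l N) (n N)) 0 c (-h)‖ * N ^ (k2 + 1) ≤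
      c1 / 2 * Real.exp (N * E) := by
    have h3 : Real.exp (N * (E - g)) = Real.exp (-(N * g)) * Real.exp (N * E) := by
      rw [← Real.exp_add]; congr 1; ring
    calc _ ≤ (C1 * N ^ k1 * Real.exp (N * (E - g))) * N ^ (k2 + 1) :=
          mul_le_mul_of_nonneg_right b1 (by positivity)
      _ = (C1 * (N : ℝ) ^ (k1 + (k2 + 1)) * Real.exp (-(N * g))) * Real.exp (N * E) := by
          rw [h3, pow_add]; ring
      _ ≤ _ := mul_le_mul_of_nonneg_right hpe (Real.exp_pos _).le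
  have b8 : Y ≤ ‖PI (GB r N (l N) (n N)) h‖ +
      ‖PI (GB r N (l N) (n N)) h - hor (GB r N (l N) (n N)) 0 c (-h)‖ := by
    have : hor (GB r N (l N) (n N)) 0 c (-h) = PI (GB r N (l N) (n N)) h -
      (PI (GB r N (l N) (n N)) h - hor (GB r N (l N) (n N)) 0 c (-h)) := by ring
    rw [hY]
    conv_lhs => rw [this]
    exact norm_sub_le _ _
  have b9 : c1 / 2 * Real.exp (N * E) ≤ ‖PI (GB r N (l N) (n N)) h‖ * N ^ (k2 + 1) := by
    have h3 : Y * (N : ℝ) ^ (k2 + 1) ≤ (‖PI (GB r N (l N) (n N)) h‖ +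
      ‖PI (GB r N (l N) (n N)) h - hor (GB r N (l N) (n N)) 0 c (-h)‖) * N ^ (k2 + 1) :=
      mul_le_mul_of_nonneg_right b8 (by positivity)
    linarith only [h3, b7, b6]
  rw [← b3] at b9
  have hpi : 0 < 2 * Real.pi := by have := Real.pi_pos; positivity
  rw [div_mul_eq_mul_div, div_le_iff₀ hpi]
  linarith only [b9, hN, hln]

/-- lower bound for an entry of the first column -/
theorem lower_T1 {r : ℕ} (hr : 4 ≤ r) {h ξ0 : ℝ} (S : Saddle r (1 / r) h ξ0) :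
    ∃ (c1 : ℝ) (k : ℕ), 0 < c1 ∧ ∀ᶠ N : ℕ in atTop, ∀ (hN : 2 ≤ N),
      c1 * Real.exp (N * KK r (1 / r) h ξ0 (x0 h ξ0)) ≤
        ‖(AM N N ^ r) ⟨0 + nT (x0 h ξ0) N, nT_lt hN⟩ ⟨0, by omega⟩‖ * N ^ k := by
  have hr4 : (4 : ℝ) ≤ r := by exact_mod_cast hr
  have hr0 : (0 : ℝ) < r := by linarith
  have hρ : (1 : ℝ) ≤ r := by linarith only [hr4]
  have hc0 : (0 : ℝ) < 1 / r := by positivity
  have hc4 : (1 / r : ℝ) ≤ 1 / 4 := one_div_le_one_div_of_le (by norm_num) hr4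
  obtain ⟨δ, g, hδ, hδh, hg, hE1, hE0, hR⟩ := rest_T1 hr S
  obtain ⟨m, hm, hgap⟩ := KK_gap hρ hc4 S
  have hτ := x0_mem hρ hc4 S
  have hh := S.hpos
  set τ := x0 h ξ0 with hτd
  set H := KK r (1 / r) h ξ0 τ with hH
  have hτc : τ ∈ Icc (0 : ℝ) (1 / 2) := ⟨hτ.1.le, hτ.2.le⟩
  have hP := PP_saddle1 hr S
  obtain ⟨κ, hκ, hL⟩ := laplace r hh S.xpos S.xlt (by linarith only [hc4, hc0]) hm le_rfl
    (by linarith only [hτ.2, hτ, hc4, hc0] : (0 : ℝ) < 1 - τ) (by linarith [hτ.1]) hP (by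
      intro ξ hξ
      rw [Kf_long (by omega) hh hτc, Kf_long (by omega) hh hτc]
      exact hgap ξ hξ τ hτc) (fun _ => 0) (nT τ) (fun N hN => nT_lt hN) (B := 1)
      (by intro N _; simp) (fun N hN => nT_close hτ hN)
  have hwin : ∀ N : ℕ, 2 ≤ N → (((0 + nT τ N + 1 : ℕ) : ℝ) / N) ∈ Icc (0 : ℝ) 1 := by
    intro N hN
    have hN0 : (0 : ℝ) < N := by exact_mod_cast (by omega : 0 < N)
    constructor
    · positivity
    · rw [div_le_one hN0]; exact_mod_cast (nT_lt hN : 0 + nT τ N < N)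
  have e0 : ∀ N : ℕ, ((0 : ℕ) : ℝ) / N = 0 := by intro N; simp
  obtain ⟨K, hK⟩ := ff_prim_near (ξ := ξ0) (β := 0) (α := 1 - τ) (B := 1) hh (by linarith only [hτ.2, hτ, hc4, hc0])
    (by linarith [hτ.1]) (fun N : ℕ => ((0 + nT τ N + 1 : ℕ) : ℝ) / N) (by
      intro N hN
      have hN0 : (N : ℝ) ≠ 0 := by exact_mod_cast (by omega : N ≠ 0)
      rw [mul_div_cancel₀ _ hN0]
      exact nT_close hτ hN)
  exact lower_of_main (r := r) (l := fun _ => 0) (n := nT τ) (hln := fun N hN => nT_lt hN)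
    hδ hδh hc0.le (by linarith only [hc4, hc0] : (1 / r : ℝ) ≤ 1 / 2) hg hE0 hE1
    (fun N hN => by rw [e0]; exact hR _ (hwin N hN))
    (ξ0 := ξ0) (κ := κ) (K := K) ⟨S.xpos.le, by linarith only [S.xlt, S, hc4, hc0]⟩ hκ hL (by
      filter_upwards [hK] with N hK
      have h1 : Kf r h ξ0 0 (1 - τ) = H := Kf_long (by omega) hh hτc
      rw [e0, ← h1]
      unfold Kf
      have hN0 : (0 : ℝ) ≤ N := Nat.cast_nonneg N
      have h2 := neg_abs_le ((∫ x in (0 : ℝ)..(((0 + nT τ N + 1 : ℕ) : ℝ) / N), ff h ξ0 x) -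
        ∫ x in (0 : ℝ)..(1 - τ), ff h ξ0 x)
      have h3 := mul_le_mul_of_nonneg_left h2 hN0
      nlinarith only [h3, hK])

end Pool.Agent.Helper9.TB
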