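import Pool.Agent.Helper9.TB.TOneB

/-!
# The limit for `C(r, r)`
-/

namespace Pool.Agent.Helper9.TB

open Set Filter Topology

/-- the Kashaev invariant of `C(r, r)` -/
noncomputable def JJ (r N : ℕ) : ℝ :=
  if h : 0 < N then ∑ a : Fin N, ‖(AM N N ^ r) a ⟨0, h⟩‖ ^ 2 else 0

theorem JJ_kashaev {N : ℕ} (hN : 2 ≤ N) (r : ℕ) :
    Kashaev.IsKashaev N (Kashaev.twoBridge r) (JJ r N : ℂ) := by
  have h := Kashaev.two_value' hN r
  unfold JJ
  rw [dif_pos (by omega)]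
  exact h

theorem JJ_limit {r : ℕ} (hr : 4 ≤ r) {h ξ0 : ℝ} (S : Saddle r (1 / r) h ξ0) :
    Tendsto (fun N : ℕ => Real.log (JJ r N) / N) atTop
      (𝓝 (2 * KK r (1 / r) h ξ0 (x0 h ξ0))) := by
  obtain ⟨C, k1, hC, hU⟩ := upper_T1 hr S
  obtain ⟨c, k2, hc, hL⟩ := lower_T1 hr S
  set H := KK r (1 / r) h ξ0 (x0 h ξ0) with hH
  refine log_lim (C := C ^ 2) (c := c ^ 2) (k := 2 * k1 + 1 + 2 * k2) (by positivity) (by positivity) ?_ ?_
  · filter_upwards [eventually_ge_atTop 2] with N hN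
    have hN1 : (1 : ℝ) ≤ N := by exact_mod_cast (by omega : 1 ≤ N)
    unfold JJ
    rw [dif_pos (by omega)]
    have h1 : ∀ a : Fin N, ‖(AM N N ^ r) a ⟨0, by omega⟩‖ ^ 2 ≤
        (C * N ^ k1 * Real.exp (N * H)) ^ 2 := by
      intro a
      exact pow_le_pow_left₀ (norm_nonneg _) (hU N hN a) 2
    calc ∑ a : Fin N, ‖(AM N N ^ r) a ⟨0, by omega⟩‖ ^ 2
        ≤ ∑ _a : Fin N, (C * N ^ k1 * Real.exp (N * H)) ^ 2 := Finset.sum_le_sum (fun a _ => h1 a)
      _ = N * (C * N ^ k1 * Real.exp (N * H)) ^ 2 := by simp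
      _ = C ^ 2 * N ^ (2 * k1 + 1) * Real.exp (N * (2 * H)) := by
          have : Real.exp (N * (2 * H)) = Real.exp (N * H) ^ 2 := by
            rw [← Real.exp_nat_mul]; congr 1; push_cast; ring
          rw [this]; ring
      _ ≤ C ^ 2 * N ^ (2 * k1 + 1 + 2 * k2) * Real.exp (N * (2 * H)) := by
          apply mul_le_mul_of_nonneg_right _ (Real.exp_pos _).le
          apply mul_le_mul_of_nonneg_left _ (by positivity)
          exact pow_le_pow_right₀ hN1 (by omega)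
  · filter_upwards [hL, eventually_ge_atTop 2] with N hL hN
    have hN1 : (1 : ℝ) ≤ N := by exact_mod_cast (by omega : 1 ≤ N)
    have h1 := hL hN
    set a0 : Fin N := ⟨0 + nT (x0 h ξ0) N, nT_lt hN⟩ with ha0
    have h2 : ‖(AM N N ^ r) a0 ⟨0, by omega⟩‖ ^ 2 ≤ JJ r N := by
      unfold JJ
      rw [dif_pos (by omega)]
      exact Finset.single_le_sum (f := fun a : Fin N => ‖(AM N N ^ r) a ⟨0, by omega⟩‖ ^ 2)
        (fun a _ => by positivity) (Finset.mem_univ a0)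
    have hJ0 : 0 ≤ JJ r N := le_trans (by positivity) h2
    have h3 := pow_le_pow_left₀ (by positivity) h1 2
    calc c ^ 2 * Real.exp (N * (2 * H)) = (c * Real.exp (N * H)) ^ 2 := by
          have : Real.exp (N * (2 * H)) = Real.exp (N * H) ^ 2 := by
            rw [← Real.exp_nat_mul]; congr 1; push_cast; ring
          rw [this]; ring
      _ ≤ (‖(AM N N ^ r) a0 ⟨0, by omega⟩‖ * N ^ k2) ^ 2 := h3
      _ = ‖(AM N N ^ r) a0 ⟨0, by omega⟩‖ ^ 2 * N ^ (2 * k2) := by ring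
      _ ≤ JJ r N * N ^ (2 * k2) := mul_le_mul_of_nonneg_right h2 (by positivity)
      _ ≤ JJ r N * N ^ (2 * k1 + 1 + 2 * k2) := by
          apply mul_le_mul_of_nonneg_left _ hJ0
          exact pow_le_pow_right₀ hN1 (by omega)

/-- The volume conjecture limit for `C(r, r)`. -/
theorem two_limit {r : ℕ} (hr : 4 ≤ r) {h ξ0 : ℝ} (S : Saddle r (1 / r) h ξ0) :
    Tendsto (fun N : ℕ => 2 * Real.pi * Real.log ‖(JJ r N : ℂ)‖ / N) atTop
      (𝓝 (4 * Real.pi * KK r (1 / r) h ξ0 (x0 h ξ0))) := by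
  have h1 := (JJ_limit hr S).const_mul (2 * Real.pi)
  have e1 : 2 * Real.pi * (2 * KK r (1 / r) h ξ0 (x0 h ξ0)) =
      4 * Real.pi * KK r (1 / r) h ξ0 (x0 h ξ0) := by ring
  rw [e1] at h1
  refine h1.congr (fun N => ?_)
  rw [Complex.norm_real, Real.norm_eq_abs, Real.log_abs]
  ring

end Pool.Agent.Helper9.TB
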