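import Pool.Agent.Helper9.TB.TOneB

/-!
# Asymptotics of all the entries of the powers
-/

namespace Pool.Agent.Helper9.TB

open Complex MeasureTheory intervalIntegral Set Filter Topology

/-! ### signs of the integrand -/

/-- `(C + cos (A + B)) (C + cos (A - B))` -/
lemma cc_prod (h ξ x : ℝ) :
    (Real.cosh (2 * Real.pi * h) + Real.cos (2 * Real.pi * (ξ + x))) *
      (Real.cosh (2 * Real.pi * h) + Real.cos (2 * Real.pi * (ξ - x))) =
      Real.cosh (2 * Real.pi * h) ^ 2 + 2 * Real.cosh (2 * Real.pi * h) *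
        Real.cos (2 * Real.pi * ξ) * Real.cos (2 * Real.pi * x) + Real.cos (2 * Real.pi * ξ) ^ 2 +
        Real.cos (2 * Real.pi * x) ^ 2 - 1 := by
  rw [show 2 * Real.pi * (ξ + x) = 2 * Real.pi * ξ + 2 * Real.pi * x by ring,
    show 2 * Real.pi * (ξ - x) = 2 * Real.pi * ξ - 2 * Real.pi * x by ring, Real.cos_add,
    Real.cos_sub]
  have h1 := Real.sin_sq_add_cos_sq (2 * Real.pi * ξ)
  have h2 := Real.sin_sq_add_cos_sq (2 * Real.pi * x)
  linear_combination (Real.cos (2 * Real.pi * x) ^ 2 - 1) * h1 -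
    Real.sin (2 * Real.pi * ξ) ^ 2 * h2

lemma cosh_gt {h : ℝ} (hh : 0 < h) : 1 < Real.cosh (2 * Real.pi * h) := by
  rw [Real.one_lt_cosh]
  have := Real.pi_pos
  positivity

lemma cc_pos {h : ℝ} (hh : 0 < h) (u : ℝ) :
    0 < Real.cosh (2 * Real.pi * h) + Real.cos (2 * Real.pi * u) := by
  have h1 := cosh_gt hh
  have h2 := Real.neg_one_le_cos (2 * Real.pi * u)
  linarith only [h2, h1]

lemma ff_eq {h : ℝ} (hh : 0 < h) (ξ : ℝ) {x : ℝ} (hx0 : 0 < x) (hx1 : x < 1) :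
    ff h ξ x = (Real.log (4 * (1 - Real.cos (2 * Real.pi * x)) ^ 2) -
      Real.log (4 * (Real.cosh (2 * Real.pi * h) ^ 2 + 2 * Real.cosh (2 * Real.pi * h) *
        Real.cos (2 * Real.pi * ξ) * Real.cos (2 * Real.pi * x) + Real.cos (2 * Real.pi * ξ) ^ 2 +
        Real.cos (2 * Real.pi * x) ^ 2 - 1))) / 2 := by
  have hs : 0 < Real.sin (Real.pi * x) := by
    apply Real.sin_pos_of_pos_of_lt_pi
    · have := Real.pi_pos; positivity
    · nlinarith only [Real.pi_pos, hx1]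
  unfold ff ee
  have e1 : 4 * (1 - Real.cos (2 * Real.pi * x)) ^ 2 = (2 * Real.sin (Real.pi * x)) ^ 4 := by
    have : Real.cos (2 * Real.pi * x) = 1 - 2 * Real.sin (Real.pi * x) ^ 2 := by
      rw [show 2 * Real.pi * x = 2 * (Real.pi * x) by ring, Real.cos_two_mul']
      have := Real.sin_sq_add_cos_sq (Real.pi * x)
      linarith only [this]
    rw [this]; ring
  have e2 : 4 * (Real.cosh (2 * Real.pi * h) ^ 2 + 2 * Real.cosh (2 * Real.pi * h) *
        Real.cos (2 * Real.pi * ξ) * Real.cos (2 * Real.pi * x) + Real.cos (2 * Real.pi * ξ) ^ 2 +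
        Real.cos (2 * Real.pi * x) ^ 2 - 1) =
      (2 * (Real.cosh (2 * Real.pi * h) + Real.cos (2 * Real.pi * (ξ + x)))) *
      (2 * (Real.cosh (2 * Real.pi * h) + Real.cos (2 * Real.pi * (ξ - x)))) := by
    rw [← cc_prod]; ring
  have p1 := cc_pos hh (ξ + x)
  have p2 := cc_pos hh (ξ - x)
  have e3 := Real.log_mul (x := 2 * (Real.cosh (2 * Real.pi * h) +
    Real.cos (2 * Real.pi * (ξ + x)))) (y := 2 * (Real.cosh (2 * Real.pi * h) +
    Real.cos (2 * Real.pi * (ξ - x)))) (by positivity) (by positivity)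
  rw [e1, e2, e3, Real.log_pow]
  push_cast
  ring

/-- the sign pattern of the integrand on `(0, 1/2]` -/
lemma ff_sign {h ξ x x' : ℝ} (hh : 0 < h) (hx0 : 0 < x) (hxx : x ≤ x') (hx1 : x' ≤ 1 / 2)
    (hf : 0 ≤ ff h ξ x) : 0 ≤ ff h ξ x' := by
  have hpi := Real.pi_pos
  rw [ff_eq hh ξ hx0 (by linarith only [hx1, hxx, hx0])] at hf
  rw [ff_eq hh ξ (by linarith only [hxx, hx0]) (by linarith only [hx1, hxx, hx0])]
  have hC := cosh_gt hh
  have hc1 := Real.neg_one_le_cos (2 * Real.pi * ξ)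
  have hc2 := Real.cos_le_one (2 * Real.pi * ξ)
  have hP : ∀ y : ℝ, 0 < Real.cosh (2 * Real.pi * h) ^ 2 + 2 * Real.cosh (2 * Real.pi * h) *
        Real.cos (2 * Real.pi * ξ) * Real.cos (2 * Real.pi * y) + Real.cos (2 * Real.pi * ξ) ^ 2 +
        Real.cos (2 * Real.pi * y) ^ 2 - 1 := by
    intro y
    rw [← cc_prod]
    exact mul_pos (cc_pos hh _) (cc_pos hh _)
  have ht : Real.cos (2 * Real.pi * x') ≤ Real.cos (2 * Real.pi * x) := by
    apply Real.cos_le_cos_of_nonneg_of_le_pi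
    · positivity
    · nlinarith only [hpi, hx1]
    · nlinarith only [hpi, hxx]
  have ht1 : Real.cos (2 * Real.pi * x) < 1 := by
    rw [← Real.cos_zero]
    apply Real.cos_lt_cos_of_nonneg_of_le_pi le_rfl
    · nlinarith only [hx1, hpi, hxx]
    · positivity
  set C := Real.cosh (2 * Real.pi * h) with hCd
  set c := Real.cos (2 * Real.pi * ξ) with hcd
  set t := Real.cos (2 * Real.pi * x) with htd
  set t' := Real.cos (2 * Real.pi * x') with htd'
  have h1 : 4 * (C ^ 2 + 2 * C * c * t + c ^ 2 + t ^ 2 - 1) ≤ 4 * (1 - t) ^ 2 := by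
    have h2 : Real.log (4 * (C ^ 2 + 2 * C * c * t + c ^ 2 + t ^ 2 - 1)) ≤
        Real.log (4 * (1 - t) ^ 2) := by linarith only [hf]
    have h3 : 0 < 4 * (C ^ 2 + 2 * C * c * t + c ^ 2 + t ^ 2 - 1) := by
      have := hP x; linarith only [this]
    have h4 : 0 < 4 * (1 - t) ^ 2 := by
      have : 0 < 1 - t := by linarith only [ht1]
      positivity
    exact (Real.log_le_log_iff h3 h4).mp h2
  have h5 : 4 * (C ^ 2 + 2 * C * c * t' + c ^ 2 + t' ^ 2 - 1) ≤ 4 * (1 - t') ^ 2 := by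
    -- the difference is affine in `t`, negative at `t = 1`
    have h6 : 0 ≤ 2 - C ^ 2 - c ^ 2 - 2 * t * (1 + C * c) := by nlinarith only [h1]
    have h7 : 2 - C ^ 2 - c ^ 2 - 2 * 1 * (1 + C * c) < 0 := by
      have : 0 < C + c := by linarith only [hc1, hC]
      nlinarith only [hc1, hC]
    have h8 : 0 < 1 + C * c := by nlinarith only [h7, h1, ht1]
    nlinarith only [mul_le_mul_of_nonneg_right ht h8.le, h8, ht, h1]
  have h6 := Real.log_le_log (by have := hP x'; linarith) h5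
  linarith only [h6]

/-- the first half -/
lemma ff_first (h ξ τ : ℝ) (hh : 0 < h) : ∫ x in (0 : ℝ)..τ, ff h ξ x = 2 * ll τ - win h ξ τ := by
  have c1 : Continuous (fun x => ee h (ξ + x)) := (ee_cont' hh).comp (by fun_prop)
  have c2 : Continuous (fun x => ee h (ξ - x)) := (ee_cont' hh).comp (by fun_prop)
  unfold ff
  rw [intervalIntegral.integral_sub (((logsin_int 0 τ).const_mul 2).sub
    (c1.intervalIntegrable _ _)) (c2.intervalIntegrable _ _),
    intervalIntegral.integral_sub ((logsin_int 0 τ).const_mul 2) (c1.intervalIntegrable _ _),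
    intervalIntegral.integral_const_mul]
  unfold ll win
  have e1 : ∫ x in (0 : ℝ)..τ, ee h (ξ + x) = ∫ u in ξ..(ξ + τ), ee h u := by
    have := intervalIntegral.integral_comp_add_left (a := 0) (b := τ) (ee h) ξ
    rw [this, add_zero]
  have e2 : ∫ x in (0 : ℝ)..τ, ee h (ξ - x) = ∫ u in (ξ - τ)..ξ, ee h u := by
    have := intervalIntegral.integral_comp_sub_left (a := 0) (b := τ) (ee h) ξ
    rw [this, sub_zero]
  rw [e1, e2]
  have e3 := intervalIntegral.integral_add_adjacent_intervals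
    ((ee_cont' hh).intervalIntegrable (μ := volume) (ξ - τ) ξ)
    ((ee_cont' hh).intervalIntegrable (μ := volume) ξ (ξ + τ))
  rw [← e3]
  ring

lemma ff_half {h : ℝ} (hh : 0 < h) (ξ : ℝ) : ∫ x in (0 : ℝ)..(1 / 2), ff h ξ x = -(Real.pi * h) := by
  have h1 := ff_long (ξ := ξ) hh (τ := 1 / 2) ⟨by norm_num, le_rfl⟩
  have h2 := ff_first h ξ (1 / 2) hh
  rw [show (1 : ℝ) - 1 / 2 = 1 / 2 by norm_num] at h1
  linarith only [h2, h1]

/-- windows in the first half -/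
lemma ff_window {h ξ β α : ℝ} (hh : 0 < h) (hβ : 0 ≤ β) (hβα : β ≤ α) (hα : α ≤ 1 / 2) :
    ∫ x in β..α, ff h ξ x ≤ 0 ∨
      ∫ x in β..α, ff h ξ x ≤ -2 * ll β + win h ξ β - Real.pi * h := by
  by_cases hcase : ∀ x ∈ Ioo β α, ff h ξ x ≤ 0
  · left
    rw [intervalIntegral.integral_of_le hβα, integral_Ioc_eq_integral_Ioo]
    exact setIntegral_nonpos measurableSet_Ioo hcase
  · right
    push Not at hcase
    obtain ⟨x, hx, hfx⟩ := hcase
    have h1 : 0 ≤ ∫ y in α..(1 / 2), ff h ξ y := by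
      apply intervalIntegral.integral_nonneg hα
      intro y hy
      exact ff_sign hh (by linarith only [hx.1, hx, hβ]) (by linarith only [hx.2, hy.1, hy, hx]) hy.2 hfx.le
    have h2 := intervalIntegral.integral_add_adjacent_intervals (ff_int hh ξ β α)
      (ff_int hh ξ α (1 / 2))
    have h3 := intervalIntegral.integral_add_adjacent_intervals (ff_int hh ξ 0 β)
      (ff_int hh ξ β (1 / 2))
    rw [ff_half hh, ff_first h ξ β hh] at h3
    linarith only [h3, h2, h1]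

/-- the exponent for general windows -/
lemma Kf_mid {r : ℕ} (hr : 0 < r) {h ξ τ1 τ2 : ℝ} (hh : 0 < h)
    (hτ2 : τ2 ∈ Icc (0 : ℝ) (1 / 2)) :
    Kf r h ξ τ1 (1 - τ2) = KK (r / 2) (1 / r) h ξ τ1 + KK (r / 2) (1 / r) h ξ τ2 := by
  have h3 := intervalIntegral.integral_add_adjacent_intervals (ff_int hh ξ 0 τ1)
      (ff_int hh ξ τ1 (1 - τ2))
  rw [ff_first h ξ τ1 hh, ff_long hh hτ2] at h3
  have hr0 : (r : ℝ) ≠ 0 := by positivity
  have e : ∫ x in τ1..(1 - τ2), ff h ξ x = -(2 * Real.pi * h) - 2 * ll τ2 + win h ξ τ2 -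
    (2 * ll τ1 - win h ξ τ1) := by linarith only [h3]
  unfold Kf KK
  rw [e]
  field_simp
  ring

lemma Kf_low {r : ℕ} (hr : 0 < r) {h ξ β α E : ℝ} (hh : 0 < h) (hβ : 0 ≤ β) (hβα : β ≤ α)
    (hα : α ≤ 1 / 2) (h1 : 2 * Real.pi * r * ξ * h ≤ E)
    (h2 : ∀ τ ∈ Icc (0 : ℝ) (1 / 2), KK (r / 2) (1 / r) h ξ τ + Real.pi * r * ξ * h ≤ E) :
    Kf r h ξ β α ≤ E := by
  have hr0 : (r : ℝ) ≠ 0 := by positivity
  rcases ff_window (ξ := ξ) hh hβ hβα hα with h3 | h3
  · unfold Kf; linarith only [h3, h1]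
  · have h4 := h2 β ⟨hβ, by linarith only [hα, hβα]⟩
    have e : KK (r / 2) (1 / r) h ξ β + Real.pi * r * ξ * h =
        2 * Real.pi * r * ξ * h + (-2 * ll β + win h ξ β - Real.pi * h) := by
      unfold KK
      field_simp
      ring
    rw [e] at h4
    unfold Kf; linarith only [h4, h3]

/-- the integrand is symmetric -/
lemma ff_symm (h ξ x : ℝ) : ff h ξ (1 - x) = ff h ξ x := by
  unfold ff ee
  have e1 : Real.sin (Real.pi * (1 - x)) = Real.sin (Real.pi * x) := by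
    rw [mul_sub, mul_one, Real.sin_pi_sub]
  have e2 : Real.cos (2 * Real.pi * (ξ + (1 - x))) = Real.cos (2 * Real.pi * (ξ - x)) := by
    rw [show 2 * Real.pi * (ξ + (1 - x)) = 2 * Real.pi * (ξ - x) + 2 * Real.pi by ring,
      Real.cos_add_two_pi]
  have e3 : Real.cos (2 * Real.pi * (ξ - (1 - x))) = Real.cos (2 * Real.pi * (ξ + x)) := by
    rw [show 2 * Real.pi * (ξ - (1 - x)) = 2 * Real.pi * (ξ + x) - 2 * Real.pi by ring,
      Real.cos_sub_two_pi]
  rw [e1, e2, e3]; ring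

lemma Kf_symm (r : ℕ) (h ξ β α : ℝ) : Kf r h ξ (1 - α) (1 - β) = Kf r h ξ β α := by
  unfold Kf
  congr 1
  have h1 := intervalIntegral.integral_comp_sub_left (a := 1 - α) (b := 1 - β) (ff h ξ) 1
  rw [show 1 - (1 - β) = β by ring, show 1 - (1 - α) = α by ring] at h1
  rw [← h1]
  apply intervalIntegral.integral_congr
  intro x _
  exact (ff_symm h ξ x).symm

lemma Kf_high {r : ℕ} (hr : 0 < r) {h ξ β α E : ℝ} (hh : 0 < h) (hβ : 1 / 2 ≤ β) (hβα : β ≤ α)
    (hα : α ≤ 1) (h1 : 2 * Real.pi * r * ξ * h ≤ E)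
    (h2 : ∀ τ ∈ Icc (0 : ℝ) (1 / 2), KK (r / 2) (1 / r) h ξ τ + Real.pi * r * ξ * h ≤ E) :
    Kf r h ξ β α ≤ E := by
  rw [← Kf_symm]
  exact Kf_low hr hh (by linarith only [hα]) (by linarith only [hβα]) (by linarith only [hβ]) h1 h2

lemma Kf_all {r : ℕ} (hr : 0 < r) {h ξ β α E : ℝ} (hh : 0 < h) (hβ : 0 ≤ β) (hβα : β ≤ α)
    (hα : α ≤ 1) (h1 : 2 * Real.pi * r * ξ * h ≤ E)
    (h2 : ∀ τ ∈ Icc (0 : ℝ) (1 / 2), KK (r / 2) (1 / r) h ξ τ + Real.pi * r * ξ * h ≤ E)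
    (h3 : ∀ τ ∈ Icc (0 : ℝ) (1 / 2), KK (r / 2) (1 / r) h ξ τ ≤ E / 2) :
    Kf r h ξ β α ≤ E := by
  rcases le_total α (1 / 2) with h4 | h4
  · exact Kf_low hr hh hβ hβα h4 h1 h2
  · rcases le_total β (1 / 2) with h5 | h5
    · have h6 : 1 - α ∈ Icc (0 : ℝ) (1 / 2) := ⟨by linarith only [hα], by linarith only [h4]⟩
      have h7 := Kf_mid hr (ξ := ξ) (τ1 := β) hh h6
      rw [show 1 - (1 - α) = α by ring] at h7
      rw [h7]
      have h8 := h3 β ⟨hβ, h5⟩
      have h9 := h3 (1 - α) h6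
      linarith only [h9, h8]
    · exact Kf_high hr hh h5 hβα hα h1 h2

end Pool.Agent.Helper9.TB
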