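import Pool.Agent.Helper9.TB.TTwo

/-!
# Bounds for all the entries of the powers
-/

namespace Pool.Agent.Helper9.TB

open Complex MeasureTheory intervalIntegral Set Filter Topology

lemma Kf_halves {r : ℕ} (hr : 0 < r) {h ξ β α E : ℝ} (hh : 0 < h) (hβ : 0 ≤ β) (hβα : β ≤ α)
    (hα : α ≤ 1) (hhalf : α ≤ 1 / 2 ∨ 1 / 2 ≤ β) (h1 : 2 * Real.pi * r * ξ * h ≤ E)
    (h2 : ∀ τ ∈ Icc (0 : ℝ) (1 / 2), KK (r / 2) (1 / r) h ξ τ + Real.pi * r * ξ * h ≤ E) :
    Kf r h ξ β α ≤ E := by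
  rcases hhalf with h3 | h3
  · exact Kf_low hr hh hβ hβα h3 h1 h2
  · exact Kf_high hr hh h3 hβα hα h1 h2

/-- secondary pieces, and windows contained in one half -/
theorem rest_T2 {r : ℕ} (hr : 4 ≤ r) {h ξ0 : ℝ} (S : Saddle (r / 2) (1 / r) h ξ0) :
    ∃ δ g : ℝ, 0 < δ ∧ δ ≤ h ∧ 0 < g ∧
      Real.pi * r * δ ≤ 2 * KK (r / 2) (1 / r) h ξ0 (x0 h ξ0) - g ∧
      0 ≤ 2 * KK (r / 2) (1 / r) h ξ0 (x0 h ξ0) - g ∧
      (∀ β α : ℝ, 0 ≤ β → β ≤ α → α ≤ 1 →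
        Rest r (1 / r) h δ (2 * KK (r / 2) (1 / r) h ξ0 (x0 h ξ0) - g) β α) ∧
      (∀ β α : ℝ, 0 ≤ β → β ≤ α → α ≤ 1 → ∀ ξ ∈ Icc 0 (1 / r : ℝ),
        Kf r h ξ β α ≤ 2 * KK (r / 2) (1 / r) h ξ0 (x0 h ξ0)) ∧
      (∀ β α : ℝ, 0 ≤ β → β ≤ α → α ≤ 1 → (α ≤ 1 / 2 ∨ 1 / 2 ≤ β) → ∀ ξ ∈ Icc 0 (1 / r : ℝ),
        Kf r h ξ β α ≤ 2 * KK (r / 2) (1 / r) h ξ0 (x0 h ξ0) - g) := by
  have hr4 : (4 : ℝ) ≤ r := by exact_mod_cast hr
  have hr0 : (0 : ℝ) < r := by linarith only [hr4]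
  have hρ : (1 : ℝ) ≤ r / 2 := by linarith only [hr4]
  have hc0 : (0 : ℝ) < 1 / r := by positivity
  have hc4 : (1 / r : ℝ) ≤ 1 / 4 := one_div_le_one_div_of_le (by norm_num) hr4
  obtain ⟨m, hm, hgap⟩ := KK_gap hρ hc4 S
  have hgt := saddle_gt hρ hc0 hc4 S
  have hpi := Real.pi_pos
  have hh := S.hpos
  set H := KK (r / 2) (1 / r) h ξ0 (x0 h ξ0) with hH
  have e1 : 2 * Real.pi * (r / 2) * (1 / r) * h = Real.pi * h := by field_simp
  rw [e1] at hgt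
  set g : ℝ := min (min (m * ξ0 ^ 2) (m * (1 / r - ξ0) ^ 2)) (H - Real.pi * h) / 2 with hg
  have hg1 : 2 * g ≤ m * ξ0 ^ 2 := by
    have : min (min (m * ξ0 ^ 2) (m * (1 / r - ξ0) ^ 2)) (H - Real.pi * h) ≤ m * ξ0 ^ 2 :=
      (min_le_left _ _).trans (min_le_left _ _)
    rw [hg]; linarith only [this]
  have hg2 : 2 * g ≤ m * (1 / r - ξ0) ^ 2 := by
    have : min (min (m * ξ0 ^ 2) (m * (1 / r - ξ0) ^ 2)) (H - Real.pi * h) ≤
        m * (1 / r - ξ0) ^ 2 := (min_le_left _ _).trans (min_le_right _ _)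
    rw [hg]; linarith only [this]
  have hg3 : 2 * g ≤ H - Real.pi * h := by
    have : min (min (m * ξ0 ^ 2) (m * (1 / r - ξ0) ^ 2)) (H - Real.pi * h) ≤
      (H - Real.pi * h) := min_le_right _ _
    rw [hg]; linarith only [this]
  have hg0 : 0 < g := by
    rw [hg]
    apply half_pos
    apply lt_min (lt_min _ _) (by linarith only [hgt])
    · have := S.xpos; positivity
    · have : 0 < 1 / (r : ℝ) - ξ0 := by linarith only [S.xlt, S]
      positivity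
  have hph : 0 < Real.pi * h := by positivity
  set δ : ℝ := min h (g / (Real.pi * r)) with hδ
  have hδ0 : 0 < δ := lt_min hh (by positivity)
  have hδh : δ ≤ h := min_le_left _ _
  have hδ2 : Real.pi * r * δ ≤ g := by
    have : δ ≤ g / (Real.pi * r) := min_le_right _ _
    rw [le_div_iff₀ (by positivity)] at this
    linarith only [this]
  have hc2 : (1 / r : ℝ) ≤ 1 / 2 := by linarith only [hc4, hc0]
  have hr' : 0 < r := by omega
  -- bounds on the main line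
  have hmain : ∀ ξ ∈ Icc 0 (1 / r : ℝ), 2 * Real.pi * r * ξ * h ≤ 2 * Real.pi * h ∧
      Real.pi * r * ξ * h ≤ Real.pi * h := by
    intro ξ hξ
    have h1 : (r : ℝ) * ξ ≤ 1 := by
      have := mul_le_mul_of_nonneg_left hξ.2 hr0.le
      rwa [mul_one_div_cancel hr0.ne'] at this
    constructor
    · calc 2 * Real.pi * r * ξ * h = (2 * Real.pi * h) * (r * ξ) := by ring
        _ ≤ (2 * Real.pi * h) * 1 := mul_le_mul_of_nonneg_left h1 (by positivity)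
        _ = _ := by ring
    · calc Real.pi * r * ξ * h = (Real.pi * h) * (r * ξ) := by ring
        _ ≤ (Real.pi * h) * 1 := mul_le_mul_of_nonneg_left h1 (by positivity)
        _ = _ := by ring
  have hgapH : ∀ ξ ∈ Icc 0 (1 / r : ℝ), ∀ τ ∈ Icc (0 : ℝ) (1 / 2),
      KK (r / 2) (1 / r) h ξ τ ≤ H := by
    intro ξ hξ τ hτ
    have := hgap ξ hξ τ hτ
    have h2 : 0 ≤ m * (ξ - ξ0) ^ 2 := by positivity
    linarith only [h2, this]
  refine ⟨δ, g, hδ0, hδh, hg0, by linarith only [hδ2, hph, hg0, hg3], by linarith only [hph, hg0, hg3], ?_, ?_, ?_⟩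
  · intro β α hβ hβα hα
    refine ⟨?_, ?_, ?_⟩
    · intro ξ hξ
      have h0 : Real.pi * r * ξ * h ≤ 0 := by
        have : Real.pi * r * ξ * h = (Real.pi * r * h) * ξ := by ring
        rw [this]
        exact mul_nonpos_of_nonneg_of_nonpos (by positivity) hξ.2
      have hK : ∀ τ ∈ Icc (0 : ℝ) (1 / 2), KK (r / 2) (1 / r) h ξ τ ≤ H - 2 * g := by
        intro τ hτ
        have h1 := KK_left (ρ := r / 2) (c := 1 / r) (by positivity) hh hξ hτ
        have h2 := hgap 0 ⟨le_rfl, hc0.le⟩ τ hτ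
        have h3 : m * (0 - ξ0) ^ 2 = m * ξ0 ^ 2 := by ring
        linarith only [h2, h1, hg1]
      apply Kf_all hr' hh hβ hβα hα
      · have : 2 * Real.pi * r * ξ * h = 2 * (Real.pi * r * ξ * h) := by ring
        linarith only [h0, hph, hg0, hg3]
      · intro τ hτ; linarith only [hK τ hτ, hτ, hK, h0, hph, hg0, hg3]
      · intro τ hτ; linarith only [hK τ hτ, hτ, hK, hg0]
    · intro h' hh'
      have hh'0 : 0 < h' := by linarith only [hh'.1, hh', hδ0]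
      have h0 : Real.pi * r * (1 / r) * h' ≤ Real.pi * h := by
        have : Real.pi * r * (1 / r) * h' = Real.pi * h' := by field_simp
        rw [this]
        exact mul_le_mul_of_nonneg_left hh'.2 hpi.le
      have hK : ∀ τ ∈ Icc (0 : ℝ) (1 / 2), KK (r / 2) (1 / r) h' (1 / r) τ ≤ H - 2 * g := by
        intro τ hτ
        have h1 := KK_vert (ρ := r / 2) (c := 1 / r) hh'0 hh'.2 hτ.1
        have h2 := hgap (1 / r) ⟨hc0.le, le_rfl⟩ τ hτ
        linarith only [h2, h1, hg2]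
      apply Kf_all hr' hh'0 hβ hβα hα
      · have : 2 * Real.pi * r * (1 / r) * h' = 2 * (Real.pi * r * (1 / r) * h') := by ring
        linarith only [h0, hg0, hg3]
      · intro τ hτ; linarith only [hK τ hτ, hτ, hK, h0, hg0, hg3]
      · intro τ hτ; linarith only [hK τ hτ, hτ, hK, hg0]
    · intro ξ hξ
      have h0 : Real.pi * r * ξ * δ ≤ Real.pi * r * δ / 2 := by
        have : Real.pi * r * ξ * δ = (Real.pi * r * δ) * ξ := by ring
        rw [this]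
        have := mul_le_mul_of_nonneg_left hξ.2 (show 0 ≤ Real.pi * r * δ by positivity)
        linarith only [this]
      have hK : ∀ τ ∈ Icc (0 : ℝ) (1 / 2), KK (r / 2) (1 / r) δ ξ τ ≤
          Real.pi * r * δ / 2 + (H - 2 * g) := by
        intro τ hτ
        have h1 := KK_right (ρ := r / 2) hc0.le hδ0 hξ hτ
        have h2 := KK_vert (ρ := r / 2) (c := 1 / r) hδ0 hδh hτ.1
        have h3 := hgap (1 / r) ⟨hc0.le, le_rfl⟩ τ hτ
        have h4 : 2 * Real.pi * (r / 2) * (ξ - 1 / r) * δ ≤ Real.pi * r * δ / 2 := by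
          have h1 : 2 * Real.pi * (r / 2) * (ξ - 1 / r) * δ =
              (Real.pi * r * δ) * (ξ - 1 / r) := by ring
          rw [h1]
          have := mul_le_mul_of_nonneg_left (show ξ - 1 / r ≤ 1 / 2 by linarith only [hξ.2, hξ, hc0])
            (show 0 ≤ Real.pi * r * δ by positivity)
          linarith only [this]
        linarith only [h4, h3, h2, h1, hg2]
      apply Kf_all hr' hδ0 hβ hβα hα
      · have : 2 * Real.pi * r * ξ * δ = 2 * (Real.pi * r * ξ * δ) := by ring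
        linarith only [h0, hδ2, hph, hg0, hg3]
      · intro τ hτ; linarith only [hK τ hτ, hτ, hK, h0, hδ2, hph, hg0, hg3]
      · intro τ hτ; linarith only [hK τ hτ, hτ, hK, hδ2, hg0]
  · intro β α hβ hβα hα ξ hξ
    apply Kf_all hr' hh hβ hβα hα
    · linarith only [(hmain ξ hξ).1, hξ, hmain, hg0, hg3]
    · intro τ hτ; linarith only [hgapH ξ hξ τ hτ, (hmain ξ hξ).2, hmain, hτ, hξ, hgapH, hg0, hg3]
    · intro τ hτ; linarith only [hgapH ξ hξ τ hτ, hτ, hξ, hgapH]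
  · intro β α hβ hβα hα hhalf ξ hξ
    apply Kf_halves hr' hh hβ hβα hα hhalf
    · linarith only [(hmain ξ hξ).1, hξ, hmain, hg0, hg3]
    · intro τ hτ; linarith only [hgapH ξ hξ τ hτ, (hmain ξ hξ).2, hmain, hτ, hξ, hgapH, hg0, hg3]

/-- window of an entry -/
lemma win_mem {N l n : ℕ} (hN : 2 ≤ N) (hln : l + n < N) : 0 ≤ (l : ℝ) / N ∧
    (l : ℝ) / N ≤ ((l + n + 1 : ℕ) : ℝ) / N ∧ ((l + n + 1 : ℕ) : ℝ) / N ≤ 1 := by
  have hN0 : (0 : ℝ) < N := by exact_mod_cast (by omega : 0 < N)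
  refine ⟨by positivity, ?_, ?_⟩
  · apply div_le_div_of_nonneg_right _ hN0.le
    exact_mod_cast (by omega : l ≤ l + n + 1)
  · rw [div_le_one hN0]; exact_mod_cast hln

/-- bounds for the entries -/
theorem upper_T2 {r : ℕ} (hr : 4 ≤ r) {h ξ0 : ℝ} (S : Saddle (r / 2) (1 / r) h ξ0) :
    ∃ (C g : ℝ) (k : ℕ), 0 < C ∧ 0 < g ∧ ∀ (N l n : ℕ) (_ : 2 ≤ N) (hln : l + n < N),
      ‖(AM N N ^ r) ⟨l + n, hln⟩ ⟨l, by omega⟩‖ ≤
        C * N ^ k * Real.exp (N * (2 * KK (r / 2) (1 / r) h ξ0 (x0 h ξ0))) ∧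
      ((2 * (l + n + 1) ≤ N ∨ N ≤ 2 * l) → ‖(AM N N ^ r) ⟨l + n, hln⟩ ⟨l, by omega⟩‖ ≤
        C * N ^ k * Real.exp (N * (2 * KK (r / 2) (1 / r) h ξ0 (x0 h ξ0) - g))) := by
  have hr4 : (4 : ℝ) ≤ r := by exact_mod_cast hr
  have hr0 : (0 : ℝ) < r := by linarith only [hr4]
  have hc0 : (0 : ℝ) < 1 / r := by positivity
  have hc4 : (1 / r : ℝ) ≤ 1 / 4 := one_div_le_one_div_of_le (by norm_num) hr4
  obtain ⟨δ, g, hδ, hδh, hg, hE1, hE0, hR, hM, hS⟩ := rest_T2 hr S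
  set H := KK (r / 2) (1 / r) h ξ0 (x0 h ξ0) with hH
  have hc2 : (1 / r : ℝ) ≤ 1 / 2 := by linarith only [hc4, hc0]
  obtain ⟨C1, k1, hC1, h1⟩ := rest_bound r hδ hδh hc0.le hc2 hE0 hE1
  obtain ⟨C2, k2, hC2, h2⟩ := main_bound r (E := 2 * H) S.hpos hc0.le hc2
  obtain ⟨C3, k3, hC3, h3⟩ := main_bound r (E := 2 * H - g) S.hpos hc0.le hc2
  refine ⟨C1 + C2 + C3, g, k1 + k2 + k3, by positivity, hg, fun N l n hN hln => ?_⟩
  have hN1 : (1 : ℝ) ≤ N := by exact_mod_cast (by omega : 1 ≤ N)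
  have hN0 : (0 : ℝ) < N := by linarith only [hN1, hc4, hc0]
  obtain ⟨w0, w1, w2⟩ := win_mem hN hln
  have b1 := h1 N l n hN hln (hR _ _ w0 w1 w2)
  have b2 := h2 N l n hN hln (hM _ _ w0 w1 w2)
  have b3 := entry_PI (l := l) r S.hpos hln
  have b6 : 1 ≤ 2 * Real.pi := by linarith only [Real.pi_gt_three, hc4, hc0]
  have b7 : 0 ≤ ‖(AM N N ^ r) ⟨l + n, hln⟩ ⟨l, by omega⟩‖ := norm_nonneg _
  have p1 : (N : ℝ) ^ k1 ≤ N ^ (k1 + k2 + k3) := pow_le_pow_right₀ hN1 (by omega)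
  have p2 : (N : ℝ) ^ k2 ≤ N ^ (k1 + k2 + k3) := pow_le_pow_right₀ hN1 (by omega)
  have p3 : (N : ℝ) ^ k3 ≤ N ^ (k1 + k2 + k3) := pow_le_pow_right₀ hN1 (by omega)
  have p4 : Real.exp (N * (2 * H - g)) ≤ Real.exp (N * (2 * H)) :=
    Real.exp_le_exp.mpr (mul_le_mul_of_nonneg_left (by linarith only [hg]) hN0.le)
  have e1 : PI (GB r N l n) h = (PI (GB r N l n) h - hor (GB r N l n) 0 (1 / r) (-h)) +
        hor (GB r N l n) 0 (1 / r) (-h) := by ring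
  have b4 : ‖PI (GB r N l n) h‖ ≤ ‖PI (GB r N l n) h - hor (GB r N l n) 0 (1 / r) (-h)‖ +
      ‖hor (GB r N l n) 0 (1 / r) (-h)‖ := by
    conv_lhs => rw [e1]
    exact norm_add_le _ _
  have q0 : 0 ≤ C3 * (N : ℝ) ^ (k1 + k2 + k3) * Real.exp (N * (2 * H)) := by positivity
  have q0' : 0 ≤ C2 * (N : ℝ) ^ (k1 + k2 + k3) * Real.exp (N * (2 * H - g)) := by positivity
  have q1 : C1 * (N : ℝ) ^ k1 * Real.exp (N * (2 * H - g)) ≤
      C1 * N ^ (k1 + k2 + k3) * Real.exp (N * (2 * H)) :=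
    mul_le_mul (mul_le_mul_of_nonneg_left p1 hC1.le) p4 (Real.exp_pos _).le (by positivity)
  have q1' : C1 * (N : ℝ) ^ k1 * Real.exp (N * (2 * H - g)) ≤
      C1 * N ^ (k1 + k2 + k3) * Real.exp (N * (2 * H - g)) :=
    mul_le_mul_of_nonneg_right (mul_le_mul_of_nonneg_left p1 hC1.le) (Real.exp_pos _).le
  have q2 : C2 * (N : ℝ) ^ k2 * Real.exp (N * (2 * H)) ≤
      C2 * N ^ (k1 + k2 + k3) * Real.exp (N * (2 * H)) :=
    mul_le_mul_of_nonneg_right (mul_le_mul_of_nonneg_left p2 hC2.le) (Real.exp_pos _).le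
  have q3 : C3 * (N : ℝ) ^ k3 * Real.exp (N * (2 * H - g)) ≤
      C3 * N ^ (k1 + k2 + k3) * Real.exp (N * (2 * H - g)) :=
    mul_le_mul_of_nonneg_right (mul_le_mul_of_nonneg_left p3 hC3.le) (Real.exp_pos _).le
  constructor
  · have b5 : ‖PI (GB r N l n) h‖ ≤
        (C1 + C2 + C3) * N ^ (k1 + k2 + k3) * Real.exp (N * (2 * H)) := by
      have : (C1 + C2 + C3) * (N : ℝ) ^ (k1 + k2 + k3) * Real.exp (N * (2 * H)) =
        C1 * N ^ (k1 + k2 + k3) * Real.exp (N * (2 * H)) +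
        C2 * N ^ (k1 + k2 + k3) * Real.exp (N * (2 * H)) +
        C3 * N ^ (k1 + k2 + k3) * Real.exp (N * (2 * H)) := by ring
      linarith only [q2, q1, q0, b4, b2, b1]
    nlinarith only [b7, b6, hc4, hc0, q2, q1, q0, b4, b3, b2, b1, hln]
  · intro hhalf
    have hhalf' : ((l + n + 1 : ℕ) : ℝ) / N ≤ 1 / 2 ∨ 1 / 2 ≤ (l : ℝ) / N := by
      rcases hhalf with h5 | h5
      · left
        rw [div_le_div_iff₀ hN0 (by norm_num)]
        have : ((2 * (l + n + 1) : ℕ) : ℝ) ≤ N := by exact_mod_cast h5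
        push_cast at this ⊢
        linarith only [this]
      · right
        rw [div_le_div_iff₀ (by norm_num) hN0]
        have : (N : ℝ) ≤ ((2 * l : ℕ) : ℝ) := by exact_mod_cast h5
        push_cast at this
        linarith only [this]
    have b8 := h3 N l n hN hln (hS _ _ w0 w1 w2 hhalf')
    have b5 : ‖PI (GB r N l n) h‖ ≤
        (C1 + C2 + C3) * N ^ (k1 + k2 + k3) * Real.exp (N * (2 * H - g)) := by
      have : (C1 + C2 + C3) * (N : ℝ) ^ (k1 + k2 + k3) * Real.exp (N * (2 * H - g)) =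
        C1 * N ^ (k1 + k2 + k3) * Real.exp (N * (2 * H - g)) +
        C2 * N ^ (k1 + k2 + k3) * Real.exp (N * (2 * H - g)) +
        C3 * N ^ (k1 + k2 + k3) * Real.exp (N * (2 * H - g)) := by ring
      linarith only [b8, q3, q1', q0', b4, b1]
    nlinarith only [b7, b6, hc4, hc0, b8, q3, q1', q0', b4, b3, b1, hln]

end Pool.Agent.Helper9.TB
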