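import Pool.Agent.Helper9.TB.TTwoB
import Pool.Agent.Helper9.OctVC

/-!
# The limit for the closed braids `(σ₁ ^ r σ₂ ^ (-r)) ^ p` with their axis
-/

namespace Pool.Agent.Helper9.TB

open Complex MeasureTheory intervalIntegral Set Filter Topology

/-- the row index of the dominant entry -/
noncomputable def lT (τ : ℝ) (N : ℕ) : ℕ := ⌊N * τ⌋₊

/-- the difference of the indices of the dominant entry -/
noncomputable def mT (τ : ℝ) (N : ℕ) : ℕ := N - 1 - 2 * ⌊N * τ⌋₊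

lemma lT_aux {τ : ℝ} (hτ : τ ∈ Ioo (0 : ℝ) (1 / 2)) {N : ℕ} (hN : 2 ≤ N) :
    2 * ⌊N * τ⌋₊ + 1 ≤ N := by
  have hN2 : (2 : ℝ) ≤ N := by exact_mod_cast hN
  have hx0 : 0 ≤ N * τ := mul_nonneg (by linarith only [hN2]) hτ.1.le
  have h1 : ((⌊N * τ⌋₊ : ℕ) : ℝ) ≤ N * τ := Nat.floor_le hx0
  have h2 : (2 : ℝ) * (⌊N * τ⌋₊ : ℕ) < N := by nlinarith only [hτ.2, hN2, hτ, h1]
  have h3 : 2 * ⌊N * τ⌋₊ < N := by exact_mod_cast h2
  omega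

lemma lT_lt {τ : ℝ} (hτ : τ ∈ Ioo (0 : ℝ) (1 / 2)) {N : ℕ} (hN : 2 ≤ N) :
    lT τ N + mT τ N < N := by
  have := lT_aux hτ hN
  unfold lT mT; omega

lemma lT_close {τ : ℝ} (hτ : τ ∈ Ioo (0 : ℝ) (1 / 2)) {N : ℕ} (_ : 2 ≤ N) :
    |(lT τ N : ℝ) - N * τ| ≤ 1 := by
  have hx0 : 0 ≤ N * τ := mul_nonneg (Nat.cast_nonneg _) hτ.1.le
  have h1 : ((⌊N * τ⌋₊ : ℕ) : ℝ) ≤ N * τ := Nat.floor_le hx0
  have h2 : N * τ < ⌊N * τ⌋₊ + 1 := Nat.lt_floor_add_one _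
  unfold lT
  rw [abs_le]
  constructor <;> linarith only [h2, h1]

lemma mT_close {τ : ℝ} (hτ : τ ∈ Ioo (0 : ℝ) (1 / 2)) {N : ℕ} (hN : 2 ≤ N) :
    |((lT τ N + mT τ N + 1 : ℕ) : ℝ) - N * (1 - τ)| ≤ 1 := by
  have hx0 : 0 ≤ N * τ := mul_nonneg (Nat.cast_nonneg _) hτ.1.le
  have h1 : ((⌊N * τ⌋₊ : ℕ) : ℝ) ≤ N * τ := Nat.floor_le hx0
  have h2 : N * τ < ⌊N * τ⌋₊ + 1 := Nat.lt_floor_add_one _
  have h3 := lT_aux hτ hN
  have h5 : ((lT τ N + mT τ N + 1 : ℕ) : ℝ) = N - ⌊N * τ⌋₊ := by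
    unfold lT mT
    have : ⌊N * τ⌋₊ + (N - 1 - 2 * ⌊N * τ⌋₊) + 1 = N - ⌊N * τ⌋₊ := by omega
    rw [this, Nat.cast_sub (by omega)]
  rw [h5, abs_le]
  constructor <;> linarith only [h1, h2]

/-- lower bound for an entry -/
theorem lower_T2 {r : ℕ} (hr : 4 ≤ r) {h ξ0 : ℝ} (S : Saddle (r / 2) (1 / r) h ξ0)
    (hτ : x0 h ξ0 ∈ Ioo (0 : ℝ) (1 / 2)) :
    ∃ (c1 : ℝ) (k : ℕ), 0 < c1 ∧ ∀ᶠ N : ℕ in atTop, ∀ (hN : 2 ≤ N),
      c1 * Real.exp (N * (2 * KK (r / 2) (1 / r) h ξ0 (x0 h ξ0))) ≤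
        ‖(AM N N ^ r) ⟨lT (x0 h ξ0) N + mT (x0 h ξ0) N, lT_lt hτ hN⟩
          ⟨lT (x0 h ξ0) N, by have := lT_lt hτ hN; omega⟩‖ * N ^ k := by
  have hr4 : (4 : ℝ) ≤ r := by exact_mod_cast hr
  have hr0 : (0 : ℝ) < r := by linarith only [hr4]
  have hρ : (1 : ℝ) ≤ r / 2 := by linarith only [hr4]
  have hc0 : (0 : ℝ) < 1 / r := by positivity
  have hc4 : (1 / r : ℝ) ≤ 1 / 4 := one_div_le_one_div_of_le (by norm_num) hr4
  obtain ⟨δ, g, hδ, hδh, hg, hE1, hE0, hR, -, -⟩ := rest_T2 hr S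
  obtain ⟨m, hm, hgap⟩ := KK_gap hρ hc4 S
  have hh := S.hpos
  set τ := x0 h ξ0 with hτd
  set H := KK (r / 2) (1 / r) h ξ0 τ with hH
  have hτc : τ ∈ Icc (0 : ℝ) (1 / 2) := ⟨hτ.1.le, hτ.2.le⟩
  have hP := PP_saddle2 hr S
  have hKm : ∀ ξ, Kf r h ξ τ (1 - τ) = 2 * KK (r / 2) (1 / r) h ξ τ := by
    intro ξ
    rw [Kf_mid (by omega) hh hτc]; ring
  obtain ⟨κ, hκ, hL⟩ := laplace r (m := 2 * m) hh S.xpos S.xlt (by linarith only [hc4, hc0]) (by positivity) hτ.1.le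
    (by linarith only [hτ.2, hτ] : τ < 1 - τ) (by linarith [hτ.1]) hP (by
      intro ξ hξ
      rw [hKm, hKm]
      have := hgap ξ hξ τ hτc
      linarith only [this]) (lT τ) (mT τ) (fun N hN => lT_lt hτ hN) (B := 1)
      (fun N hN => lT_close hτ hN) (fun N hN => mT_close hτ hN)
  obtain ⟨K1, hK1⟩ := ff_prim_near (ξ := ξ0) (β := 0) (α := 1 - τ) (B := 1) hh (by linarith only [hτ.2, hτ, hc4, hc0])
    (by linarith only [hτ.1, hτ]) (fun N : ℕ => ((lT τ N + mT τ N + 1 : ℕ) : ℝ) / N) (by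
      intro N hN
      have hN0 : (N : ℝ) ≠ 0 := by exact_mod_cast (by omega : N ≠ 0)
      rw [mul_div_cancel₀ _ hN0]
      exact mT_close hτ hN)
  obtain ⟨K2, hK2⟩ := ff_prim_near (ξ := ξ0) (β := 0) (α := τ) (B := 1) hh hτ.1
    (by linarith only [hτ.2, hτ, hc4, hc0]) (fun N : ℕ => (lT τ N : ℝ) / N) (by
      intro N hN
      have hN0 : (N : ℝ) ≠ 0 := by exact_mod_cast (by omega : N ≠ 0)
      rw [mul_div_cancel₀ _ hN0]
      exact lT_close hτ hN)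
  exact lower_of_main (r := r) (l := lT τ) (n := mT τ) (hln := fun N hN => lT_lt hτ hN)
    hδ hδh hc0.le (by linarith only [hc4, hc0] : (1 / r : ℝ) ≤ 1 / 2) hg hE0 hE1
    (fun N hN => by
      obtain ⟨w0, w1, w2⟩ := win_mem hN (lT_lt hτ hN)
      exact hR _ _ w0 w1 w2)
    (ξ0 := ξ0) (κ := κ) (K := K1 + K2) ⟨S.xpos.le, by linarith only [S.xlt, S, hc4, hc0]⟩ hκ hL (by
      filter_upwards [hK1, hK2] with N hK1 hK2
      rw [← hKm ξ0]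
      unfold Kf
      have hN0 : (0 : ℝ) ≤ N := Nat.cast_nonneg N
      set A := ∫ x in (0 : ℝ)..(((lT τ N + mT τ N + 1 : ℕ) : ℝ) / N), ff h ξ0 x with hA
      set A' := ∫ x in (0 : ℝ)..(1 - τ), ff h ξ0 x with hA'
      set B := ∫ x in (0 : ℝ)..((lT τ N : ℝ) / N), ff h ξ0 x with hB
      set B' := ∫ x in (0 : ℝ)..τ, ff h ξ0 x with hB'
      have e1 : ∫ x in ((lT τ N : ℝ) / N)..(((lT τ N + mT τ N + 1 : ℕ) : ℝ) / N), ff h ξ0 x =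
          A - B := by
        have := intervalIntegral.integral_add_adjacent_intervals
          (ff_int hh ξ0 0 ((lT τ N : ℝ) / N))
          (ff_int hh ξ0 ((lT τ N : ℝ) / N) (((lT τ N + mT τ N + 1 : ℕ) : ℝ) / N))
        rw [hA, hB]; linarith only [this]
      have e2 : ∫ x in τ..(1 - τ), ff h ξ0 x = A' - B' := by
        have := intervalIntegral.integral_add_adjacent_intervals
          (ff_int hh ξ0 0 τ) (ff_int hh ξ0 τ (1 - τ))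
        rw [hA', hB']; linarith only [this]
      rw [e1, e2]
      have h2 := mul_le_mul_of_nonneg_left (neg_abs_le (A - A')) hN0
      have h3 := mul_le_mul_of_nonneg_left (le_abs_self (B - B')) hN0
      nlinarith only [h2, h3, hK1, hK2])

end Pool.Agent.Helper9.TB

namespace Pool.Agent.Helper9.Kashaev

open Finset Filter Topology MeasureTheory

/-- the gauge on all the levels -/
noncomputable def gaz (N : ℕ) (x : I2 N) : ℂ :=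
  v N ^ (2 * ((lev x : ℕ) : ℤ) * ((x.1 : ℕ) : ℤ) - ((x.1 : ℕ) : ℤ) ^ 2)

lemma norm_gaz {N : ℕ} (x : I2 N) : ‖gaz N x‖ = 1 := norm_v_zpow _ _

lemma gaz_ne {N : ℕ} (x : I2 N) : gaz N x ≠ 0 := by
  intro h
  have := norm_gaz x
  rw [h, norm_zero] at this
  exact zero_ne_one this

lemma MA_gaz {N : ℕ} (hN : 2 ≤ N) (x y : I2 N) :
    MA N x y * gaz N y = if lev x = lev y then tht N 0 0 * (gaz N x * TB.Ae N x.1 y.1) else 0 := by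
  unfold MA TB.Ae
  by_cases h : (y.1 : ℕ) ≤ x.1 ∧ (y.2 : ℕ) = x.2 + (x.1 - y.1)
  · have hl : lev x = lev y := by unfold lev; omega
    rw [if_pos h, if_pos hl, if_pos h.1]
    have ha : (x.1 : ℕ) < N := x.1.2
    unfold Ac gaz
    rw [qb_real ha h.1, rb_eq_sf hN h.1, tht_col hN]
    have e : TB.ex (((x.1 : ℕ) : ℝ) * (((y.1 : ℕ) : ℝ) + 1) / N) =
        v N ^ (((x.1 : ℕ) : ℤ) * (((y.1 : ℕ) : ℤ) + 1)) := by
      rw [v_zpow_ex]; congr 1; push_cast; ring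
    rw [e]
    have hlx : ((lev x : ℕ) : ℤ) = (x.1 : ℕ) + (x.2 : ℕ) := by unfold lev; push_cast; ring
    rw [← hl]
    have z : v N ^ (((x.1 : ℕ) : ℤ)) * v N ^ ((((x.1 : ℕ) : ℤ) - ((y.1 : ℕ) : ℤ)) *
        (2 * ((x.2 : ℕ) : ℤ) + (((x.1 : ℕ) : ℤ) - ((y.1 : ℕ) : ℤ))) +
        ((x.1 : ℕ) : ℤ) * ((y.1 : ℕ) : ℤ)) *
        v N ^ (2 * ((lev x : ℕ) : ℤ) * ((y.1 : ℕ) : ℤ) - ((y.1 : ℕ) : ℤ) ^ 2) =
        v N ^ (2 * ((lev x : ℕ) : ℤ) * ((x.1 : ℕ) : ℤ) - ((x.1 : ℕ) : ℤ) ^ 2) *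
        v N ^ (((x.1 : ℕ) : ℤ) * (((y.1 : ℕ) : ℤ) + 1)) := by
      rw [vz, vz, vz]; congr 1; rw [hlx]; ring
    linear_combination ((-1) ^ (x.1 : ℕ) * tht N 0 0 *
      ((TB.sf N x.1 / (TB.sf N y.1 * TB.sf N (x.1 - y.1)) : ℝ) : ℂ)) * z
  · rw [if_neg h, zero_mul]
    by_cases hl : lev x = lev y
    · rw [if_pos hl, if_neg, mul_zero, mul_zero]
      intro h1
      apply h
      refine ⟨h1, ?_⟩
      unfold lev at hl
      omega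
    · rw [if_neg hl]

end Pool.Agent.Helper9.Kashaev
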