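import Pool.Agent.Helper9.TB.TTwoC

/-!
# The limit for the closed braids `(σ₁ ^ r σ₂ ^ (-r)) ^ p` with their axis, assembly
-/

namespace Pool.Agent.Helper9.Kashaev

open Finset Filter Topology MeasureTheory

lemma AM_pow_tri {N : ℕ} (r : ℕ) {a l : Fin N} (h : (a : ℕ) < l) : (TB.AM N N ^ r) a l = 0 :=
  ((TB.AM_LT (N := N) (M := N) (by linarith)).pow r).1 a l h

lemma sum_level {N : ℕ} {x y : I2 N} (hl : lev x = lev y) (F : Fin N → ℂ)
    (hF : ∀ k : Fin N, F k ≠ 0 → (y.1 : ℕ) ≤ k ∧ (k : ℕ) ≤ x.1) :
    ∑ z : I2 N, (if lev z = lev y then F z.1 else 0) = ∑ k : Fin N, F k := by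
  rw [Fintype.sum_prod_type]
  apply sum_congr rfl
  intro k _
  by_cases hk : F k = 0
  · rw [hk, sum_eq_zero]
    intro c _
    split_ifs
    · exact hk
    · rfl
  · obtain ⟨h1, h2⟩ := hF k hk
    have hc : lev y - k < N := by
      have := y.2.2
      unfold lev; omega
    rw [sum_eq_single (⟨lev y - k, hc⟩ : Fin N)]
    · rw [if_pos]
      unfold lev at hl ⊢
      simp only
      omega
    · intro c _ hne
      rw [if_neg]
      intro h3
      apply hne
      apply Fin.ext
      simp only
      unfold lev at h3 ⊢
      simp only at h3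
      omega
    · intro h; exact absurd (mem_univ _) h

lemma MA_pow_gaz {N : ℕ} (hN : 2 ≤ N) (r : ℕ) (x y : I2 N) :
    (MA N ^ r) x y * gaz N y =
      if lev x = lev y then tht N 0 0 ^ r * (gaz N x * (TB.AM N N ^ r) x.1 y.1) else 0 := by
  induction r generalizing y with
  | zero =>
    rw [pow_zero, pow_zero, pow_zero, Matrix.one_apply, Matrix.one_apply]
    by_cases h : x = y
    · subst h; simp
    · rw [if_neg h, zero_mul]
      by_cases hl : lev x = lev y
      · rw [if_pos hl, if_neg]
        · ring
        · intro h1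
          apply h
          apply Prod.ext h1
          apply Fin.ext
          have h2 : (x.1 : ℕ) = y.1 := by rw [h1]
          unfold lev at hl
          omega
      · rw [if_neg hl]
  | succ r ih =>
    rw [pow_succ, Matrix.mul_apply, sum_mul]
    have h1 : ∀ z : I2 N, (MA N ^ r) x z * MA N z y * gaz N y =
        if lev z = lev y then (if lev x = lev y then tht N 0 0 ^ (r + 1) * gaz N x *
          ((TB.AM N N ^ r) x.1 z.1 * TB.AM N N z.1 y.1) else 0) else 0 := by
      intro z
      rw [mul_assoc, MA_gaz hN]
      by_cases hz : lev z = lev y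
      · rw [if_pos hz, if_pos hz]
        have h2 := ih z
        rw [hz] at h2
        by_cases hx : lev x = lev y
        · rw [if_pos hx] at h2 ⊢
          have h3 : TB.AM N N z.1 y.1 = TB.Ae N z.1 y.1 := rfl
          rw [h3]
          linear_combination (tht N 0 0 * TB.Ae N z.1 y.1) * h2
        · rw [if_neg hx] at h2 ⊢
          linear_combination (tht N 0 0 * TB.Ae N z.1 y.1) * h2
      · rw [if_neg hz, if_neg hz, mul_zero]
    rw [sum_congr rfl (fun z _ => h1 z)]
    by_cases hx : lev x = lev y
    · simp only [if_pos hx]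
      have h2 := sum_level hx (fun k => tht N 0 0 ^ (r + 1) * gaz N x *
          ((TB.AM N N ^ r) x.1 k * TB.AM N N k y.1)) (by
        intro k hk
        constructor
        · by_contra h
          apply hk
          have h3 : TB.AM N N k y.1 = 0 := by
            have := AM_pow_tri 1 (a := k) (l := y.1) (by omega)
            rwa [pow_one] at this
          simp only [h3, mul_zero]
        · by_contra h
          apply hk
          have h3 := AM_pow_tri r (a := x.1) (l := k) (by omega)
          simp only [h3, zero_mul, mul_zero])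
      rw [h2, pow_succ (TB.AM N N), Matrix.mul_apply, mul_sum, mul_sum]
      apply sum_congr rfl
      intro k _
      ring
    · simp only [if_neg hx, ite_self, sum_const_zero]

lemma norm_MA_pow {N : ℕ} (hN : 2 ≤ N) (r : ℕ) (x y : I2 N) :
    ‖(MA N ^ r) x y‖ = if lev x = lev y then ‖(TB.AM N N ^ r) x.1 y.1‖ else 0 := by
  have h := congrArg norm (MA_pow_gaz hN r x y)
  rw [norm_mul, norm_gaz, mul_one] at h
  rw [h]
  split_ifs
  · rw [norm_mul, norm_mul, norm_pow, norm_gaz, norm_tht, one_pow, one_mul, one_mul]
  · exact norm_zero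

end Pool.Agent.Helper9.Kashaev
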