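import Pool.Agent.Helper9.RTDefs

/-!
# The two-bridge links `C(r, r)`
-/

namespace Pool.Agent.Helper9.Kashaev

/-- The two-bridge link `C(r, r)` (Conway's normal form), cut open at one point: strand number 0
enters at the bottom; the strands number 1, 2 are joined by a minimum; then come `r` crossings of
the strands 0, 1 and `r` crossings of the opposite sign of the strands 1, 2 (an alternating
diagram); the strands 0, 1 are joined by a maximum and the strand number 2 goes out. -/
def twoBridge (r : ℕ) : Diagram :=
  [(1, .cup)] ++ List.replicate r (0, .pos) ++ List.replicate r (1, .neg) ++ [(0, .cap)]

end Pool.Agent.Helper9.Kashaev
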