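import Pool.Agent.Helper9.Power
import Pool.Agent.Helper9.TB.TwoDefs
import Pool.Agent.Helper9.TB.Gen

/-!
# The Kashaev invariant of `C(r, r)` as a sum of squares
-/

namespace Pool.Agent.Helper9.Kashaev

open Finset

/-- the alternating sum of the q-binomials -/
noncomputable def asum (N l : ℕ) : ℂ :=
  ∑ a ∈ range (l + 1), (-1) ^ a * qb N l a * v N ^ ((a : ℤ) * ((l : ℤ) - 1))

lemma asum_zero (N : ℕ) : asum N 0 = 1 := by simp [asum, qb]

lemma asum_succ (N l : ℕ) : asum N (l + 1) = (1 - v N ^ (2 * (l : ℤ))) * asum N l := by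
  have h1 : asum N (l + 1) = ∑ a ∈ range (l + 1), ((-1) ^ (a + 1) * qb N (l + 1) (a + 1) *
      v N ^ (((a + 1 : ℕ) : ℤ) * (((l + 1 : ℕ) : ℤ) - 1))) + 1 := by
    unfold asum
    rw [sum_range_succ']
    simp [qb_zero_right]
  have h2 : ∀ a ∈ range (l + 1), ((-1 : ℂ)) ^ (a + 1) * qb N (l + 1) (a + 1) *
      v N ^ (((a + 1 : ℕ) : ℤ) * (((l + 1 : ℕ) : ℤ) - 1)) =
      (-1) ^ (a + 1) * qb N l (a + 1) * v N ^ (((a + 1 : ℕ) : ℤ) * ((l : ℤ) - 1)) -
      v N ^ (2 * (l : ℤ)) * ((-1) ^ a * qb N l a * v N ^ ((a : ℤ) * ((l : ℤ) - 1))) := by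
    intro a _
    have hq : qb N (l + 1) (a + 1) = v N ^ (-((a : ℤ) + 1)) * qb N l (a + 1) +
        v N ^ ((l : ℤ) - a) * qb N l a := by simp only [qb]
    have z1 : v N ^ (((a + 1 : ℕ) : ℤ) * ((l : ℤ) - 1)) = v N ^ (-((a : ℤ) + 1)) *
        v N ^ (((a + 1 : ℕ) : ℤ) * (((l + 1 : ℕ) : ℤ) - 1)) := by
      rw [vz]; congr 1; push_cast; ring
    have z2 : v N ^ (2 * (l : ℤ)) * v N ^ ((a : ℤ) * ((l : ℤ) - 1)) = v N ^ ((l : ℤ) - a) *
        v N ^ (((a + 1 : ℕ) : ℤ) * (((l + 1 : ℕ) : ℤ) - 1)) := by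
      rw [vz, vz]; congr 1; push_cast; ring
    rw [hq, z1, pow_succ]
    linear_combination ((-1) ^ a * qb N l a) * z2
  rw [h1, sum_congr rfl h2, sum_sub_distrib, ← mul_sum]
  have h3 : ∑ a ∈ range (l + 1), ((-1 : ℂ)) ^ (a + 1) * qb N l (a + 1) *
      v N ^ (((a + 1 : ℕ) : ℤ) * ((l : ℤ) - 1)) = asum N l - 1 := by
    have h4 : asum N l = ∑ a ∈ range l, ((-1 : ℂ)) ^ (a + 1) * qb N l (a + 1) *
        v N ^ (((a + 1 : ℕ) : ℤ) * ((l : ℤ) - 1)) + 1 := by
      unfold asum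
      rw [sum_range_succ']
      simp [qb_zero_right]
    rw [h4, sum_range_succ, qb_gt l (l + 1) (by omega)]
    ring
  rw [h3]
  unfold asum
  ring

lemma asum_pos (N l : ℕ) : asum N (l + 1) = 0 := by
  induction l with
  | zero => rw [asum_succ]; simp
  | succ l ih => rw [asum_succ, ih, mul_zero]

lemma qb_symm {N n j : ℕ} (hn : n < N) (hj : j ≤ n) : qb N n (n - j) = qb N n j := by
  rw [qb_eq_div hn (by omega), qb_eq_div hn hj, show n - (n - j) = j by omega, mul_comm]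

/-- the maximum on a vector killed by `E` -/
lemma cap_ker {N : ℕ} (hN : 2 ≤ N) {f : List ℕ → ℂ} (hf : Sup3 N f) (hE : Eop N f = 0) :
    slice N .cap 0 f [0] = f [0, 0, N - 1] := by
  have hw0 : w2 N 0 = 1 := by simp [w2, qfac_zero]
  set κ : ℂ := w2 N (N - 1) with hκ
  have hκ0 : κ ≠ 0 := w2_ne (by omega)
  have hww : ∀ a < N, w2 N a * w2 N (N - 1 - a) = κ := by
    intro a ha
    have := qfac_refl hN a ha
    rw [hκ]
    unfold w2
    rw [← this]; ring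
  have h1 : ∀ a ∈ range N, κ * (capC N a * f (a :: (N - 1 - a) :: [0])) =
      ∑ l ∈ Ico a N, (-1) ^ (N - 1 - a) * v N ^ (-(((N : ℤ) - 1 - a) * ((l : ℤ) - 1)) +
        ((N : ℤ) - 1 - l) ^ 2) * qb N l a * gg N f l 0 (N - 1 - l) := by
    intro a ha
    rw [mem_range] at ha
    have h2 := ker_sol hN hf hE (N - 1 - a) (by omega) a 0
    have h3 : κ * f [a, N - 1 - a, 0] = gg N f a (N - 1 - a) 0 := by
      unfold gg; rw [hww a ha, hw0, mul_one]
    have h4 : κ * (capC N a * f (a :: (N - 1 - a) :: [0])) =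
        capC N a * gg N f a (N - 1 - a) 0 := by rw [← h3]; ring
    rw [h4, h2, mul_sum, sum_Ico_eq_sum_range]
    rw [show N - a = N - 1 - a + 1 by omega]
    apply sum_congr rfl
    intro i hi
    rw [mem_range] at hi
    have e1 : 0 + (N - 1 - a - i) = N - 1 - (a + i) := by omega
    have hq : qb N (N - 1 - a) i = qb N (a + i) a := by
      have h5 := qb_refl hN (a := a + i) (l := a) (by omega) (by omega)
      rw [← h5, show N - 1 - (a + i) = N - 1 - a - i by omega]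
      exact (qb_symm (by omega) (by omega)).symm
    have hc : capC N a = (-1) ^ (N - 1 - a) * v N ^ (-(((N : ℤ) - 1 - a) * ((a : ℤ) - 1))) := by
      unfold capC cupC
      rw [mul_inv, ← zpow_neg, ← inv_pow, inv_neg, inv_one]
      congr 2
      have : ((N - 1 - a : ℕ) : ℤ) = (N : ℤ) - 1 - a := by omega
      rw [this]; ring
    have z : v N ^ (-(((N : ℤ) - 1 - a) * ((a : ℤ) - 1))) * v N ^ (ex3 (N - 1 - a) 0 i) =
        v N ^ (-(((N : ℤ) - 1 - a) * (((a + i : ℕ) : ℤ) - 1)) +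
          ((N : ℤ) - 1 - ((a + i : ℕ) : ℤ)) ^ 2) := by
      rw [vz]; congr 1
      unfold ex3
      have : ((N - 1 - a : ℕ) : ℤ) = (N : ℤ) - 1 - a := by omega
      rw [this]; push_cast; ring
    rw [e1, hq, hc, ← z]
    ring
  have h5 : κ * slice N .cap 0 f [0] = κ * f [0, 0, N - 1] := by
    simp only [slice, piece]
    rw [mul_sum, sum_congr rfl h1]
    have h6 := sum_comm' (s := range N) (t := fun a => Ico a N) (t' := range N)
      (s' := fun l => range (l + 1)) (f := fun a l => (-1 : ℂ) ^ (N - 1 - a) *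
        v N ^ (-(((N : ℤ) - 1 - a) * ((l : ℤ) - 1)) + ((N : ℤ) - 1 - l) ^ 2) * qb N l a *
        gg N f l 0 (N - 1 - l)) (by
          intro x y
          simp only [mem_range, mem_Ico]
          omega)
    rw [h6]
    have h7 : ∀ l ∈ range N, ∑ a ∈ range (l + 1), (-1 : ℂ) ^ (N - 1 - a) *
        v N ^ (-(((N : ℤ) - 1 - a) * ((l : ℤ) - 1)) + ((N : ℤ) - 1 - l) ^ 2) * qb N l a *
        gg N f l 0 (N - 1 - l) = (-1) ^ (N - 1) * v N ^ (-(((N : ℤ) - 1) * ((l : ℤ) - 1)) +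
          ((N : ℤ) - 1 - l) ^ 2) * gg N f l 0 (N - 1 - l) * asum N l := by
      intro l hl
      rw [mem_range] at hl
      unfold asum
      rw [mul_sum]
      apply sum_congr rfl
      intro a ha
      rw [mem_range] at ha
      have hs : (-1 : ℂ) ^ (N - 1 - a) = (-1) ^ (N - 1) * (-1) ^ a := by
        have : N - 1 = N - 1 - a + a := by omega
        conv_rhs => rw [this, pow_add, mul_assoc, ← mul_pow]
        simp
      have z : v N ^ (-(((N : ℤ) - 1 - a) * ((l : ℤ) - 1)) + ((N : ℤ) - 1 - l) ^ 2) =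
          v N ^ (-(((N : ℤ) - 1) * ((l : ℤ) - 1)) + ((N : ℤ) - 1 - l) ^ 2) *
          v N ^ ((a : ℤ) * ((l : ℤ) - 1)) := by
        rw [vz]; congr 1; ring
      rw [hs, z]; ring
    rw [sum_congr rfl h7]
    obtain ⟨M, rfl⟩ : ∃ M, N = M + 1 := ⟨N - 1, by omega⟩
    rw [sum_range_succ']
    rw [sum_eq_zero (fun l _ => by rw [asum_pos, mul_zero]), zero_add, asum_zero, mul_one]
    have z : v (M + 1) ^ (-((((M + 1 : ℕ) : ℤ) - 1) * (((0 : ℕ) : ℤ) - 1)) +
        (((M + 1 : ℕ) : ℤ) - 1 - ((0 : ℕ) : ℤ)) ^ 2) = (-1) ^ M := by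
      have h8 : (-((((M + 1 : ℕ) : ℤ) - 1) * (((0 : ℕ) : ℤ) - 1)) +
        (((M + 1 : ℕ) : ℤ) - 1 - ((0 : ℕ) : ℤ)) ^ 2) = ((M + 1 : ℕ) : ℤ) * (M : ℤ) := by
        push_cast; ring
      rw [h8, zpow_mul, v_zpow_self hN, zpow_natCast]
    rw [z]
    unfold gg
    rw [hw0]
    simp only [Nat.add_sub_cancel, Nat.sub_zero, mul_one, one_mul]
    rw [← mul_pow]
    simp [hκ]
  exact mul_left_cancel₀ hκ0 h5

end Pool.Agent.Helper9.Kashaev
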