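import Pool.Agent.Helper9.TB.Path
import Pool.Agent.Helper9.TB.Spec

/-!
# Bounds of the entries
-/

namespace Pool.Agent.Helper9.TB

open Complex MeasureTheory intervalIntegral Set

lemma PI_GB (r N l n : ℕ) (h : ℝ) :
    PI (GB r N l n) h = (∏ k ∈ Finset.Ico (l + 1) (l + n + 1), bb N k) * PI (GG r N l n) h :=
  PI_mul _

lemma norm_cM (M : ℝ) : ‖cM M‖ = 1 := by unfold cM; exact norm_ex _

/-- the entry as a path integral -/
lemma entry_PI {N l n : ℕ} (r : ℕ) {h : ℝ} (hh : 0 < h) (hln : l + n < N) :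
    2 * Real.pi * ‖(AM N N ^ r) ⟨l + n, hln⟩ ⟨l, by omega⟩‖ = ‖PI (GB r N l n) h‖ := by
  have h1 := AN_pow_PI hh r n l hln
  rw [← PI_GB] at h1
  generalize (AM N N ^ r) ⟨l + n, hln⟩ ⟨l, by omega⟩ = x at h1 ⊢
  rw [← h1]
  have : ‖(Real.pi : ℂ)‖ = Real.pi := by
    rw [Complex.norm_real, Real.norm_eq_abs, abs_of_pos Real.pi_pos]
  simp only [norm_mul, norm_pow, norm_cM, norm_I, this]
  simp

lemma pt_eq (ξ h : ℝ) : pt ξ h = (ξ : ℂ) + (-h : ℝ) * I := rfl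

/-- The exponent on the secondary pieces of the path. -/
structure Rest (r : ℕ) (c h δ E β α : ℝ) : Prop where
  left : ∀ ξ ∈ Icc (-1 / 2 : ℝ) 0, Kf r h ξ β α ≤ E
  vert : ∀ h' ∈ Icc δ h, Kf r h' c β α ≤ E
  right : ∀ ξ ∈ Icc c (1 / 2), Kf r δ ξ β α ≤ E

lemma hor_bound {f : ℂ → ℂ} {a b η B : ℝ} (hab : a ≤ b) (hB : ∀ x ∈ Icc a b, ‖f (x + η * I)‖ ≤ B) :
    ‖hor f a b η‖ ≤ B * (b - a) := by
  unfold hor
  have := intervalIntegral.norm_integral_le_of_norm_le_const (a := a) (b := b)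
    (f := fun x : ℝ => f (x + η * I)) (C := B) (by
      intro x hx
      rw [uIoc_of_le hab] at hx
      exact hB x ⟨hx.1.le, hx.2⟩)
  rwa [abs_of_nonneg (by linarith)] at this

lemma ver_bound {f : ℂ → ℂ} {x a b B : ℝ} (hab : a ≤ b) (hB : ∀ y ∈ Icc a b, ‖f (x + y * I)‖ ≤ B) :
    ‖I * ver f x a b‖ ≤ B * (b - a) := by
  rw [norm_mul, norm_I, one_mul]
  unfold ver
  have := intervalIntegral.norm_integral_le_of_norm_le_const (a := a) (b := b)
    (f := fun y : ℝ => f (x + y * I)) (C := B) (by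
      intro y hy
      rw [uIoc_of_le hab] at hy
      exact hB y ⟨hy.1.le, hy.2⟩)
  rwa [abs_of_nonneg (by linarith)] at this

/-- the secondary pieces of the path -/
theorem rest_bound (r : ℕ) {c h δ E : ℝ} (hδ : 0 < δ) (hδh : δ ≤ h) (hc0 : 0 ≤ c) (hc : c ≤ 1 / 2)
    (hE0 : 0 ≤ E) (hE1 : Real.pi * r * δ ≤ E) :
    ∃ (C : ℝ) (k : ℕ), 0 < C ∧ ∀ N l n : ℕ, 2 ≤ N → l + n < N →
      Rest r c h δ E (l / N) ((l + n + 1 : ℕ) / N) →
      ‖PI (GB r N l n) h - hor (GB r N l n) 0 c (-h)‖ ≤ C * N ^ k * Real.exp (N * E) := by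
  obtain ⟨C1, k1, hC1, h1⟩ := GB_le r (hm := h) hδ
  obtain ⟨C2, k2, hC2, h2⟩ := GB_side r h
  have hh : 0 < h := by linarith only [hδh, hδ]
  refine ⟨(C1 + C2) * (4 + 4 * h), k1 + k2, by positivity, fun N l n hN hln R => ?_⟩
  have hN1 : (1 : ℝ) ≤ N := by exact_mod_cast (by omega : 1 ≤ N)
  have hN0 : (0 : ℝ) < N := by linarith only [hN1]
  set B : ℝ := (C1 + C2) * N ^ (k1 + k2) * Real.exp (N * E) with hB
  have hB0 : 0 ≤ B := by positivity
  have b1 : C1 * (N : ℝ) ^ k1 * Real.exp (N * E) ≤ B := by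
    rw [hB]
    apply mul_le_mul_of_nonneg_right _ (Real.exp_pos _).le
    apply mul_le_mul (by linarith) _ (by positivity) (by positivity)
    exact pow_le_pow_right₀ hN1 (by omega)
  have b2 : C2 * (N : ℝ) ^ k2 * Real.exp (N * E) ≤ B := by
    rw [hB]
    apply mul_le_mul_of_nonneg_right _ (Real.exp_pos _).le
    apply mul_le_mul (by linarith only [hC1]) _ (by positivity) (by positivity)
    exact pow_le_pow_right₀ hN1 (by omega)
  have g1 : ∀ h' ∈ Icc δ h, ∀ ξ ∈ Icc (-1 / 2 : ℝ) (1 / 2),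
      Kf r h' ξ (l / N) ((l + n + 1 : ℕ) / N) ≤ E → ‖GB r N l n (pt ξ h')‖ ≤ B := by
    intro h' hh' ξ hξ hK
    refine (h1 N l n hN hln h' hh' ξ hξ).trans (le_trans ?_ b1)
    apply mul_le_mul_of_nonneg_left _ (by positivity)
    apply Real.exp_le_exp.mpr
    exact mul_le_mul_of_nonneg_left hK hN0.le
  have g2 : ∀ h' ∈ Icc (0 : ℝ) h, ‖GB r N l n (pt (-1 / 2) h')‖ ≤ B := by
    intro h' hh'
    refine ((h2 N l n hN hln h' hh').1).trans (le_trans ?_ b2)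
    apply le_mul_of_one_le_right (by positivity)
    rw [← Real.exp_zero]
    exact Real.exp_le_exp.mpr (by positivity)
  have g3 : ∀ h' ∈ Icc (0 : ℝ) δ, ‖GB r N l n (pt (1 / 2) h')‖ ≤ B := by
    intro h' hh'
    refine ((h2 N l n hN hln h' ⟨hh'.1, by linarith only [hh'.2, hh', hδh]⟩).2).trans (le_trans ?_ b2)
    apply mul_le_mul_of_nonneg_left _ (by positivity)
    apply Real.exp_le_exp.mpr
    apply mul_le_mul_of_nonneg_left _ hN0.le
    refine le_trans ?_ hE1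
    exact mul_le_mul_of_nonneg_left hh'.2 (by positivity)
  rw [PI_path hδ hδh hc0 hc (fun y hy1 hy2 => GB_diff r hln hy1 hy2) (GB_contOn r hln hh)]
  have e : -(I * ver (GB r N l n) (-1 / 2) (-h) 0) + hor (GB r N l n) (-1 / 2) 0 (-h) +
      hor (GB r N l n) 0 c (-h) + I * ver (GB r N l n) c (-h) (-δ) +
      hor (GB r N l n) c (1 / 2) (-δ) + I * ver (GB r N l n) (1 / 2) (-δ) 0 -
      hor (GB r N l n) 0 c (-h) =
      -(I * ver (GB r N l n) (-1 / 2) (-h) 0) + hor (GB r N l n) (-1 / 2) 0 (-h) +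
      I * ver (GB r N l n) c (-h) (-δ) +
      hor (GB r N l n) c (1 / 2) (-δ) + I * ver (GB r N l n) (1 / 2) (-δ) 0 := by ring
  rw [e]
  have p1 : ‖-(I * ver (GB r N l n) (-1 / 2) (-h) 0)‖ ≤ B * (0 - -h) := by
    rw [norm_neg]
    apply ver_bound (by linarith only [hδh, hδ])
    intro y hy
    have := g2 (-y) ⟨by linarith only [hy.2, hy], by linarith only [hy.1, hy]⟩
    rw [pt_eq, neg_neg] at this
    exact this
  have p2 : ‖hor (GB r N l n) (-1 / 2) 0 (-h)‖ ≤ B * (0 - (-1 / 2)) := by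
    apply hor_bound (by norm_num)
    intro x hx
    exact g1 h ⟨hδh, le_rfl⟩ x ⟨hx.1, by linarith only [hx.2, hx]⟩ (R.left x hx)
  have p3 : ‖I * ver (GB r N l n) c (-h) (-δ)‖ ≤ B * (-δ - -h) := by
    apply ver_bound (by linarith only [hδh])
    intro y hy
    have hy' : -y ∈ Icc δ h := ⟨by linarith only [hy.2, hy], by linarith only [hy.1, hy]⟩
    have := g1 (-y) hy' c ⟨by linarith only [hc0], hc⟩ (R.vert _ hy')
    rw [pt_eq, neg_neg] at this
    exact this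
  have p4 : ‖hor (GB r N l n) c (1 / 2) (-δ)‖ ≤ B * (1 / 2 - c) := by
    apply hor_bound hc
    intro x hx
    exact g1 δ ⟨le_rfl, hδh⟩ x ⟨by linarith only [hx.1, hx, hc0], hx.2⟩ (R.right x hx)
  have p5 : ‖I * ver (GB r N l n) (1 / 2) (-δ) 0‖ ≤ B * (0 - -δ) := by
    apply ver_bound (by linarith only [hδ])
    intro y hy
    have := g3 (-y) ⟨by linarith only [hy.2, hy], by linarith only [hy.1, hy]⟩
    rw [pt_eq, neg_neg] at this
    exact this
  have hBl : B * (0 - -h) + B * (0 - (-1 / 2)) + B * (-δ - -h) + B * (1 / 2 - c) + B * (0 - -δ) ≤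
      (C1 + C2) * (4 + 4 * h) * N ^ (k1 + k2) * Real.exp (N * E) := by
    have e2 : (C1 + C2) * (4 + 4 * h) * N ^ (k1 + k2) * Real.exp (N * E) = B * (4 + 4 * h) := by
      rw [hB]; ring
    rw [e2]
    have : B * (0 - -h) + B * (0 - (-1 / 2)) + B * (-δ - -h) + B * (1 / 2 - c) + B * (0 - -δ) =
        B * (2 * h + 1 - c) := by ring
    rw [this]
    exact mul_le_mul_of_nonneg_left (by linarith only [hc0, hδh, hδ]) hB0
  refine le_trans ?_ hBl
  refine (norm_add_le _ _).trans (add_le_add ?_ p5)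
  refine (norm_add_le _ _).trans (add_le_add ?_ p4)
  refine (norm_add_le _ _).trans (add_le_add ?_ p3)
  exact (norm_add_le _ _).trans (add_le_add p1 p2)

/-- the main piece of the path -/
theorem main_bound (r : ℕ) {c h E : ℝ} (hh : 0 < h) (hc0 : 0 ≤ c) (hc : c ≤ 1 / 2) :
    ∃ (C : ℝ) (k : ℕ), 0 < C ∧ ∀ N l n : ℕ, 2 ≤ N → l + n < N →
      (∀ ξ ∈ Icc 0 c, Kf r h ξ (l / N) ((l + n + 1 : ℕ) / N) ≤ E) →
      ‖hor (GB r N l n) 0 c (-h)‖ ≤ C * N ^ k * Real.exp (N * E) := by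
  obtain ⟨C1, k1, hC1, h1⟩ := GB_le r (hm := h) hh
  refine ⟨C1, k1, hC1, fun N l n hN hln R => ?_⟩
  have hN1 : (1 : ℝ) ≤ N := by exact_mod_cast (by omega : 1 ≤ N)
  have hN0 : (0 : ℝ) < N := by linarith only [hN1]
  have p2 : ‖hor (GB r N l n) 0 c (-h)‖ ≤ (C1 * N ^ k1 * Real.exp (N * E)) * (c - 0) := by
    apply hor_bound hc0
    intro x hx
    refine (h1 N l n hN hln h ⟨le_rfl, le_rfl⟩ x ⟨by linarith only [hx.1, hx], by linarith only [hx.2, hx, hc]⟩).trans ?_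
    apply mul_le_mul_of_nonneg_left _ (by positivity)
    apply Real.exp_le_exp.mpr
    exact mul_le_mul_of_nonneg_left (R x hx) hN0.le
  refine p2.trans ?_
  have : 0 ≤ C1 * (N : ℝ) ^ k1 * Real.exp (N * E) := by positivity
  nlinarith only [hc, this]

end Pool.Agent.Helper9.TB
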